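import Pool.Agent.TH141.Lau
import Pool.Agent.H824.DaffStmt

/-!
# Evaluation of Laurent polynomials, and polynomials as Laurent polynomials
-/

namespace Pool.Agent.TH141

open MvPolynomial Pool.Agent.H824

section

variable {k σ K : Type*} [Field k] [Fintype σ] [Field K] [Algebra k K]

/-- the evaluation of the Laurent polynomials at nonzero elements of a field -/
noncomputable def evalL (x : σ → K) (hx : ∀ v, x v ≠ 0) : Lau k σ →ₐ[k] K :=
  AddMonoidAlgebra.lift k K (σ → ℤ)
    { toFun := fun ν => ∏ v, x v ^ (Multiplicative.toAdd ν v)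
      map_one' := by
        simp
      map_mul' := by
        intro a b
        rw [← Finset.prod_mul_distrib]
        apply Finset.prod_congr rfl
        intro v _
        rw [toAdd_mul, Pi.add_apply, zpow_add₀ (hx v)] }

theorem evalL_mo (x : σ → K) (hx : ∀ v, x v ≠ 0) (ν : σ → ℤ) :
    evalL (k := k) x hx (mo k ν) = ∏ v, x v ^ ν v := by
  unfold evalL mo
  rw [AddMonoidAlgebra.lift_single, one_smul]
  rfl

/-- a polynomial as a Laurent polynomial -/
noncomputable def toL (k σ : Type*) [Field k] [DecidableEq σ] : MvPolynomial σ k →ₐ[k] Lau k σ :=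
  aeval (fun v => mo k (Pi.single v 1))

theorem toL_monomial [DecidableEq σ] (s : σ →₀ ℕ) (c : k) :
    toL k σ (monomial s c) = c • mo k (fun v => (s v : ℤ)) := by
  unfold toL
  rw [aeval_monomial, ← Algebra.smul_def]
  congr 1
  rw [Finsupp.prod_fintype _ _ (by intro a; simp)]
  have h : ∀ t : Finset σ, ∏ v ∈ t, mo k (Pi.single v (1 : ℤ)) ^ s v =
      mo k (∑ v ∈ t, Pi.single v ((s v : ℕ) : ℤ)) := by
    intro t
    induction t using Finset.induction_on with
    | empty => rw [Finset.prod_empty, Finset.sum_empty, mo_zero]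
    | insert a t ha ih =>
      rw [Finset.prod_insert ha, Finset.sum_insert ha, ih, mo_add, ← mo_nsmul]
      congr 2
      rw [← Pi.single_smul]
      simp
  rw [h]
  congr 1
  funext v
  rw [Finset.sum_apply, Finset.sum_eq_single v]
  · rw [Pi.single_eq_same]
  · intro b _ hb
    rw [Pi.single_eq_of_ne hb.symm]
  · simp

theorem exists_toL [DecidableEq σ] {w : Lau k σ} (hw : w ∈ pol k (∅ : Set σ)) :
    ∃ F, toL k σ F = w := by
  refine supp_induction (P := fun w => ∃ F, toL k σ F = w) ?_ ?_ ?_ ?_ hw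
  · exact ⟨0, map_zero _⟩
  · rintro x y ⟨F, hF⟩ ⟨G, hG⟩
    exact ⟨F + G, by rw [map_add, hF, hG]⟩
  · rintro c x ⟨F, hF⟩
    exact ⟨c • F, by rw [map_smul, hF]⟩
  · intro ν hν
    refine ⟨monomial (Finsupp.equivFunOnFinite.symm (fun v => (ν v).toNat)) 1, ?_⟩
    rw [toL_monomial, one_smul]
    congr 1
    funext v
    rw [Finsupp.equivFunOnFinite_symm_apply_apply, Int.toNat_of_nonneg]
    by_contra h
    exact hν v (not_le.mp h)

theorem toL_mem [DecidableEq σ] (F : MvPolynomial σ k) : toL k σ F ∈ pol k (∅ : Set σ) := by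
  induction F using MvPolynomial.induction_on' with
  | monomial s c =>
    rw [toL_monomial]
    apply Submodule.smul_mem
    apply mo_mem
    intro v hv
    simp only at hv
    omega
  | add p q hp hq =>
    rw [map_add]
    exact Submodule.add_mem _ hp hq

theorem exists_clear (w : Lau k σ) : ∃ N : ℕ, mo k (fun _ => (N : ℤ)) * w ∈ pol k (∅ : Set σ) := by
  classical
  refine ⟨∑ ν ∈ w.coeff.support, ∑ v, (ν v).natAbs, ?_⟩
  have h : ∀ ν ∈ w.coeff.support, ∀ v, 0 ≤ ((∑ ν ∈ w.coeff.support, ∑ v, (ν v).natAbs : ℕ) : ℤ) +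
      ν v := by
    intro ν hν v
    have h1 : (ν v).natAbs ≤ ∑ v, (ν v).natAbs :=
      Finset.single_le_sum (f := fun v => (ν v).natAbs) (fun _ _ => Nat.zero_le _)
        (Finset.mem_univ v)
    have h2 : ∑ v, (ν v).natAbs ≤ ∑ ν ∈ w.coeff.support, ∑ v, (ν v).natAbs :=
      Finset.single_le_sum (f := fun ν : σ → ℤ => ∑ v, (ν v).natAbs) (fun _ _ => Nat.zero_le _) hν
    omega
  have hw : w ∈ supp k {ν | ∀ v, 0 ≤ ((∑ ν ∈ w.coeff.support, ∑ v, (ν v).natAbs : ℕ) : ℤ) +
      ν v} := fun ν hν => h ν (Finsupp.mem_support_iff.mpr hν)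
  refine mul_mem_supp ?_ (mo_mem (A := {fun _ => _}) rfl) hw
  rintro a rfl b hb v hv
  simp only [Pi.add_apply] at hv
  have := hb v
  omega

theorem mo_mul_neg (ν : σ → ℤ) (w : Lau k σ) : mo k (-ν) * (mo k ν * w) = w := by
  rw [← mul_assoc, ← mo_add, neg_add_cancel, mo_zero, one_mul]

theorem evalL_toL [DecidableEq σ] (x : σ → K) (hx : ∀ v, x v ≠ 0) (F : MvPolynomial σ k) :
    evalL (k := k) x hx (toL k σ F) = aeval x F := by
  have h : (evalL (k := k) x hx).comp (toL k σ) = aeval x := by
    apply MvPolynomial.algHom_ext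
    intro v
    rw [AlgHom.comp_apply, aeval_X]
    unfold toL
    rw [aeval_X, evalL_mo, Finset.prod_eq_single v]
    · rw [Pi.single_eq_same, zpow_one]
    · intro b _ hb
      rw [Pi.single_eq_of_ne hb, zpow_zero]
    · simp
  rw [← h]
  rfl

end

section el

variable {k ι : Type*} [Field k] (V : ProjVariety k ι)

/-- the evaluation of polynomials in the cone field -/
noncomputable def elH : MvPolynomial ι k →ₐ[k] V.ConeField :=
  (IsScalarTower.toAlgHom k V.CoordRing V.ConeField).comp V.toCoord

theorem elH_apply (F : MvPolynomial ι k) : elH V F = V.el F := rfl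

theorem elH_eq_zero (F : MvPolynomial ι k) : V.el F = 0 ↔ F ∈ V.ideal := by
  unfold ProjVariety.el ProjVariety.toCoord
  rw [map_eq_zero_iff _ (IsFractionRing.injective V.CoordRing V.ConeField)]
  exact Ideal.Quotient.eq_zero_iff_mem

theorem el_aeval (F : MvPolynomial ι k) : V.el F = aeval (fun i => V.el (X i)) F := by
  have h : elH V = aeval (fun i => V.el (X i)) := by
    apply MvPolynomial.algHom_ext
    intro i
    rw [aeval_X]
    rfl
  rw [← h]
  rfl

theorem homog_of_points [Infinite k] (F : MvPolynomial ι k) (z : ι → k)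
    (h : ∀ t : k, eval (fun i => t * z i) F = 0) (d : ℕ) :
    eval z (homogeneousComponent d F) = 0 := by
  classical
  have hs : ∀ (P : MvPolynomial ι k) (e : ℕ) (_ : P.IsHomogeneous e) (t : k),
      eval (fun i => t * z i) P = t ^ e * eval z P := by
    intro P e hP t
    rw [eval_eq, eval_eq, Finset.mul_sum]
    apply Finset.sum_congr rfl
    intro m hm
    have h1 : ∑ i ∈ m.support, m i = e := (hP.degree_eq_sum_deg_support hm).symm
    simp only [mul_pow, Finset.prod_mul_distrib, Finset.prod_pow_eq_pow_sum, h1]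
    ring
  let Q : Polynomial k := ∑ e ∈ Finset.range (F.totalDegree + 1),
    Polynomial.C (eval z (homogeneousComponent e F)) * Polynomial.X ^ e
  have hQ : Q = 0 := by
    apply Polynomial.funext
    intro t
    rw [Polynomial.eval_zero, ← h t]
    conv_rhs => rw [← sum_homogeneousComponent F]
    rw [map_sum, Polynomial.eval_finsetSum]
    apply Finset.sum_congr rfl
    intro e _
    rw [hs _ e (homogeneousComponent_isHomogeneous e F), Polynomial.eval_mul, Polynomial.eval_C,
      Polynomial.eval_pow, Polynomial.eval_X, mul_comm]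
  by_cases hd : d < F.totalDegree + 1
  · have h1 := congrArg (fun P => Polynomial.coeff P d) hQ
    simp only [Q, Polynomial.finsetSum_coeff, Polynomial.coeff_C_mul, Polynomial.coeff_X_pow,
      Polynomial.coeff_zero, mul_ite, mul_one, mul_zero] at h1
    rw [Finset.sum_ite_eq, if_pos (Finset.mem_range.mpr hd)] at h1
    exact h1
  · rw [homogeneousComponent_eq_zero _ _ (by omega), map_zero]

end el

end Pool.Agent.TH141
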