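import Pool.Agent.TH141.Lau

/-!
# The incidence form `x_0 y_0 + x_1 y_1 + x_2 y_2 + x_3 y_3`: the obstruction
-/

namespace Pool.Agent.TH141

open MvPolynomial

section inc

variable {k : Type*} [Field k]

/-- the exponent of `x_i y_i` -/
def xyE (i : Fin 4) : Fin 2 × Fin 4 → ℤ := fun v => if v.2 = i then 1 else 0

/-- the form `x_0 y_0 + x_1 y_1 + x_2 y_2 + x_3 y_3` -/
noncomputable def incF (k : Type*) [Field k] : Lau k (Fin 2 × Fin 4) := ∑ i, mo k (xyE i)

/-- the exponent of `m = x_0 y_0⁻¹ y_1⁻¹ x_2⁻¹ y_2 x_3⁻¹` -/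
def muE : Fin 2 × Fin 4 → ℤ := fun v => ![![1, 0, -1, -1], ![-1, -1, 1, 0]] v.1 v.2

/-- the exponent of `x_0^(q-1) y_0⁻¹ x_1^(q-1) y_1⁻¹ x_2^(2-q) y_2² x_3^(-q)` -/
def epsE (q : ℤ) : Fin 2 × Fin 4 → ℤ := fun v =>
  ![![q - 1, q - 1, 2 - q, -q], ![-1, -1, 2, 0]] v.1 v.2

/-- the variables `y_0, y_1, x_2, x_3` -/
def JJ : Set (Fin 2 × Fin 4) := {(1, 0), (1, 1), (0, 2), (0, 3)}

/-- the variable of `JJ` of index `i` -/
def jv (i : Fin 4) : Fin 2 × Fin 4 := (![1, 1, 0, 0] i, i)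

/-- the other variable of index `i` -/
def jc (i : Fin 4) : Fin 2 × Fin 4 := (![0, 0, 1, 1] i, i)

/-- the sign of the weight -/
def sg (i : Fin 4) : ℤ := ![1, 1, -1, -1] i

/-- the exponents of the block of torus weight `(q, q, -q, -q)` -/
def Blk (q : ℤ) : Set (Fin 2 × Fin 4 → ℤ) :=
  {ν | ∀ i, ν (jc i) - ν (jv i) = q ∧ 0 ≤ ν (jc i)}

/-- the images of the variables `u_i = x_i y_i` -/
noncomputable def uu (k : Type*) [Field k] (i : Fin 4) : MvPolynomial (Fin 3) k :=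
  ![X 0, X 1, X 2, -(X 0 + X 1 + X 2)] i

theorem sum_uu : ∑ i, uu k i = 0 := by
  rw [Fin.sum_univ_four]
  simp only [uu, Matrix.cons_val_zero, Matrix.cons_val_one, Matrix.cons_val]
  ring

/-- the linear map to the polynomials in three variables -/
noncomputable def Psi (k : Type*) [Field k] (q : ℤ) :
    Lau k (Fin 2 × Fin 4) →ₗ[k] MvPolynomial (Fin 3) k :=
  open Classical in ofMo (fun ν => if ν ∈ Blk q then ∏ i, uu k i ^ (ν (jc i)).toNat else 0)

/-- the ideal generated by the `q`-th powers of the variables -/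
noncomputable def Iq (k : Type*) [Field k] (q : ℕ) : Ideal (MvPolynomial (Fin 3) k) :=
  Ideal.span ((fun s => monomial s 1) '' {s | ∃ i, s = Finsupp.single i q})

theorem uu_pow_mem (p e : ℕ) [Fact p.Prime] [CharP k p] (i : Fin 4) :
    uu k i ^ p ^ e ∈ Iq k (p ^ e) := by
  have hX : ∀ i : Fin 3, (X i : MvPolynomial (Fin 3) k) ^ p ^ e ∈ Iq k (p ^ e) := by
    intro i
    rw [X_pow_eq_monomial]
    exact Ideal.subset_span ⟨_, ⟨i, rfl⟩, rfl⟩
  have h4 : (-(X 0 + X 1 + X 2) : MvPolynomial (Fin 3) k) ^ p ^ e ∈ Iq k (p ^ e) := by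
    rw [neg_pow, add_pow_char_pow, add_pow_char_pow]
    exact Ideal.mul_mem_left _ _ (add_mem (add_mem (hX 0) (hX 1)) (hX 2))
  fin_cases i
  · exact hX 0
  · exact hX 1
  · exact hX 2
  · exact h4

theorem Psi_mo_mem (p e : ℕ) [Fact p.Prime] [CharP k p] (ν : Fin 2 × Fin 4 → ℤ) (i : Fin 4)
    (hi : 0 ≤ ν (jv i)) : Psi k ((p ^ e : ℕ) : ℤ) (mo k ν) ∈ Iq k (p ^ e) := by
  classical
  unfold Psi
  rw [ofMo_mo]
  split_ifs with h
  · have h1 := (h i).1
    have h2 : ∃ r : ℕ, (ν (jc i)).toNat = p ^ e + r := by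
      refine ⟨(ν (jc i)).toNat - p ^ e, ?_⟩
      omega
    obtain ⟨r, hr⟩ := h2
    rw [← Finset.mul_prod_erase Finset.univ _ (Finset.mem_univ i), hr, pow_add]
    exact Ideal.mul_mem_right _ _ (Ideal.mul_mem_right _ _ (uu_pow_mem p e i))
  · exact zero_mem _

theorem Psi_mul (q : ℤ) (ν : Fin 2 × Fin 4 → ℤ) (h : ∀ i, 0 ≤ ν (jc i)) :
    Psi k q (incF k * mo k ν) = 0 := by
  classical
  have h1 : ∀ i, xyE i + ν ∈ Blk q ↔ ν ∈ Blk q := by
    intro i
    unfold Blk
    simp only [Set.mem_ofPred_eq]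
    apply forall_congr'
    intro j
    have h2 : (xyE i + ν) (jc j) = xyE i (jc j) + ν (jc j) := rfl
    have h3 : (xyE i + ν) (jv j) = xyE i (jv j) + ν (jv j) := rfl
    have h4 : xyE i (jc j) = xyE i (jv j) := rfl
    have h5 : 0 ≤ xyE i (jv j) := by
      unfold xyE
      split_ifs <;> simp
    have h6 := h j
    rw [h2, h3, h4]
    constructor
    · rintro ⟨a, b⟩
      exact ⟨by omega, h6⟩
    · rintro ⟨a, b⟩
      exact ⟨by omega, by omega⟩
  unfold incF
  rw [Finset.sum_mul, map_sum]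
  simp only [← mo_add]
  unfold Psi
  simp only [ofMo_mo, h1]
  by_cases hν : ν ∈ Blk q
  · simp only [hν, if_true]
    have h2 : ∀ i, ∏ j, uu k j ^ ((xyE i + ν) (jc j)).toNat =
        uu k i * ∏ j, uu k j ^ (ν (jc j)).toNat := by
      intro i
      have h3 : ∀ j, ((xyE i + ν) (jc j)).toNat = (if i = j then 1 else 0) + (ν (jc j)).toNat := by
        intro j
        have h6 := h j
        have h2 : (xyE i + ν) (jc j) = xyE i (jc j) + ν (jc j) := rfl
        rw [h2]
        unfold xyE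
        by_cases hij : i = j
        · subst hij
          simp only [jc, if_true]
          simp only [jc] at h6
          omega
        · have : ¬ (jc j).2 = i := fun h => hij h.symm
          rw [if_neg this, if_neg hij]
          simp
      simp only [h3, pow_add, Finset.prod_mul_distrib]
      congr 1
      rw [Finset.prod_eq_single i]
      · simp
      · intro j _ hj
        rw [if_neg (fun h => hj h.symm), pow_zero]
      · simp
    simp only [h2]
    rw [← Finset.sum_mul, sum_uu, zero_mul]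
  · simp only [hν, if_false, Finset.sum_const_zero]

theorem Psi_eps (q : ℕ) (hq : 3 ≤ q) :
    Psi k (q : ℤ) (mo k (epsE q)) ∉ Iq k q := by
  classical
  have hB : epsE (q : ℤ) ∈ Blk (q : ℤ) := by
    intro i
    fin_cases i <;> simp [jc, jv, epsE] <;> omega
  unfold Psi
  rw [ofMo_mo, if_pos hB]
  have h1 : ∏ i, uu k i ^ (epsE (q : ℤ) (jc i)).toNat =
      monomial (Finsupp.single 0 (q - 1) + Finsupp.single 1 (q - 1) + Finsupp.single 2 2) 1 := by
    rw [Fin.prod_univ_four]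
    have e0 : (epsE (q : ℤ) (jc 0)).toNat = q - 1 := by
      simp [jc, epsE]
    have e1 : (epsE (q : ℤ) (jc 1)).toNat = q - 1 := by
      simp [jc, epsE]
    have e2 : (epsE (q : ℤ) (jc 2)).toNat = 2 := by
      simp [jc, epsE]
    have e3 : (epsE (q : ℤ) (jc 3)).toNat = 0 := by
      simp [jc, epsE]
    rw [e0, e1, e2, e3, pow_zero, mul_one]
    simp only [uu, Matrix.cons_val_zero, Matrix.cons_val_one, Matrix.cons_val, X_pow_eq_monomial,
      monomial_mul, one_mul]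
  rw [h1]
  unfold Iq
  rw [mem_ideal_span_monomial_image]
  intro h
  obtain ⟨s, ⟨i, rfl⟩, hs⟩ := h (Finsupp.single 0 (q - 1) + Finsupp.single 1 (q - 1) +
    Finsupp.single 2 2) (by
      rw [mem_support_iff, coeff_monomial, if_pos rfl]
      exact one_ne_zero)
  have h2 := hs i
  rw [Finsupp.single_eq_same] at h2
  fin_cases i
  · simp at h2
    omega
  · simp at h2
    omega
  · simp at h2
    omega

theorem dg_tv (i : Fin 4) : dg (Prod.fst : Fin 2 × Fin 4 → Fin 2) (xyE i + muE) = 0 := by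
  funext r
  rw [dg_apply]
  simp only [Fintype.sum_prod_type]
  fin_cases r <;> fin_cases i <;> simp [xyE, muE, Fin.sum_univ_succ]

theorem tv_mem (i : Fin 4) : xyE i + muE ∈ NegAt (JJ \ {jv i}) := by
  intro v hv
  obtain ⟨a, b⟩ := v
  revert hv
  fin_cases i <;> fin_cases a <;> fin_cases b <;> simp [xyE, muE, JJ, jv]

theorem eps_mem (q : ℕ) (hq : 3 ≤ q) : epsE q ∈ NegAt JJ := by
  intro v hv
  obtain ⟨a, b⟩ := v
  revert hv
  fin_cases a <;> fin_cases b <;> simp [epsE, JJ]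
  all_goals omega

theorem jv_notMem_a (i : Fin 4) : jv i ∉ (JJ \ {jv i}) ∪ {(0, 0), (1, 2)} := by
  fin_cases i <;> simp [jv]

theorem jv_notMem_b (i : Fin 4) : jv i ∉ (JJ \ {jv i}) ∪ {(0, 1), (1, 3)} := by
  fin_cases i <;> simp [jv]

theorem jv_notMem_ab (i : Fin 4) :
    jv i ∉ (JJ \ {jv i}) ∪ ({(0, 0), (1, 2)} ∪ {(0, 1), (1, 3)}) := by
  fin_cases i <;> simp [jv]

theorem jc_notMem (i : Fin 4) :
    jc i ∉ JJ ∪ {(0, 0), (1, 2)} ∨ jc i ∉ JJ ∪ {(0, 1), (1, 3)} := by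
  fin_cases i <;> simp [jc, JJ]

theorem noVar_incF : NoVar (incF k) := by
  classical
  constructor
  · unfold incF
    apply Submodule.sum_mem
    intro i _
    apply mo_mem
    intro v hv
    exfalso
    unfold xyE at hv
    split_ifs at hv <;> simp at hv
  · intro v
    obtain ⟨a, b⟩ := v
    obtain ⟨i, hi⟩ : ∃ i : Fin 4, b ≠ i := by
      fin_cases b
      · exact ⟨1, by simp⟩
      · exact ⟨0, by simp⟩
      · exact ⟨0, by simp⟩
      · exact ⟨0, by simp⟩
    refine ⟨xyE i, ?_, ?_⟩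
    · unfold incF
      rw [AddMonoidAlgebra.coeff_sum, Finsupp.finsetSum_apply, Finset.sum_eq_single i]
      · rw [coeff_mo, if_pos rfl]
        exact one_ne_zero
      · intro j _ hj
        rw [coeff_mo, if_neg]
        intro h
        have := congrFun h (0, j)
        unfold xyE at this
        simp [hj] at this
      · simp
    · unfold xyE
      rw [if_neg hi]

theorem incF_ne_zero : incF k ≠ 0 := by
  obtain ⟨ν, hν, _⟩ := (noVar_incF (k := k)).2 (0, 0)
  intro h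
  rw [h] at hν
  exact hν rfl

/-- the exponents that are negative on `JJ` -/
def Jneg : Set (Fin 2 × Fin 4 → ℤ) := {ν | ∀ i, ν (jv i) < 0}

theorem proj_zero_of {S : Set (Fin 2 × Fin 4)} {i : Fin 4} (hi : jv i ∉ S)
    {w : Lau k (Fin 2 × Fin 4)} (hw : w ∈ pol k S) : proj k Jneg w = 0 := by
  apply proj_eq_zero
  refine supp_mono ?_ hw
  intro ν hν h
  exact hi (hν _ (h i))

theorem Psi_mem_of {S : Set (Fin 2 × Fin 4)} {i : Fin 4} (hi : jv i ∉ S) (p e : ℕ)
    [Fact p.Prime] [CharP k p] {w : Lau k (Fin 2 × Fin 4)} (hw : w ∈ pol k S) :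
    Psi k ((p ^ e : ℕ) : ℤ) w ∈ (Iq k (p ^ e)).restrictScalars k := by
  refine map_supp _ _ ?_ hw
  intro ν hν
  refine Psi_mo_mem p e ν i ?_
  by_contra h
  exact hi (hν _ (not_le.mp h))

/-- The obstruction. -/
theorem no_lift (p e : ℕ) [Fact p.Prime] [CharP k p] (hq3 : 3 ≤ p ^ e)
    (G0 G1 : Lau k (Fin 2 × Fin 4) →ₗ[k] Lau k (Fin 2 × Fin 4))
    (h0 : ∀ T : Set (Fin 2 × Fin 4), {(0, 0), (1, 2)} ⊆ T → ∀ u ∈ pol k T,
      u ∈ hom k Prod.fst 0 → G0 u ∈ pol k T)
    (h1 : ∀ T : Set (Fin 2 × Fin 4), {(0, 1), (1, 3)} ⊆ T → ∀ u ∈ pol k T,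
      u ∈ hom k Prod.fst 0 → G1 u ∈ pol k T)
    (hd : ∀ u ∈ hom k (Prod.fst : Fin 2 × Fin 4 → Fin 2) 0, ∃ z, G1 u - G0 u = incF k * z)
    (hf : ∃ z, G0 (incF k * mo k muE) = mo k (epsE (p ^ e : ℕ)) - incF k * z) : False := by
  classical
  obtain ⟨z0, hz0⟩ := hf
  have ht : ∀ i, (mo k (xyE i + muE)) ∈ hom k (Prod.fst : Fin 2 × Fin 4 → Fin 2) 0 :=
    fun i => mo_mem (dg_tv i)
  have htp : ∀ i, ∀ S : Set (Fin 2 × Fin 4), (mo k (xyE i + muE)) ∈ pol k (JJ \ {jv i} ∪ S) :=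
    fun i S => pol_mono Set.subset_union_left (mo_mem (tv_mem i))
  have hfm : incF k * mo k muE = ∑ i, mo k (xyE i + muE) := by
    unfold incF
    rw [Finset.sum_mul]
    simp only [mo_add]
  have hG0 : ∀ i, G0 (mo k (xyE i + muE)) ∈ pol k (JJ \ {jv i} ∪ {(0, 0), (1, 2)}) :=
    fun i => h0 _ Set.subset_union_right _ (htp i _) (ht i)
  have hG1 : ∀ i, G1 (mo k (xyE i + muE)) ∈ pol k (JJ \ {jv i} ∪ {(0, 1), (1, 3)}) :=
    fun i => h1 _ Set.subset_union_right _ (htp i _) (ht i)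
  have hA : ∀ i, ∃ z, G1 (mo k (xyE i + muE)) - G0 (mo k (xyE i + muE)) = incF k * z :=
    fun i => hd _ (ht i)
  choose A hA using hA
  have hAp : ∀ i, A i ∈ pol k (JJ \ {jv i} ∪ ({(0, 0), (1, 2)} ∪ {(0, 1), (1, 3)})) := by
    intro i
    apply pol_div noVar_incF
    rw [← hA i]
    apply Submodule.sub_mem
    · refine pol_mono ?_ (hG1 i)
      exact Set.union_subset_union_right _ Set.subset_union_right
    · refine pol_mono ?_ (hG0 i)
      exact Set.union_subset_union_right _ Set.subset_union_left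
  set z1 := z0 - ∑ i, A i with hz1def
  have hz1 : G1 (incF k * mo k muE) = mo k (epsE (p ^ e : ℕ)) - incF k * z1 := by
    have h2 : G1 (incF k * mo k muE) - G0 (incF k * mo k muE) = incF k * ∑ i, A i := by
      rw [hfm, map_sum, map_sum, ← Finset.sum_sub_distrib, Finset.mul_sum]
      exact Finset.sum_congr rfl (fun i _ => hA i)
    rw [hz1def, mul_sub, ← h2, hz0]
    ring
  have hJS : ∀ (i : Fin 4) (S : Set (Fin 2 × Fin 4)), JJ \ {jv i} ∪ S ⊆ JJ ∪ S :=
    fun i S => Set.union_subset_union_left _ Set.diff_subset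
  have hz0p : z0 ∈ pol k (JJ ∪ {(0, 0), (1, 2)}) := by
    apply pol_div noVar_incF
    have h2 : incF k * z0 = mo k (epsE (p ^ e : ℕ)) - ∑ i, G0 (mo k (xyE i + muE)) := by
      rw [hfm, map_sum] at hz0
      rw [hz0]
      ring
    rw [h2]
    apply Submodule.sub_mem
    · exact pol_mono Set.subset_union_left (mo_mem (eps_mem _ hq3))
    · exact Submodule.sum_mem _ (fun i _ => pol_mono (hJS i _) (hG0 i))
  have hz1p : z1 ∈ pol k (JJ ∪ {(0, 1), (1, 3)}) := by
    apply pol_div noVar_incF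
    have h2 : incF k * z1 = mo k (epsE (p ^ e : ℕ)) - ∑ i, G1 (mo k (xyE i + muE)) := by
      rw [hfm, map_sum] at hz1
      rw [hz1]
      ring
    rw [h2]
    apply Submodule.sub_mem
    · exact pol_mono Set.subset_union_left (mo_mem (eps_mem _ hq3))
    · exact Submodule.sum_mem _ (fun i _ => pol_mono (hJS i _) (hG1 i))
  have hproj : proj k Jneg z0 = proj k Jneg z1 := by
    rw [hz1def, map_sub, map_sum]
    rw [Finset.sum_eq_zero (fun i _ => proj_zero_of (jv_notMem_ab i) (hAp i)), sub_zero]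
  have hpp : ∀ (S : Set (Fin 2 × Fin 4)) (w : Lau k (Fin 2 × Fin 4)), w ∈ pol k S →
      proj k Jneg w ∈ pol k S := by
    intro S w hw
    refine map_supp _ _ ?_ hw
    intro ν hν
    by_cases h : ν ∈ Jneg
    · rw [proj_mo_mem h]
      exact mo_mem hν
    · rw [proj_mo_notMem h]
      exact zero_mem _
  have hm : proj k Jneg z0 ∈ supp k {ν : Fin 2 × Fin 4 → ℤ | ∀ i, 0 ≤ ν (jc i)} := by
    intro ν hν i
    by_contra hneg
    rcases jc_notMem i with h | h
    · exact h (hpp _ _ hz0p ν hν _ (not_le.mp hneg))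
    · rw [hproj] at hν
      exact h (hpp _ _ hz1p ν hν _ (not_le.mp hneg))
  have e1 : Psi k ((p ^ e : ℕ) : ℤ) (incF k * proj k Jneg z0) = 0 := by
    have h2 : (Psi k ((p ^ e : ℕ) : ℤ) ∘ₗ LinearMap.mulLeft k (incF k)) (proj k Jneg z0) =
        (0 : Lau k (Fin 2 × Fin 4) →ₗ[k] MvPolynomial (Fin 3) k) (proj k Jneg z0) := by
      refine eq_on_supp _ _ ?_ hm
      intro ν hν
      rw [LinearMap.comp_apply, LinearMap.mulLeft_apply, LinearMap.zero_apply]
      exact Psi_mul _ ν hν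
    exact h2
  have e2 : Psi k ((p ^ e : ℕ) : ℤ) (incF k * (z0 - proj k Jneg z0)) ∈
      (Iq k (p ^ e)).restrictScalars k := by
    have h2 : incF k * (z0 - proj k Jneg z0) ∈ supp k (Jnegᶜ) := by
      refine mul_mem_supp ?_ (noVar_incF (k := k)).1 (sub_proj_mem Jneg z0)
      intro a ha b hb hab
      apply hb
      intro i
      have h3 := hab i
      have h4 : 0 ≤ a (jv i) := by
        by_contra h5
        exact ha _ (not_le.mp h5)
      rw [Pi.add_apply] at h3
      omega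
    refine map_supp _ _ ?_ h2
    intro ν hν
    have h3 : ∃ i, 0 ≤ ν (jv i) := by
      by_contra h4
      push Not at h4
      exact hν h4
    obtain ⟨i, hi⟩ := h3
    exact Psi_mo_mem p e ν i hi
  have e3 : ∀ i, Psi k ((p ^ e : ℕ) : ℤ) (G0 (mo k (xyE i + muE))) ∈
      (Iq k (p ^ e)).restrictScalars k :=
    fun i => Psi_mem_of (jv_notMem_a i) p e (hG0 i)
  apply Psi_eps (k := k) (p ^ e) hq3
  have e4 : mo k (epsE ((p ^ e : ℕ) : ℤ)) = incF k * proj k Jneg z0 +
      incF k * (z0 - proj k Jneg z0) + ∑ i, G0 (mo k (xyE i + muE)) := by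
    rw [← map_sum, ← hfm, hz0]
    ring
  change Psi k ((p ^ e : ℕ) : ℤ) (mo k (epsE ((p ^ e : ℕ) : ℤ))) ∈
    (Iq k (p ^ e)).restrictScalars k
  rw [e4, map_add, map_add, e1, zero_add, map_sum]
  exact Submodule.add_mem _ e2 (Submodule.sum_mem _ (fun i _ => e3 i))

end inc

end Pool.Agent.TH141
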