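import Pool.Agent.TH141.IncA

/-!
# The operators
-/

namespace Pool.Agent.TH141

section inc

variable {k : Type*} [Field k]

/-- the operator `g`: a matrix unit over the `q`-th powers, which maps `m` to the class -/
noncomputable def gOp (k : Type*) [Field k] (q : ℕ) :
    Lau k (Fin 2 × Fin 4) →ₗ[k] Lau k (Fin 2 × Fin 4) :=
  open Classical in
  ofMo (fun ν => if ∀ v, (q : ℤ) ∣ ν v - muE v then mo k (ν + (epsE q - muE)) else 0)

/-- the operator `x_i^(-q) ∂/∂(y_i^q)` -/
noncomputable def yOp (k : Type*) [Field k] (q : ℕ) (i : Fin 4) :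
    Lau k (Fin 2 × Fin 4) →ₗ[k] Lau k (Fin 2 × Fin 4) :=
  ofMo (fun ν => ((ν (1, i) / (q : ℤ) : ℤ) : k) • mo k (ν - q • xyE i))

theorem gOp_qlin (q : ℕ) : QLin q (gOp k q) := by
  classical
  apply QLin.of_mo
  intro w ν
  unfold gOp
  rw [ofMo_mo, ofMo_mo]
  have h : (∀ v, (q : ℤ) ∣ (q • w + ν) v - muE v) ↔ (∀ v, (q : ℤ) ∣ ν v - muE v) := by
    apply forall_congr'
    intro v
    have h1 : (q • w + ν) v - muE v = (q : ℤ) * w v + (ν v - muE v) := by
      simp only [Pi.add_apply, smul_ap]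
      ring
    rw [h1]
    exact (Int.dvd_add_right (Dvd.intro _ rfl))
  simp only [h]
  split_ifs
  · rw [← mo_add, add_assoc]
  · rw [mul_zero]

theorem gOp_mu (q : ℕ) : gOp k q (mo k muE) = mo k (epsE q) := by
  classical
  unfold gOp
  rw [ofMo_mo, if_pos (by intro v; simp)]
  congr 1
  abel

theorem gOp_pol (q : ℕ) (hq : 3 ≤ q) (S : Set (Fin 2 × Fin 4)) {w : Lau k (Fin 2 × Fin 4)}
    (hw : w ∈ pol k S) : gOp k q w ∈ pol k S := by
  classical
  refine map_supp _ _ ?_ hw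
  intro ν hν
  unfold gOp
  rw [ofMo_mo]
  split_ifs with h
  · apply mo_mem
    intro v hv
    by_contra hvS
    have h1 : 0 ≤ ν v := by
      by_contra h2
      exact hvS (hν v (not_le.mp h2))
    have h2 := h v
    obtain ⟨a, b⟩ := v
    obtain ⟨c, hc⟩ := h2
    have hq' : (3 : ℤ) ≤ (q : ℤ) := by exact_mod_cast hq
    have hc1 : 0 ≤ c ∨ c ≤ -1 := by omega
    have hqc : 0 ≤ c → 0 ≤ (q : ℤ) * c := fun h => mul_nonneg (by omega) h
    have hqc' : 1 ≤ c → (q : ℤ) ≤ (q : ℤ) * c := fun h => le_mul_of_one_le_right (by omega) h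
    have hqc0 : c = 0 → (q : ℤ) * c = 0 := fun h => by rw [h, mul_zero]
    have hqcn : c ≤ -1 → (q : ℤ) * c ≤ -q := by
      intro h
      nlinarith
    have hcc : (q : ℤ) * c = 0 ∨ (q : ℤ) ≤ q * c ∨ (q : ℤ) * c ≤ -q := by
      rcases (show c = 0 ∨ 1 ≤ c ∨ c ≤ -1 by omega) with h0 | h0 | h0
      · exact Or.inl (hqc0 h0)
      · exact Or.inr (Or.inl (hqc' h0))
      · exact Or.inr (Or.inr (hqcn h0))
    revert hv hc h1
    fin_cases a <;> fin_cases b <;>
      simp [epsE, muE] <;> intros <;> omega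
  · exact zero_mem _

theorem dg_mu (q : ℤ) : dg (Prod.fst : Fin 2 × Fin 4 → Fin 2) (epsE q - muE) = 1 := by
  funext r
  rw [dg_apply]
  simp only [Fintype.sum_prod_type]
  fin_cases r <;> simp [epsE, muE, Fin.sum_univ_succ] <;> ring

theorem dg_xyE (i : Fin 4) : dg (Prod.fst : Fin 2 × Fin 4 → Fin 2) (xyE i) = 1 := by
  funext r
  rw [dg_apply]
  simp only [Fintype.sum_prod_type]
  fin_cases r <;> fin_cases i <;> simp [xyE, Fin.sum_univ_succ]

theorem gOp_hom (q : ℕ) (d : Fin 2 → ℤ) {w : Lau k (Fin 2 × Fin 4)}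
    (hw : w ∈ hom k Prod.fst d) : gOp k q w ∈ hom k Prod.fst (d + 1) := by
  classical
  refine map_supp _ _ ?_ hw
  intro ν hν
  unfold gOp
  rw [ofMo_mo]
  split_ifs with h
  · apply mo_mem
    simp only [Set.mem_ofPred_eq] at hν ⊢
    rw [map_add, hν, dg_mu]
  · exact zero_mem _

theorem yOp_hom (q : ℕ) (i : Fin 4) (d : Fin 2 → ℤ) {w : Lau k (Fin 2 × Fin 4)}
    (hw : w ∈ hom k Prod.fst d) : yOp k q i w ∈ hom k Prod.fst (d - q • 1) := by
  refine map_supp _ _ ?_ hw
  intro ν hν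
  unfold yOp
  rw [ofMo_mo]
  apply Submodule.smul_mem
  apply mo_mem
  simp only [Set.mem_ofPred_eq] at hν ⊢
  rw [map_sub, map_nsmul, hν, dg_xyE]

theorem yOp_pol (q : ℕ) (hq : 0 < q) (i : Fin 4) (S : Set (Fin 2 × Fin 4)) (hi : (0, i) ∈ S)
    {w : Lau k (Fin 2 × Fin 4)} (hw : w ∈ pol k S) : yOp k q i w ∈ pol k S := by
  refine map_supp _ _ ?_ hw
  intro ν hν
  unfold yOp
  rw [ofMo_mo]
  by_cases h0 : ν (1, i) / (q : ℤ) = 0
  · rw [h0, Int.cast_zero, zero_smul]
    exact zero_mem _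
  · apply Submodule.smul_mem
    apply mo_mem
    intro v hv
    by_contra hvS
    have h1 : 0 ≤ ν v := by
      by_contra h2
      exact hvS (hν v (not_le.mp h2))
    have h2 : (ν - q • xyE i) v = ν v - (q : ℤ) * xyE i v := by
      simp only [Pi.sub_apply, smul_ap]
    rw [h2] at hv
    obtain ⟨a, b⟩ := v
    unfold xyE at hv
    simp only at hv
    by_cases hb : b = i
    · subst hb
      have ha : a = 1 := by
        by_contra ha
        have : a = 0 := by omega
        rw [this] at hvS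
        exact hvS hi
      subst ha
      rw [if_pos rfl, mul_one] at hv
      apply h0
      exact Int.ediv_eq_zero_of_lt h1 (by omega)
    · rw [if_neg hb, mul_zero, sub_zero] at hv
      omega

theorem yOp_qlin (p q : ℕ) (hq : 0 < q) [CharP k p] (i : Fin 4) : QLin (q * p) (yOp k q i) := by
  apply QLin.of_mo
  intro w ν
  unfold yOp
  rw [ofMo_mo, ofMo_mo]
  have h1 : ((q * p) • w + ν) (1, i) / (q : ℤ) = (p : ℤ) * w (1, i) + ν (1, i) / (q : ℤ) := by
    have h2 : ((q * p) • w + ν) (1, i) = ν (1, i) + (q : ℤ) * ((p : ℤ) * w (1, i)) := by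
      simp only [Pi.add_apply, smul_ap]
      push_cast
      ring
    rw [h2, Int.add_mul_ediv_left _ _ (by exact_mod_cast hq.ne')]
    ring
  rw [h1]
  push_cast
  rw [CharP.cast_eq_zero k p, zero_mul, zero_add, mul_smul_comm, ← mo_add, add_sub_assoc]

/-- the `q`-th power of the form -/
theorem incF_pow (p e : ℕ) [Fact p.Prime] [CharP k p] :
    incF k ^ p ^ e = ∑ i, mo k ((p ^ e) • xyE i) := by
  have : CharP (Lau k (Fin 2 × Fin 4)) p :=
    charP_of_injective_algebraMap (algebraMap k (Lau k (Fin 2 × Fin 4))).injective p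
  unfold incF
  rw [sum_pow_char_pow]
  simp only [mo_nsmul]

theorem yOp_comm (p e : ℕ) [Fact p.Prime] [CharP k p] (i : Fin 4) (w : Lau k (Fin 2 × Fin 4)) :
    yOp k (p ^ e) i (incF k ^ p ^ e * w) = incF k ^ p ^ e * yOp k (p ^ e) i w + w := by
  have hq : ((p ^ e : ℕ) : ℤ) ≠ 0 := by
    exact_mod_cast (pow_ne_zero e (Fact.out : p.Prime).ne_zero)
  have h : yOp k (p ^ e) i ∘ₗ LinearMap.mulLeft k (incF k ^ p ^ e) =
      LinearMap.mulLeft k (incF k ^ p ^ e) ∘ₗ yOp k (p ^ e) i + LinearMap.id := by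
    apply lin_ext
    intro ν
    rw [LinearMap.add_apply, LinearMap.comp_apply, LinearMap.comp_apply, LinearMap.mulLeft_apply,
      LinearMap.mulLeft_apply, LinearMap.id_apply, incF_pow, Finset.sum_mul, map_sum]
    have h1 : ∀ j, yOp k (p ^ e) i (mo k ((p ^ e) • xyE j) * mo k ν) =
        mo k ((p ^ e) • xyE j) * yOp k (p ^ e) i (mo k ν) + (if j = i then mo k ν else 0) := by
      intro j
      rw [← mo_add]
      unfold yOp
      rw [ofMo_mo, ofMo_mo]
      have h2 : ((p ^ e) • xyE j + ν) (1, i) / ((p ^ e : ℕ) : ℤ) =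
          (if j = i then 1 else 0) + ν (1, i) / ((p ^ e : ℕ) : ℤ) := by
        have h3 : ((p ^ e) • xyE j + ν) (1, i) = ν (1, i) + ((p ^ e : ℕ) : ℤ) *
            (if j = i then 1 else 0) := by
          simp only [Pi.add_apply, smul_ap, xyE]
          by_cases hij : j = i
          · subst hij
            rw [if_pos rfl]
            ring
          · have : ¬ i = j := fun h => hij h.symm
            rw [if_neg this, if_neg hij]
            ring
        rw [h3, Int.add_mul_ediv_left _ _ hq]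
        ring
      rw [h2, Int.cast_add, add_smul, add_comm]
      congr 1
      · rw [mul_smul_comm, ← mo_add, add_sub_assoc]
      · split_ifs with hij
        · subst hij
          rw [Int.cast_one, one_smul]
          congr 1
          abel
        · rw [Int.cast_zero, zero_smul]
    simp only [h1]
    rw [Finset.sum_add_distrib, Finset.sum_mul]
    simp
  have h2 := LinearMap.congr_fun h w
  rw [LinearMap.add_apply, LinearMap.comp_apply, LinearMap.comp_apply, LinearMap.mulLeft_apply,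
    LinearMap.mulLeft_apply, LinearMap.id_apply] at h2
  exact h2

/-- the operators `β_i = g Y_i f^(q-1)` -/
noncomputable def bOp (k : Type*) [Field k] (q : ℕ) (i : Fin 4) :
    Lau k (Fin 2 × Fin 4) →ₗ[k] Lau k (Fin 2 × Fin 4) :=
  gOp k q ∘ₗ yOp k q i ∘ₗ LinearMap.mulLeft k (incF k ^ (q - 1))

theorem bOp_apply (q : ℕ) (i : Fin 4) (w : Lau k (Fin 2 × Fin 4)) :
    bOp k q i w = gOp k q (yOp k q i (incF k ^ (q - 1) * w)) := rfl

theorem bOp_f (p e : ℕ) [Fact p.Prime] [CharP k p] (i : Fin 4) (w : Lau k (Fin 2 × Fin 4)) :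
    bOp k (p ^ e) i (incF k * w) = gOp k (p ^ e) w +
      incF k * (incF k ^ (p ^ e - 1) * gOp k (p ^ e) (yOp k (p ^ e) i w)) := by
  have hq : 0 < p ^ e := pow_pos (Fact.out : p.Prime).pos e
  have h1 : incF k ^ (p ^ e - 1) * (incF k * w) = incF k ^ p ^ e * w := by
    rw [← mul_assoc, ← pow_succ, Nat.sub_add_cancel hq]
  have h2 : incF k * (incF k ^ (p ^ e - 1) * gOp k (p ^ e) (yOp k (p ^ e) i w)) =
      incF k ^ p ^ e * gOp k (p ^ e) (yOp k (p ^ e) i w) := by
    rw [← mul_assoc, mul_comm (incF k), ← pow_succ, Nat.sub_add_cancel hq]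
  rw [bOp_apply, h1, yOp_comm, map_add, h2, (gOp_qlin (k := k) (p ^ e)).frob]
  ring

theorem incF_pol (S : Set (Fin 2 × Fin 4)) : incF k ∈ pol k S :=
  pol_mono (Set.empty_subset S) (noVar_incF (k := k)).1

theorem bOp_pol (q : ℕ) (hq : 3 ≤ q) (i : Fin 4) (S : Set (Fin 2 × Fin 4)) (hi : (0, i) ∈ S)
    {w : Lau k (Fin 2 × Fin 4)} (hw : w ∈ pol k S) : bOp k q i w ∈ pol k S := by
  rw [bOp_apply]
  apply gOp_pol q hq
  apply yOp_pol q (by omega) i S hi
  exact pol_mul (pol_pow (incF_pol S) _) hw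

theorem incF_hom : incF k ∈ hom k (Prod.fst : Fin 2 × Fin 4 → Fin 2) 1 := by
  unfold incF
  apply Submodule.sum_mem
  intro i _
  exact mo_mem (dg_xyE i)

theorem incF_pow_hom (n : ℕ) :
    incF k ^ n ∈ hom k (Prod.fst : Fin 2 × Fin 4 → Fin 2) (n • 1) := by
  induction n with
  | zero =>
    rw [pow_zero, zero_smul, ← mo_zero]
    apply mo_mem
    simp only [Set.mem_ofPred_eq, map_zero]
  | succ n ih =>
    rw [pow_succ, succ_nsmul]
    exact hom_mul ih incF_hom

theorem bOp_hom (q : ℕ) (hq : 0 < q) (i : Fin 4) (d : Fin 2 → ℤ) {w : Lau k (Fin 2 × Fin 4)}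
    (hw : w ∈ hom k Prod.fst d) : bOp k q i w ∈ hom k Prod.fst d := by
  rw [bOp_apply]
  have h1 := gOp_hom q _ (yOp_hom q i _ (hom_mul (incF_pow_hom (k := k) (q - 1)) hw))
  have h2 : (q - 1) • (1 : Fin 2 → ℤ) + d - q • 1 + 1 = d := by
    funext r
    simp only [Pi.add_apply, Pi.sub_apply, smul_ap, Pi.one_apply, mul_one]
    have : ((q - 1 : ℕ) : ℤ) = (q : ℤ) - 1 := by
      rw [Nat.cast_sub hq, Nat.cast_one]
    rw [this]
    ring
  rw [h2] at h1
  exact h1

theorem bOp_qlin (p q : ℕ) (hq : 0 < q) [CharP k p] (i : Fin 4) : QLin (q * p) (bOp k q i) := by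
  unfold bOp
  apply QLin.comp
  · exact (gOp_qlin q).mono
  · apply QLin.comp
    · exact yOp_qlin p q hq i
    · exact QLin.mulLeft _ _

end inc

end Pool.Agent.TH141
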