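import Pool.Agent.TH141.Lau
import Pool.Agent.H824.DaffStmt

/-!
# Operators on Laurent polynomials and differential operators on open sets
-/

namespace Pool.Agent.TH141

open Pool.Agent.H824

/-- the variables that are inverted on the open set `U_S` -/
def varsOn {τ σ : Type*} (vars : τ → Set σ) (S : Set τ) : Set σ := {v | ∃ a ∈ S, v ∈ vars a}

theorem varsOn_mono {τ σ : Type*} (vars : τ → Set σ) {S T : Set τ} (h : S ⊆ T) :
    varsOn vars S ⊆ varsOn vars T := by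
  rintro v ⟨a, ha, hv⟩
  exact ⟨a, h ha, hv⟩

/-- A description of the functions on the open sets `U_S` of a variety by Laurent polynomials modulo
an equation `f`. -/
structure Model {k ι τ σ R : Type*} [Field k] [Fintype σ] [DecidableEq R]
    (V : ProjVariety k ι) (c : τ → ι) (blk : σ → R) where
  /-- the evaluation -/
  ρ : Lau k σ →ₐ[k] V.ConeField
  /-- the equation -/
  f : Lau k σ
  /-- its multidegree -/
  df : R → ℤ
  /-- the variables inverted on `U_a` -/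
  vars : τ → Set σ
  noVar : NoVar f
  f_ne : f ≠ 0
  f_hom : f ∈ hom k blk df
  ρf : ρ f = 0
  base : ∀ a, ∃ b : R → σ, ∀ r, blk (b r) = r ∧ b r ∈ vars a
  full : ∀ v, ∃ a, v ∈ vars a
  reg : ∀ S : Set τ, S.Nonempty → ∀ u : V.ConeField, u ∈ V.regularOn c S ↔
    ∃ w, w ∈ pol k (varsOn vars S) ∧ w ∈ hom k blk 0 ∧ ρ w = u
  ker : ∀ w ∈ hom k blk 0, ρ w = 0 → ∃ z, w = f * z

/-- the functions on the smallest open set -/
noncomputable abbrev RR {k ι τ : Type*} [Field k] (V : ProjVariety k ι) (c : τ → ι) :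
    Subalgebra k V.ConeField := V.regularOn c Set.univ

theorem regularOn_mono {k ι τ : Type*} [Field k] (V : ProjVariety k ι) (c : τ → ι) {S T : Set τ}
    (h : S ⊆ T) : V.regularOn c S ≤ V.regularOn c T := by
  apply Algebra.adjoin_mono
  rintro u ⟨i, a, ha, rfl⟩
  exact ⟨i, a, h ha, rfl⟩

theorem smul_lin {k R : Type*} [Field k] [IsAlgClosed k] [CommRing R] [Algebra k R] {p : ℕ}
    (hp : p.Prime) (δ : R →+ R) (e : ℕ) (hδ : ∀ f g, δ (f ^ p ^ e * g) = f ^ p ^ e * δ g) (c : k)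
    (u : R) : δ (c • u) = c • δ u := by
  obtain ⟨b, hb⟩ := IsAlgClosed.exists_pow_nat_eq c (n := p ^ e) (pow_pos hp.pos e)
  rw [Algebra.smul_def, Algebra.smul_def, ← hb, map_pow, hδ]

section quot

variable {σ R : Type*} [Fintype σ] [DecidableEq R] [DecidableEq σ]

/-- the quotient of an exponent by `q`, with the degrees corrected at the base variables -/
def wq (blk : σ → R) (b : R → σ) (q : ℤ) (ν : σ → ℤ) : σ → ℤ := fun i =>
  ν i / q + if i = b (blk i) then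
    dg blk ν (blk i) / q - dg blk (fun j => ν j / q) (blk i) else 0

theorem dg_wq (blk : σ → R) (b : R → σ) (hb : ∀ r, blk (b r) = r) (q : ℤ) (ν : σ → ℤ) (r : R) :
    dg blk (wq blk b q ν) r = dg blk ν r / q := by
  have h1 : wq blk b q ν = (fun j => ν j / q) + fun i => if i = b (blk i) then
      dg blk ν (blk i) / q - dg blk (fun j => ν j / q) (blk i) else 0 := rfl
  rw [h1, map_add, Pi.add_apply]
  have h2 : dg blk (fun i => if i = b (blk i) then
      dg blk ν (blk i) / q - dg blk (fun j => ν j / q) (blk i) else 0) r =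
      dg blk ν r / q - dg blk (fun j => ν j / q) r := by
    rw [dg_apply, Finset.sum_eq_single (b r)]
    · rw [if_pos (hb r), hb r, if_pos rfl]
    · intro i _ hi
      split_ifs with h3 h4
      · exact absurd (by rw [h4, h3]) hi
      · rfl
      · rfl
    · simp
  rw [h2]
  ring

theorem wq_add (blk : σ → R) (b : R → σ) (q : ℕ) (hq : 0 < q) (w ν : σ → ℤ) :
    wq blk b q (q • w + ν) = w + wq blk b q ν := by
  have hq' : ((q : ℕ) : ℤ) ≠ 0 := by exact_mod_cast hq.ne'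
  have h1 : ∀ j, (q • w + ν) j / (q : ℤ) = w j + ν j / (q : ℤ) := by
    intro j
    rw [Pi.add_apply, smul_ap, add_comm, Int.add_mul_ediv_left _ _ hq', add_comm]
  have h2 : ∀ r, dg blk (q • w + ν) r / (q : ℤ) = dg blk w r + dg blk ν r / (q : ℤ) := by
    intro r
    rw [map_add, map_nsmul, Pi.add_apply, smul_ap, add_comm, Int.add_mul_ediv_left _ _ hq',
      add_comm]
  have h3 : (fun j => (q • w + ν) j / (q : ℤ)) = w + fun j => ν j / (q : ℤ) := by
    funext j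
    exact h1 j
  funext i
  rw [Pi.add_apply]
  unfold wq
  rw [h3, h1, h2, map_add, Pi.add_apply]
  split_ifs
  · ring
  · ring

/-- the remainder -/
def rq (blk : σ → R) (b : R → σ) (q : ℕ) (ν : σ → ℤ) : σ → ℤ := ν - q • wq blk b q ν

theorem rq_add (blk : σ → R) (b : R → σ) (q : ℕ) (hq : 0 < q) (w ν : σ → ℤ) :
    rq blk b q (q • w + ν) = rq blk b q ν := by
  unfold rq
  rw [wq_add blk b q hq, smul_add]
  abel

theorem eq_rq (blk : σ → R) (b : R → σ) (q : ℕ) (ν : σ → ℤ) :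
    ν = q • wq blk b q ν + rq blk b q ν := by
  unfold rq
  abel

theorem dg_rq (blk : σ → R) (b : R → σ) (hb : ∀ r, blk (b r) = r) (q : ℕ) (ν : σ → ℤ)
    (h : ∀ r, (q : ℤ) ∣ dg blk ν r) : dg blk (rq blk b q ν) = 0 := by
  funext r
  unfold rq
  rw [map_sub, map_nsmul, Pi.sub_apply, smul_ap, dg_wq blk b hb, Int.mul_ediv_cancel' (h r),
    sub_self, Pi.zero_apply]

theorem dg_qwq (blk : σ → R) (b : R → σ) (hb : ∀ r, blk (b r) = r) (q : ℕ) (ν : σ → ℤ)
    (h : ∀ r, (q : ℤ) ∣ dg blk ν r) : dg blk (q • wq blk b q ν) = dg blk ν := by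
  funext r
  rw [map_nsmul, smul_ap, dg_wq blk b hb, Int.mul_ediv_cancel' (h r)]

theorem wq_neg {blk : σ → R} {b : R → σ} {q : ℕ} {T : Set σ} (hT : ∀ r, b r ∈ T)
    {ν : σ → ℤ} (hν : ν ∈ NegAt T) : q • wq blk b q ν ∈ NegAt T := by
  intro i hi
  rw [smul_ap] at hi
  by_cases h : i = b (blk i)
  · rw [h]
    exact hT _
  · apply hν
    unfold wq at hi
    rw [if_neg h, add_zero] at hi
    by_contra h2
    have h3 : 0 ≤ ν i / (q : ℤ) := Int.ediv_nonneg (not_lt.mp h2) (Int.natCast_nonneg q)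
    have h4 := mul_nonneg (Int.natCast_nonneg q) h3
    omega

theorem rq_neg {blk : σ → R} {b : R → σ} {q : ℕ} (hq : 0 < q) {T : Set σ} (hT : ∀ r, b r ∈ T)
    (ν : σ → ℤ) : rq blk b q ν ∈ NegAt T := by
  intro i hi
  by_cases h : i = b (blk i)
  · rw [h]
    exact hT _
  · exfalso
    unfold rq wq at hi
    rw [Pi.sub_apply, smul_ap, if_neg h, add_zero] at hi
    have h1 := Int.emod_nonneg (ν i) (show (q : ℤ) ≠ 0 by exact_mod_cast hq.ne')
    have h2 := Int.mul_ediv_add_emod (ν i) q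
    omega

end quot

namespace Model

variable {k ι τ σ R : Type*} [Field k] [Fintype σ] [DecidableEq R] {V : ProjVariety k ι}
  {c : τ → ι} {blk : σ → R} (M : Model V c blk)

/-- the operator `Γ` on Laurent polynomials induces the operator `γ` -/
def Lifts (Γ : Lau k σ →ₗ[k] Lau k σ) (γ : RR V c →+ RR V c) : Prop :=
  ∀ w ∈ hom k blk 0, ∀ u : RR V c, (u : V.ConeField) = M.ρ w →
    (γ u : V.ConeField) = M.ρ (Γ w)

theorem pol_univ (w : Lau k σ) : w ∈ pol k (varsOn M.vars Set.univ) := by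
  intro ν _ v _
  obtain ⟨a, ha⟩ := M.full v
  exact ⟨a, Set.mem_univ a, ha⟩

theorem mem_RR [Nonempty τ] {w : Lau k σ} (hw : w ∈ hom k blk 0) : M.ρ w ∈ RR V c :=
  (M.reg Set.univ Set.univ_nonempty _).mpr ⟨w, M.pol_univ w, hw, rfl⟩

theorem ker' {w : Lau k σ} (hw : w ∈ hom k blk 0) (h : M.ρ w = 0) :
    ∃ z ∈ hom k blk (-M.df), w = M.f * z := by
  obtain ⟨z, hz⟩ := M.ker w hw h
  refine ⟨z, ?_, hz⟩
  apply hom_div M.f_hom M.f_ne
  rw [← hz, add_neg_cancel]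
  exact hw

theorem ρ_mul_f (z : Lau k σ) : M.ρ (M.f * z) = 0 := by
  rw [map_mul, M.ρf, zero_mul]

theorem lifts_sub [Nonempty τ] {Γ Γ' : Lau k σ →ₗ[k] Lau k σ} {γ γ' : RR V c →+ RR V c}
    (h : M.Lifts Γ γ) (h' : M.Lifts Γ' γ') : M.Lifts (Γ - Γ') (γ - γ') := by
  intro w hw u hu
  rw [LinearMap.sub_apply, map_sub, ← h w hw u hu, ← h' w hw u hu, AddMonoidHom.sub_apply]
  rfl

theorem lifts_unique [Nonempty τ] {Γ Γ' : Lau k σ →ₗ[k] Lau k σ} {γ γ' : RR V c →+ RR V c}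
    (h : M.Lifts Γ γ) (h' : M.Lifts Γ' γ') (hd : ∀ w ∈ hom k blk 0, ∃ z, Γ w - Γ' w = M.f * z) :
    γ = γ' := by
  ext u
  obtain ⟨w, _, hw, hwu⟩ := (M.reg Set.univ Set.univ_nonempty _).mp u.2
  rw [h w hw u hwu.symm, h' w hw u hwu.symm]
  obtain ⟨z, hz⟩ := hd w hw
  rw [← sub_eq_zero, ← map_sub, hz, M.ρ_mul_f]

theorem lifts_diff [Nonempty τ] {Γ Γ' : Lau k σ →ₗ[k] Lau k σ} {γ : RR V c →+ RR V c}
    (h : M.Lifts Γ γ) (h' : M.Lifts Γ' γ) (hh : ∀ w ∈ hom k blk 0, Γ w ∈ hom k blk 0)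
    (hh' : ∀ w ∈ hom k blk 0, Γ' w ∈ hom k blk 0) :
    ∀ w ∈ hom k blk 0, ∃ z ∈ hom k blk (-M.df), Γ w - Γ' w = M.f * z := by
  intro w hw
  apply M.ker'
  · exact Submodule.sub_mem _ (hh w hw) (hh' w hw)
  · rw [map_sub, ← h w hw ⟨_, M.mem_RR hw⟩ rfl, ← h' w hw ⟨_, M.mem_RR hw⟩ rfl, sub_self]

theorem hom_zero_pow {w : Lau k σ} (hw : w ∈ hom k blk 0) (n : ℕ) : w ^ n ∈ hom k blk 0 := by
  induction n with
  | zero =>
    rw [pow_zero, ← mo_zero]
    apply mo_mem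
    simp only [Set.mem_ofPred_eq, map_zero]
  | succ n ih =>
    rw [pow_succ]
    have := hom_mul ih hw
    rwa [add_zero] at this

/-- an operator that preserves the multiples of the equation induces an operator -/
theorem descend [Nonempty τ] {p e : ℕ} [Fact p.Prime] [CharP k p] {Γ : Lau k σ →ₗ[k] Lau k σ}
    (hq : QLin (p ^ e) Γ) (hh : ∀ w ∈ hom k blk 0, Γ w ∈ hom k blk 0)
    (hf : ∀ z ∈ hom k blk (-M.df), ∃ z', Γ (M.f * z) = M.f * z') :
    ∃ γ : RR V c →+ RR V c, M.Lifts Γ γ ∧ (∀ x y, γ (x ^ p ^ e * y) = x ^ p ^ e * γ y) ∧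
      ∀ S : Set τ, S.Nonempty →
        (∀ w ∈ pol k (varsOn M.vars S), w ∈ hom k blk 0 → Γ w ∈ pol k (varsOn M.vars S)) →
        ∀ u : RR V c, (u : V.ConeField) ∈ V.regularOn c S →
          (γ u : V.ConeField) ∈ V.regularOn c S := by
  have hrep : ∀ u : RR V c, ∃ w ∈ hom k blk 0, M.ρ w = (u : V.ConeField) := by
    intro u
    obtain ⟨w, _, hw, hwu⟩ := (M.reg Set.univ Set.univ_nonempty _).mp u.2
    exact ⟨w, hw, hwu⟩
  choose W hW hWu using hrep
  have key : ∀ w w' : Lau k σ, w ∈ hom k blk 0 → w' ∈ hom k blk 0 → M.ρ w = M.ρ w' →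
      M.ρ (Γ w) = M.ρ (Γ w') := by
    intro w w' hw hw' h
    obtain ⟨z, hz, hz'⟩ := M.ker' (Submodule.sub_mem _ hw hw') (by rw [map_sub, h, sub_self])
    obtain ⟨z2, hz2⟩ := hf z hz
    have h1 : Γ w - Γ w' = M.f * z2 := by rw [← map_sub, hz', hz2]
    rw [← sub_eq_zero, ← map_sub, h1, M.ρ_mul_f]
  let γ : RR V c →+ RR V c := AddMonoidHom.mk' (fun u => ⟨M.ρ (Γ (W u)), M.mem_RR (hh _ (hW u))⟩)
    (by
      intro u v
      apply Subtype.ext
      change M.ρ (Γ (W (u + v))) = M.ρ (Γ (W u)) + M.ρ (Γ (W v))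
      rw [← map_add, ← map_add]
      apply key _ _ (hW _) (Submodule.add_mem _ (hW u) (hW v))
      rw [map_add, hWu, hWu, hWu]
      rfl)
  have hγ : ∀ u, (γ u : V.ConeField) = M.ρ (Γ (W u)) := fun u => rfl
  have hL : M.Lifts Γ γ := by
    intro w hw u hu
    rw [hγ]
    exact key _ _ (hW u) hw (by rw [hWu, hu])
  refine ⟨γ, hL, ?_, ?_⟩
  · intro x y
    apply Subtype.ext
    have h1 : ((x ^ p ^ e * y : RR V c) : V.ConeField) = M.ρ (W x ^ p ^ e * W y) := by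
      rw [map_mul, map_pow, hWu, hWu]
      rfl
    have h2 : W x ^ p ^ e * W y ∈ hom k blk 0 := by
      have := hom_mul (hom_zero_pow (hW x) (p ^ e)) (hW y)
      rwa [add_zero] at this
    rw [hL _ h2 _ h1, hq.frob, map_mul, map_pow, hWu]
    rfl
  · intro S hS hpres u hu
    obtain ⟨w, hwp, hw, hwu⟩ := (M.reg S hS _).mp hu
    rw [hL w hw u hwu.symm]
    exact (M.reg S hS _).mpr ⟨Γ w, hpres w hwp hw, hh w hw, rfl⟩

/-- every differential operator lifts -/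
theorem lift [Nonempty τ] [IsAlgClosed k] {p e : ℕ} [Fact p.Prime] [CharP k p] (S : Set τ)
    (hS : S.Nonempty)
    (γ : RR V c →+ RR V c) (hγ : ∀ x y, γ (x ^ p ^ e * y) = x ^ p ^ e * γ y)
    (hpres : ∀ u : RR V c, (u : V.ConeField) ∈ V.regularOn c S →
      (γ u : V.ConeField) ∈ V.regularOn c S) :
    ∃ Γ : Lau k σ →ₗ[k] Lau k σ, QLin (p ^ e) Γ ∧
      (∀ T, varsOn M.vars S ⊆ T → ∀ w ∈ pol k T, Γ w ∈ pol k T) ∧
      (∀ d, ∀ w ∈ hom k blk d, Γ w ∈ hom k blk d) ∧ M.Lifts Γ γ := by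
  classical
  obtain ⟨a, ha⟩ := hS
  obtain ⟨b, hb⟩ := M.base a
  have hb1 : ∀ r, blk (b r) = r := fun r => (hb r).1
  have hbS : ∀ r, b r ∈ varsOn M.vars S := fun r => ⟨a, ha, (hb r).2⟩
  have hp : p.Prime := Fact.out
  have hq : 0 < p ^ e := pow_pos hp.pos e
  have hex : ∀ r : σ → ℤ, ∃ l : Lau k σ, r ∈ NegAt (varsOn M.vars S) → dg blk r = 0 →
      l ∈ pol k (varsOn M.vars S) ∧ l ∈ hom k blk 0 ∧
      ∀ u : RR V c, (u : V.ConeField) = M.ρ (mo k r) → (γ u : V.ConeField) = M.ρ l := by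
    intro r
    by_cases h : r ∈ NegAt (varsOn M.vars S) ∧ dg blk r = 0
    · have h1 : M.ρ (mo k r) ∈ V.regularOn c S :=
        (M.reg S ⟨a, ha⟩ _).mpr ⟨mo k r, mo_mem h.1, mo_mem h.2, rfl⟩
      have h2 := hpres ⟨M.ρ (mo k r), regularOn_mono V c (Set.subset_univ S) h1⟩ h1
      obtain ⟨l, hl1, hl2, hl3⟩ := (M.reg S ⟨a, ha⟩ _).mp h2
      refine ⟨l, fun _ _ => ⟨hl1, hl2, ?_⟩⟩
      intro u hu
      rw [hl3]
      congr 2
      exact Subtype.ext hu
    · exact ⟨0, fun h1 h2 => absurd ⟨h1, h2⟩ h⟩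
  choose l hl using hex
  let Γ : Lau k σ →ₗ[k] Lau k σ := ofMo (fun ν =>
    if ∀ r, ((p ^ e : ℕ) : ℤ) ∣ dg blk ν r then
      mo k ((p ^ e) • wq blk b ((p ^ e : ℕ) : ℤ) ν) * l (rq blk b (p ^ e) ν) else 0)
  have hΓ : ∀ ν, Γ (mo k ν) = if ∀ r, ((p ^ e : ℕ) : ℤ) ∣ dg blk ν r then
      mo k ((p ^ e) • wq blk b ((p ^ e : ℕ) : ℤ) ν) * l (rq blk b (p ^ e) ν) else 0 :=
    fun ν => ofMo_mo _ ν
  have hl' : ∀ ν, (∀ r, ((p ^ e : ℕ) : ℤ) ∣ dg blk ν r) →
      l (rq blk b (p ^ e) ν) ∈ pol k (varsOn M.vars S) ∧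
      l (rq blk b (p ^ e) ν) ∈ hom k blk 0 ∧
      ∀ u : RR V c, (u : V.ConeField) = M.ρ (mo k (rq blk b (p ^ e) ν)) →
        (γ u : V.ConeField) = M.ρ (l (rq blk b (p ^ e) ν)) :=
    fun ν h => hl _ (rq_neg hq hbS ν) (dg_rq blk b hb1 (p ^ e) ν h)
  refine ⟨Γ, ?_, ?_, ?_, ?_⟩
  · apply QLin.of_mo
    intro w ν
    rw [hΓ, hΓ, wq_add blk b (p ^ e) hq, rq_add blk b (p ^ e) hq]
    have h : (∀ r, ((p ^ e : ℕ) : ℤ) ∣ dg blk ((p ^ e) • w + ν) r) ↔
        (∀ r, ((p ^ e : ℕ) : ℤ) ∣ dg blk ν r) := by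
      apply forall_congr'
      intro r
      rw [map_add, map_nsmul, Pi.add_apply, smul_ap]
      exact (Int.dvd_add_right (Dvd.intro _ rfl))
    simp only [h]
    split_ifs
    · rw [smul_add, mo_add, mul_assoc]
    · rw [mul_zero]
  · intro T hT w hw
    refine map_supp (pol k T) Γ ?_ hw
    intro ν hν
    rw [hΓ]
    split_ifs with h
    · apply pol_mul
      · exact mo_mem (wq_neg (fun r => hT (hbS r)) hν)
      · exact pol_mono hT (hl' ν h).1
    · exact zero_mem _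
  · intro d w hw
    refine map_supp (hom k blk d) Γ ?_ hw
    intro ν hν
    rw [hΓ]
    split_ifs with h
    · have h1 : mo k ((p ^ e) • wq blk b ((p ^ e : ℕ) : ℤ) ν) ∈ hom k blk d := by
        apply mo_mem
        simp only [Set.mem_ofPred_eq] at hν ⊢
        rw [← hν]
        exact dg_qwq blk b hb1 (p ^ e) ν h
      have h2 := hom_mul h1 (hl' ν h).2.1
      rwa [add_zero] at h2
    · exact zero_mem _
  · have hlin := smul_lin (k := k) hp γ e hγ
    have main : ∀ w ∈ hom k blk 0, ∃ u : RR V c, (u : V.ConeField) = M.ρ w ∧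
        (γ u : V.ConeField) = M.ρ (Γ w) := by
      intro w hw
      refine supp_induction (P := fun w => ∃ u : RR V c, (u : V.ConeField) = M.ρ w ∧
        (γ u : V.ConeField) = M.ρ (Γ w)) ?_ ?_ ?_ ?_ hw
      · refine ⟨0, ?_, ?_⟩
        · rw [map_zero]
          rfl
        · rw [map_zero, map_zero, map_zero]
          rfl
      · rintro x y ⟨u, h1, h2⟩ ⟨v, h3, h4⟩
        refine ⟨u + v, ?_, ?_⟩
        · rw [map_add, ← h1, ← h3]
          rfl
        · rw [map_add, map_add, map_add, ← h2, ← h4]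
          rfl
      · rintro a x ⟨u, h1, h2⟩
        refine ⟨a • u, ?_, ?_⟩
        · rw [map_smul, ← h1]
          rfl
        · rw [hlin, map_smul, map_smul, ← h2]
          rfl
      · intro ν hν
        have hν' : dg blk ν = 0 := hν
        have h : ∀ r, ((p ^ e : ℕ) : ℤ) ∣ dg blk ν r := by
          intro r
          rw [hν', Pi.zero_apply]
          exact dvd_zero _
        have hw0 : dg blk (wq blk b ((p ^ e : ℕ) : ℤ) ν) = 0 := by
          funext r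
          rw [dg_wq blk b hb1, hν', Pi.zero_apply, Int.zero_ediv]
        have h1 : mo k (wq blk b ((p ^ e : ℕ) : ℤ) ν) ∈ hom k blk 0 := mo_mem hw0
        have h2 : mo k (rq blk b (p ^ e) ν) ∈ hom k blk 0 := mo_mem (dg_rq blk b hb1 (p ^ e) ν h)
        refine ⟨(⟨_, M.mem_RR h1⟩ : RR V c) ^ p ^ e * ⟨_, M.mem_RR h2⟩, ?_, ?_⟩
        · change M.ρ _ ^ p ^ e * M.ρ _ = _
          rw [← map_pow, ← map_mul, ← mo_nsmul, ← mo_add, ← eq_rq]
        · rw [hγ, hΓ, if_pos h, map_mul, mo_nsmul, map_pow]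
          have h3 := (hl' ν h).2.2 ⟨_, M.mem_RR h2⟩ rfl
          rw [← h3]
          rfl
    intro w hw u hu
    obtain ⟨v, hv1, hv2⟩ := main w hw
    rw [← hv2]
    congr 2
    exact Subtype.ext (hu.trans hv1.symm)

end Model

end Pool.Agent.TH141
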