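import Pool.Agent.TH141.Eval
import Pool.Agent.TH141.Model
import Pool.Agent.TH141.IncB

/-!
# The incidence variety in the Segre embedding
-/

namespace Pool.Agent.TH141

open MvPolynomial Pool.Agent.H824

section

variable (k : Type*) [Field k]

/-- the equation `∑ x_i y_i` -/
noncomputable def incForm : MvPolynomial (Fin 2 × Fin 4) k := ∑ i, X (0, i) * X (1, i)

/-- the substitution `z_(i,j) = x_i y_j` -/
noncomputable def phi : MvPolynomial (Fin 4 × Fin 4) k →ₐ[k] MvPolynomial (Fin 2 × Fin 4) k :=
  aeval (fun a => X (0, a.1) * X (1, a.2))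

/-- the renaming of the variables -/
def eqv : Fin 4 ⊕ Fin 4 ≃ Fin 2 × Fin 4 where
  toFun := Sum.elim (fun i => (0, i)) (fun i => (1, i))
  invFun := fun a => if a.1 = 0 then Sum.inl a.2 else Sum.inr a.2
  left_inv := by
    rintro (i | i) <;> simp
  right_inv := by
    rintro ⟨a, b⟩
    fin_cases a <;> simp

theorem incForm_irreducible : Irreducible (incForm k) := by
  let c : Fin 4 →₀ k := Finsupp.equivFunOnFinite.symm (fun _ => 1)
  have hc : ∀ i, c i = 1 := fun _ => rfl
  have h1 : Irreducible (sumSMulXSMulY c) := by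
    apply irreducible_sumSMulXSMulY
    · refine ⟨0, ?_, 1, ?_, by decide⟩ <;> simp [hc]
    · intro r hr
      have := hr 0
      rw [hc] at this
      exact isUnit_of_dvd_one this
  have h2 : renameEquiv k eqv (sumSMulXSMulY c) = incForm k := by
    unfold sumSMulXSMulY incForm
    rw [Finsupp.linearCombination_apply, Finsupp.sum_fintype _ _ (by simp), map_sum]
    apply Finset.sum_congr rfl
    intro i _
    rw [hc, one_smul, map_mul]
    simp [eqv]
  rw [← h2]
  exact (MulEquiv.irreducible_iff (renameEquiv k eqv)).mpr h1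

theorem incForm_prime : (Ideal.span {incForm k}).IsPrime :=
  (Ideal.span_singleton_prime (incForm_irreducible k).ne_zero).mpr (incForm_irreducible k).prime

variable {k}

theorem eval_phi (w : Fin 2 × Fin 4 → k) (F : MvPolynomial (Fin 4 × Fin 4) k) :
    eval w (phi k F) = eval (fun a => w (0, a.1) * w (1, a.2)) F := by
  unfold phi
  have h : (aeval w : MvPolynomial (Fin 2 × Fin 4) k →ₐ[k] k).comp
      (aeval (fun a : Fin 4 × Fin 4 => X (0, a.1) * X (1, a.2))) =
      aeval (fun a => w (0, a.1) * w (1, a.2)) := by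
    apply MvPolynomial.algHom_ext
    intro a
    rw [AlgHom.comp_apply, aeval_X, map_mul, aeval_X, aeval_X, aeval_X]
  have h2 := DFunLike.congr_fun h F
  exact h2

theorem eval_incForm (w : Fin 2 × Fin 4 → k) :
    eval w (incForm k) = ∑ i, w (0, i) * w (1, i) := by
  unfold incForm
  rw [map_sum]
  simp

theorem phi_mem_iff [IsAlgClosed k] (F : MvPolynomial (Fin 4 × Fin 4) k) :
    phi k F ∈ Ideal.span {incForm k} ↔
      ∀ x y : Fin 4 → k, ∑ i, x i * y i = 0 → eval (fun a => x a.1 * y a.2) F = 0 := by
  have hp := incForm_prime k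
  have h1 : vanishingIdeal k (zeroLocus k (Ideal.span {incForm k})) = Ideal.span {incForm k} :=
    IsPrime.vanishingIdeal_zeroLocus _
  rw [← h1, mem_vanishingIdeal_iff]
  constructor
  · intro h x y hxy
    have h2 := h (fun v => if v.1 = 0 then x v.2 else y v.2) (by
      rw [mem_zeroLocus_iff]
      intro P hP
      obtain ⟨Q, rfl⟩ := Ideal.mem_span_singleton.mp hP
      rw [map_mul]
      have h3 : aeval (fun v : Fin 2 × Fin 4 => if v.1 = 0 then x v.2 else y v.2)
          (incForm k) = 0 := by
        change eval _ (incForm k) = 0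
        rw [eval_incForm]
        simpa using hxy
      rw [h3, zero_mul])
    change eval _ (phi k F) = 0 at h2
    rw [eval_phi] at h2
    simpa using h2
  · intro h w hw
    change eval w (phi k F) = 0
    rw [eval_phi]
    refine h (fun i => w (0, i)) (fun i => w (1, i)) ?_
    rw [mem_zeroLocus_iff] at hw
    have h2 := hw (incForm k) (Ideal.subset_span rfl)
    change eval w (incForm k) = 0 at h2
    rwa [eval_incForm] at h2

/-- The incidence variety `{(x, H) : x ∈ H}` in `ℙ³ × ℙ³`, in the Segre embedding. -/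
noncomputable def incVar (k : Type*) [Field k] [IsAlgClosed k] : ProjVariety k (Fin 4 × Fin 4) where
  ideal := (Ideal.span {incForm k}).comap (phi k)
  prime := (incForm_prime k).comap (phi k)
  homogeneous := by
    intro F hF d
    rw [Ideal.mem_comap] at hF ⊢
    rw [phi_mem_iff] at hF ⊢
    intro x y hxy
    apply homog_of_points
    intro t
    have h1 := hF (fun i => t * x i) y (by
      simp only [mul_assoc]
      rw [← Finset.mul_sum, hxy, mul_zero])
    simpa only [mul_assoc] using h1
  relevant := by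
    refine ⟨(0, 1), ?_⟩
    rw [Ideal.mem_comap, phi_mem_iff]
    intro h
    have h1 := h (Pi.single 0 1) (Pi.single 1 1) (by
      apply Finset.sum_eq_zero
      intro i _
      rcases eq_or_ne i 0 with rfl | hi
      · rw [Pi.single_eq_of_ne (show (0 : Fin 4) ≠ 1 by decide), mul_zero]
      · rw [Pi.single_eq_of_ne hi, zero_mul])
    rw [eval_X] at h1
    simp at h1

variable [IsAlgClosed k]

theorem mem_incVar (F : MvPolynomial (Fin 4 × Fin 4) k) :
    F ∈ (incVar k).ideal ↔
      ∀ x y : Fin 4 → k, ∑ i, x i * y i = 0 → eval (fun a => x a.1 * y a.2) F = 0 :=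
  phi_mem_iff F

/-- the coordinates -/
noncomputable def zz (k : Type*) [Field k] [IsAlgClosed k] (a : Fin 4 × Fin 4) :
    (incVar k).ConeField := (incVar k).el (X a)

theorem zz_ne (a : Fin 4 × Fin 4) : zz k a ≠ 0 := by
  classical
  unfold zz
  rw [Ne, elH_eq_zero, mem_incVar]
  intro h
  obtain ⟨i, j⟩ := a
  by_cases hij : i = j
  · subst hij
    obtain ⟨l, hl⟩ : ∃ l : Fin 4, l ≠ i := exists_ne i
    have h1 := h (Pi.single i 1 + Pi.single l 1) (Pi.single i 1 - Pi.single l 1) (by
      have h2 : ∀ t, (Pi.single i (1 : k) + Pi.single l 1 : Fin 4 → k) t *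
          (Pi.single i (1 : k) - Pi.single l 1 : Fin 4 → k) t =
          (Pi.single i (1 : k) : Fin 4 → k) t - (Pi.single l (1 : k) : Fin 4 → k) t := by
        intro t
        simp only [Pi.add_apply, Pi.sub_apply, Pi.single_apply]
        by_cases h3 : t = i
        · subst h3
          rw [if_pos rfl, if_neg hl.symm]
          ring
        · rw [if_neg h3]
          split_ifs <;> ring
      simp only [h2, Finset.sum_sub_distrib]
      simp)
    rw [eval_X] at h1
    simp [hl.symm] at h1
  · have h1 := h (Pi.single i 1) (Pi.single j 1) (by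
      apply Finset.sum_eq_zero
      intro t _
      rcases eq_or_ne t i with rfl | ht
      · rw [Pi.single_eq_of_ne hij, mul_zero]
      · rw [Pi.single_eq_of_ne ht, zero_mul])
    rw [eval_X] at h1
    simp at h1

theorem zz_mul (i j l m : Fin 4) : zz k (i, j) * zz k (l, m) = zz k (i, m) * zz k (l, j) := by
  have h : (X (i, j) * X (l, m) - X (i, m) * X (l, j) : MvPolynomial (Fin 4 × Fin 4) k) ∈
      (incVar k).ideal := by
    rw [mem_incVar]
    intro x y _
    simp only [map_sub, map_mul, eval_X]
    ring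
  rw [← elH_eq_zero, ← elH_apply, map_sub, map_mul, map_mul, sub_eq_zero] at h
  exact h

theorem zz_sum : ∑ i, zz k (i, i) = 0 := by
  have h : (∑ i, X (i, i) : MvPolynomial (Fin 4 × Fin 4) k) ∈ (incVar k).ideal := by
    rw [mem_incVar]
    intro x y hxy
    rw [map_sum]
    simpa using hxy
  rw [← elH_eq_zero, ← elH_apply, map_sum] at h
  exact h

/-- the affine coordinates `x_i`, `y_j` -/
noncomputable def xx (k : Type*) [Field k] [IsAlgClosed k] (v : Fin 2 × Fin 4) :
    (incVar k).ConeField :=
  if v.1 = 0 then zz k (v.2, 0) / zz k (0, 0) else zz k (0, v.2) / zz k (0, 0)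

theorem xx_ne (v : Fin 2 × Fin 4) : xx k v ≠ 0 := by
  unfold xx
  split_ifs
  · exact div_ne_zero (zz_ne _) (zz_ne _)
  · exact div_ne_zero (zz_ne _) (zz_ne _)

theorem xx_mul (i j : Fin 4) : xx k (0, i) * xx k (1, j) = zz k (i, j) / zz k (0, 0) := by
  have h0 : zz k (0, 0) ≠ 0 := zz_ne _
  have h1 := zz_mul (k := k) i 0 0 j
  unfold xx
  simp only [if_true, if_neg (show ¬ (1 : Fin 2) = 0 by decide)]
  rw [div_mul_div_comm, h1, mul_div_mul_right _ _ h0]

/-- the evaluation of Laurent polynomials -/
noncomputable def rhoI (k : Type*) [Field k] [IsAlgClosed k] :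
    Lau k (Fin 2 × Fin 4) →ₐ[k] (incVar k).ConeField := evalL (xx k) xx_ne

theorem rhoI_mo (ν : Fin 2 × Fin 4 → ℤ) :
    rhoI k (mo k ν) = (∏ i, xx k (0, i) ^ ν (0, i)) * ∏ j, xx k (1, j) ^ ν (1, j) := by
  unfold rhoI
  rw [evalL_mo, Fintype.prod_prod_type, Fin.prod_univ_two]

/-- every bihomogeneous monomial of bidegree `(d, d)` comes from a monomial of degree `d` -/
theorem exists_pre (d : ℕ) (ν : Fin 2 × Fin 4 → ℤ) (h0 : ∀ v, 0 ≤ ν v)
    (hd : ∀ r, ∑ i, ν (r, i) = d) :
    ∃ G : MvPolynomial (Fin 4 × Fin 4) k, toL k _ (phi k G) = mo k ν ∧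
      (incVar k).el G = zz k (0, 0) ^ d * rhoI k (mo k ν) := by
  classical
  induction d generalizing ν with
  | zero =>
    have hν : ν = 0 := by
      funext ⟨r, i⟩
      have h1 := hd r
      have h2 : ∀ j ∈ Finset.univ, 0 ≤ ν (r, j) := fun j _ => h0 _
      have h3 := (Finset.sum_eq_zero_iff_of_nonneg h2).mp (by simpa using h1) i
        (Finset.mem_univ i)
      simpa using h3
    refine ⟨1, ?_, ?_⟩
    · rw [map_one, map_one, hν, mo_zero]
    · rw [← elH_apply, map_one, hν, mo_zero, map_one, pow_zero, one_mul]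
  | succ d ih =>
    have hex : ∀ r, ∃ i, 1 ≤ ν (r, i) := by
      intro r
      by_contra hcon
      push Not at hcon
      have h1 := hd r
      have h2 : ∑ i, ν (r, i) ≤ 0 := Finset.sum_nonpos (fun i _ => by
        have := hcon i
        omega)
      push_cast at h1
      omega
    obtain ⟨i, hi⟩ := hex 0
    obtain ⟨j, hj⟩ := hex 1
    let μ : Fin 2 × Fin 4 → ℤ := Pi.single (0, i) 1 + Pi.single (1, j) 1
    have hμ0 : μ (0, i) = 1 := by
      simp [μ]
    have hμ1 : μ (1, j) = 1 := by
      simp [μ]
    have hμ : ∀ v, v ≠ (0, i) → v ≠ (1, j) → μ v = 0 := by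
      intro v h1 h2
      simp [μ, h1, h2]
    obtain ⟨G, hG1, hG2⟩ := ih (ν - μ) (by
      intro v
      rw [Pi.sub_apply]
      by_cases h1 : v = (0, i)
      · rw [h1, hμ0]
        omega
      · by_cases h2 : v = (1, j)
        · rw [h2, hμ1]
          omega
        · rw [hμ v h1 h2]
          have := h0 v
          omega) (by
      intro r
      simp only [Pi.sub_apply, Finset.sum_sub_distrib, hd r]
      have h3 : ∑ t, μ (r, t) = 1 := by
        simp only [μ, Pi.add_apply, Finset.sum_add_distrib, Pi.single_apply, Prod.mk.injEq]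
        fin_cases r <;> simp
      rw [h3]
      push_cast
      ring)
    refine ⟨X (i, j) * G, ?_, ?_⟩
    · have h1 : toL k _ (phi k (X (i, j))) = mo k μ := by
        unfold phi toL
        rw [aeval_X, map_mul, aeval_X, aeval_X, ← mo_add]
      rw [map_mul, map_mul, hG1, h1, ← mo_add, add_sub_cancel]
    · have h1 : rhoI k (mo k μ) = xx k (0, i) * xx k (1, j) := by
        have h2 : ∀ v, rhoI k (mo k (Pi.single v 1)) = xx k v := by
          intro v
          unfold rhoI
          rw [evalL_mo, Finset.prod_eq_single v]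
          · rw [Pi.single_eq_same, zpow_one]
          · intro b _ hb
            rw [Pi.single_eq_of_ne hb, zpow_zero]
          · simp
        change rhoI k (mo k (Pi.single (0, i) 1 + Pi.single (1, j) 1)) = _
        rw [mo_add, map_mul, h2, h2]
      have h3 : mo k ν = mo k μ * mo k (ν - μ) := by
        rw [← mo_add, add_sub_cancel]
      have h4 : (incVar k).el (X (i, j)) = zz k (0, 0) * rhoI k (mo k μ) := by
        rw [h1, xx_mul, mul_div_cancel₀ _ (zz_ne _)]
        rfl
      rw [← elH_apply, map_mul, elH_apply, elH_apply, hG2, h3, map_mul, h4]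
      ring

end

end Pool.Agent.TH141
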