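import Pool.Agent.TH141.IncC

/-!
# The functions on the open sets of the incidence variety
-/

namespace Pool.Agent.TH141

open MvPolynomial Pool.Agent.H824

section

variable {k : Type*} [Field k] [IsAlgClosed k]

theorem toL_incForm : toL k (Fin 2 × Fin 4) (incForm k) = incF k := by
  unfold incForm incF toL
  rw [map_sum]
  apply Finset.sum_congr rfl
  intro i _
  rw [map_mul, aeval_X, aeval_X, ← mo_add]
  congr 1
  funext ⟨a, b⟩
  unfold xyE
  simp only [Pi.add_apply, Pi.single_apply, Prod.mk.injEq]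
  fin_cases a <;> simp

theorem rhoI_f : rhoI k (incF k) = 0 := by
  unfold incF
  rw [map_sum]
  have h1 : ∀ i, rhoI k (mo k (xyE i)) = zz k (i, i) / zz k (0, 0) := by
    intro i
    rw [rhoI_mo, ← xx_mul]
    unfold xyE
    congr 1
    · rw [Finset.prod_eq_single i]
      · simp
      · intro b _ hb
        simp [hb]
      · simp
    · rw [Finset.prod_eq_single i]
      · simp
      · intro b _ hb
        simp [hb]
      · simp
  simp only [h1]
  rw [← Finset.sum_div, zz_sum, zero_div]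

/-- a bihomogeneous polynomial of bidegree `(d, d)` comes from a form -/
theorem exists_pre' (d : ℕ) (w : Lau k (Fin 2 × Fin 4)) (h0 : w ∈ pol k (∅ : Set (Fin 2 × Fin 4)))
    (hd : w ∈ hom k Prod.fst (fun _ => (d : ℤ))) :
    ∃ G : MvPolynomial (Fin 4 × Fin 4) k, toL k _ (phi k G) = w ∧
      (incVar k).el G = zz k (0, 0) ^ d * rhoI k w := by
  have h : w ∈ supp k ((NegAt (∅ : Set (Fin 2 × Fin 4))) ∩
      {ν | dg (Prod.fst : Fin 2 × Fin 4 → Fin 2) ν = fun _ => (d : ℤ)}) :=
    supp_inter.mpr ⟨h0, hd⟩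
  refine supp_induction (P := fun w => ∃ G : MvPolynomial (Fin 4 × Fin 4) k,
    toL k _ (phi k G) = w ∧ (incVar k).el G = zz k (0, 0) ^ d * rhoI k w) ?_ ?_ ?_ ?_ h
  · refine ⟨0, ?_, ?_⟩
    · rw [map_zero, map_zero]
    · rw [← elH_apply, map_zero, map_zero, mul_zero]
  · rintro x y ⟨F, hF1, hF2⟩ ⟨G, hG1, hG2⟩
    refine ⟨F + G, ?_, ?_⟩
    · rw [map_add, map_add, hF1, hG1]
    · rw [← elH_apply, map_add, elH_apply, elH_apply, hF2, hG2, map_add, mul_add]
  · rintro c x ⟨F, hF1, hF2⟩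
    refine ⟨c • F, ?_, ?_⟩
    · rw [map_smul, map_smul, hF1]
    · rw [← elH_apply, map_smul, elH_apply, hF2, map_smul, mul_smul_comm]
  · rintro ν ⟨h1, h2⟩
    apply exists_pre d ν
    · intro v
      by_contra hv
      exact h1 v (not_le.mp hv)
    · intro r
      have h3 := congrFun h2 r
      rw [dg_apply, Fintype.sum_prod_type] at h3
      rw [← h3, Finset.sum_eq_single r]
      · simp
      · intro b _ hb
        simp [hb]
      · simp

theorem rhoI_ker (w : Lau k (Fin 2 × Fin 4)) (hw : w ∈ hom k (Prod.fst : Fin 2 × Fin 4 → Fin 2) 0)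
    (h : rhoI k w = 0) : ∃ z, w = incF k * z := by
  obtain ⟨N, hN⟩ := exists_clear w
  have h1 : mo k (fun _ : Fin 2 × Fin 4 => (N : ℤ)) ∈
      hom k (Prod.fst : Fin 2 × Fin 4 → Fin 2) (fun _ => ((4 * N : ℕ) : ℤ)) := by
    apply mo_mem
    simp only [Set.mem_ofPred_eq]
    funext r
    rw [dg_apply, Fintype.sum_prod_type, Finset.sum_eq_single r]
    · simp
    · intro b _ hb
      simp [hb]
    · simp
  have h2 : mo k (fun _ : Fin 2 × Fin 4 => (N : ℤ)) * w ∈
      hom k (Prod.fst : Fin 2 × Fin 4 → Fin 2) (fun _ => ((4 * N : ℕ) : ℤ)) := by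
    have := hom_mul h1 hw
    rwa [add_zero] at this
  obtain ⟨G, hG1, hG2⟩ := exists_pre' (4 * N) _ hN h2
  rw [map_mul, h, mul_zero, mul_zero, elH_eq_zero] at hG2
  have hG3 : phi k G ∈ Ideal.span {incForm k} := hG2
  obtain ⟨H, hH⟩ := Ideal.mem_span_singleton.mp hG3
  refine ⟨mo k (-(fun _ : Fin 2 × Fin 4 => (N : ℤ))) * toL k _ H, ?_⟩
  rw [← mo_mul_neg (fun _ : Fin 2 × Fin 4 => (N : ℤ)) w, ← hG1, hH, map_mul, toL_incForm]
  ring

/-- the variables inverted where `z_(i,j)` does not vanish -/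
def varI (a : Fin 4 × Fin 4) : Set (Fin 2 × Fin 4) := {(0, a.1), (1, a.2)}

theorem ratio_mem (S : Set (Fin 4 × Fin 4)) (i j : Fin 4) (a : Fin 4 × Fin 4) (ha : a ∈ S) :
    zz k (i, j) / zz k a ∈ (incVar k).regularOn id S :=
  Algebra.subset_adjoin ⟨(i, j), a, ha, rfl⟩

theorem zpow_mem' {K : Type*} [Field K] [Algebra k K] (A : Subalgebra k K) (u : K) (n : ℤ)
    (h1 : 0 ≤ n → u ∈ A) (h2 : n < 0 → u⁻¹ ∈ A) : u ^ n ∈ A := by
  rcases le_or_gt 0 n with h | h
  · obtain ⟨m, hm⟩ := Int.eq_ofNat_of_zero_le h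
    rw [hm, zpow_natCast]
    exact pow_mem (h1 h) m
  · obtain ⟨m, hm⟩ := Int.eq_ofNat_of_zero_le (a := -n) (by omega)
    have h3 : n = -(m : ℤ) := by omega
    rw [h3, zpow_neg, zpow_natCast, ← inv_pow]
    exact pow_mem (h2 h) m

theorem prod_zpow_const {K I : Type*} [Field K] (x : K) (hx : x ≠ 0) (s : Finset I) (v : I → ℤ) :
    ∏ a ∈ s, x ^ v a = x ^ (∑ a ∈ s, v a) := by
  classical
  induction s using Finset.induction_on with
  | empty => simp
  | insert a s ha ih => rw [Finset.prod_insert ha, Finset.sum_insert ha, ih, zpow_add₀ hx]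

theorem xx_ratio0 (i l m : Fin 4) : xx k (0, i) / xx k (0, l) = zz k (i, m) / zz k (l, m) := by
  have h0 : zz k (0, 0) ≠ 0 := zz_ne _
  have h1 := zz_mul (k := k) i 0 l m
  unfold xx
  simp only [if_true]
  rw [div_div_div_cancel_right₀ h0, div_eq_div_iff (zz_ne _) (zz_ne _), h1]

theorem xx_ratio1 (j l m : Fin 4) : xx k (1, j) / xx k (1, l) = zz k (m, j) / zz k (m, l) := by
  have h0 : zz k (0, 0) ≠ 0 := zz_ne _
  have h1 := zz_mul (k := k) 0 j m l
  unfold xx
  simp only [if_neg (show ¬ (1 : Fin 2) = 0 by decide)]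
  rw [div_div_div_cancel_right₀ h0, div_eq_div_iff (zz_ne _) (zz_ne _), h1]
  ring

theorem rhoI_mem (S : Set (Fin 4 × Fin 4)) (hS : S.Nonempty) (ν : Fin 2 × Fin 4 → ℤ)
    (h1 : ν ∈ NegAt (varsOn varI S)) (h2 : dg (Prod.fst : Fin 2 × Fin 4 → Fin 2) ν = 0) :
    rhoI k (mo k ν) ∈ (incVar k).regularOn id S := by
  obtain ⟨⟨i0, j0⟩, ha⟩ := hS
  have hs : ∀ r, ∑ i, ν (r, i) = 0 := by
    intro r
    have h3 := congrFun h2 r
    rw [dg_apply, Fintype.sum_prod_type, Finset.sum_eq_single r] at h3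
    · simpa using h3
    · intro b _ hb
      simp [hb]
    · simp
  have e0 : ∏ i, xx k (0, i) ^ ν (0, i) = ∏ i, (xx k (0, i) / xx k (0, i0)) ^ ν (0, i) := by
    simp only [div_zpow]
    rw [Finset.prod_div_distrib, prod_zpow_const _ (xx_ne _), hs, zpow_zero, div_one]
  have e1 : ∏ i, xx k (1, i) ^ ν (1, i) = ∏ i, (xx k (1, i) / xx k (1, j0)) ^ ν (1, i) := by
    simp only [div_zpow]
    rw [Finset.prod_div_distrib, prod_zpow_const _ (xx_ne _), hs, zpow_zero, div_one]
  rw [rhoI_mo, e0, e1]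
  apply mul_mem
  · apply prod_mem
    intro i _
    apply zpow_mem'
    · intro _
      rw [xx_ratio0 i i0 j0]
      exact ratio_mem S _ _ _ ha
    · intro hneg
      obtain ⟨⟨a, b⟩, hab, hv⟩ := h1 (0, i) hneg
      have hai : i = a := by
        rcases hv with hv | hv
        · exact congrArg Prod.snd hv
        · exact absurd (congrArg Prod.fst hv) (by simp)
      subst hai
      rw [inv_div, xx_ratio0 i0 i b]
      exact ratio_mem S _ _ _ hab
  · apply prod_mem
    intro i _
    apply zpow_mem'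
    · intro _
      rw [xx_ratio1 i j0 i0]
      exact ratio_mem S _ _ _ ha
    · intro hneg
      obtain ⟨⟨a, b⟩, hab, hv⟩ := h1 (1, i) hneg
      have hai : i = b := by
        rcases hv with hv | hv
        · exact absurd (congrArg Prod.fst hv) (by simp)
        · exact congrArg Prod.snd hv
      subst hai
      rw [inv_div, xx_ratio1 j0 i a]
      exact ratio_mem S _ _ _ hab

theorem rhoI_single (v : Fin 2 × Fin 4) (n : ℤ) :
    rhoI k (mo k (Pi.single v n)) = xx k v ^ n := by
  unfold rhoI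
  rw [evalL_mo, Finset.prod_eq_single v]
  · rw [Pi.single_eq_same]
  · intro b _ hb
    rw [Pi.single_eq_of_ne hb, zpow_zero]
  · simp

theorem rhoI_reg (S : Set (Fin 4 × Fin 4)) (hS : S.Nonempty) (u : (incVar k).ConeField) :
    u ∈ (incVar k).regularOn id S ↔ ∃ w, w ∈ pol k (varsOn varI S) ∧
      w ∈ hom k (Prod.fst : Fin 2 × Fin 4 → Fin 2) 0 ∧ rhoI k w = u := by
  constructor
  · intro hu
    unfold ProjVariety.regularOn at hu
    induction hu using Algebra.adjoin_induction with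
    | mem x hx =>
      obtain ⟨⟨i, j⟩, ⟨l, m⟩, ha, rfl⟩ := hx
      refine ⟨mo k ((Pi.single (0, i) 1 + Pi.single (1, j) 1) +
        (Pi.single (0, l) (-1) + Pi.single (1, m) (-1))), ?_, ?_, ?_⟩
      · apply mo_mem
        intro v hv
        by_contra hvS
        have h1 : v ≠ (0, l) := fun h => hvS ⟨(l, m), ha, by rw [h]; exact Or.inl rfl⟩
        have h2 : v ≠ (1, m) := fun h => hvS ⟨(l, m), ha, by rw [h]; exact Or.inr rfl⟩
        simp only [Pi.add_apply, Pi.single_apply, h1, h2, if_false] at hv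
        split_ifs at hv <;> omega
      · apply mo_mem
        simp only [Set.mem_ofPred_eq]
        funext r
        rw [dg_apply, Fintype.sum_prod_type]
        simp only [Pi.add_apply, Pi.single_apply, Prod.mk.injEq]
        fin_cases r <;> simp [Finset.sum_add_distrib, Finset.filter_eq']
      · rw [mo_add, mo_add, mo_add, map_mul, map_mul, map_mul, rhoI_single, rhoI_single,
          rhoI_single, rhoI_single, zpow_one, zpow_one, zpow_neg_one, zpow_neg_one, xx_mul,
          ← mul_inv, xx_mul, inv_div, div_mul_div_comm, mul_comm (zz k (i, j)),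
          mul_div_mul_left _ _ (zz_ne (k := k) (0, 0))]
        rfl
    | algebraMap a =>
      refine ⟨algebraMap k _ a, ?_, ?_, AlgHom.commutes _ _⟩
      · rw [Algebra.algebraMap_eq_smul_one]
        exact Submodule.smul_mem _ _ (one_mem_pol _)
      · rw [Algebra.algebraMap_eq_smul_one, ← mo_zero]
        apply Submodule.smul_mem
        apply mo_mem
        simp only [Set.mem_ofPred_eq, map_zero]
    | add x y _ _ hx hy =>
      obtain ⟨w, hw1, hw2, rfl⟩ := hx
      obtain ⟨w', hw1', hw2', rfl⟩ := hy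
      exact ⟨w + w', add_mem hw1 hw1', add_mem hw2 hw2', map_add _ _ _⟩
    | mul x y _ _ hx hy =>
      obtain ⟨w, hw1, hw2, rfl⟩ := hx
      obtain ⟨w', hw1', hw2', rfl⟩ := hy
      refine ⟨w * w', pol_mul hw1 hw1', ?_, map_mul _ _ _⟩
      have := hom_mul hw2 hw2'
      rwa [add_zero] at this
  · rintro ⟨w, hw1, hw2, rfl⟩
    have h : w ∈ supp k (NegAt (varsOn varI S) ∩
        {ν | dg (Prod.fst : Fin 2 × Fin 4 → Fin 2) ν = 0}) := supp_inter.mpr ⟨hw1, hw2⟩
    refine supp_induction (P := fun w => rhoI k w ∈ (incVar k).regularOn id S) ?_ ?_ ?_ ?_ h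
    · rw [map_zero]
      exact zero_mem _
    · intro x y hx hy
      rw [map_add]
      exact add_mem hx hy
    · intro c x hx
      rw [map_smul]
      exact Subalgebra.smul_mem _ hx c
    · intro ν hν
      exact rhoI_mem S hS ν hν.1 hν.2

/-- the model of the incidence variety -/
noncomputable def incModel (k : Type*) [Field k] [IsAlgClosed k] :
    Model (incVar k) (id : Fin 4 × Fin 4 → Fin 4 × Fin 4) (Prod.fst : Fin 2 × Fin 4 → Fin 2) where
  ρ := rhoI k
  f := incF k
  df := 1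
  vars := varI
  noVar := noVar_incF
  f_ne := incF_ne_zero
  f_hom := incF_hom
  ρf := rhoI_f
  base := by
    intro a
    refine ⟨fun r => if r = 0 then (0, a.1) else (1, a.2), ?_⟩
    intro r
    fin_cases r
    · exact ⟨rfl, Or.inl rfl⟩
    · exact ⟨rfl, Or.inr rfl⟩
  full := by
    rintro ⟨a, b⟩
    refine ⟨(b, b), ?_⟩
    fin_cases a
    · exact Or.inl rfl
    · exact Or.inr rfl
  reg := rhoI_reg
  ker := rhoI_ker

end

end Pool.Agent.TH141
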