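import Pool.Agent.TH141.IncD

/-!
# The first cohomology of the sheaf of differential operators of the incidence variety
-/

namespace Pool.Agent.TH141

open MvPolynomial Pool.Agent.H824

section

variable {k : Type*} [Field k] [IsAlgClosed k]

theorem inc_not_vanishing (p : ℕ) [Fact p.Prime] [CharP k p] :
    ¬ (incVar k).DiffVanishing id p 0 := by
  classical
  intro hV
  have hp : p.Prime := Fact.out
  have hp2 := hp.two_le
  have hq3 : 3 ≤ p ^ 2 := by nlinarith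
  have hq0 : 0 < p ^ 2 := by omega
  let M := incModel k
  have hbh : ∀ i, ∀ w ∈ hom k (Prod.fst : Fin 2 × Fin 4 → Fin 2) 0,
      bOp k (p ^ 2) i w ∈ hom k (Prod.fst : Fin 2 × Fin 4 → Fin 2) 0 :=
    fun i w hw => bOp_hom (p ^ 2) hq0 i 0 hw
  have hbq : ∀ i, QLin (p ^ 3) (bOp k (p ^ 2) i) := by
    intro i
    have := bOp_qlin (k := k) p (p ^ 2) hq0 i
    rwa [← pow_succ] at this
  have hex : ∀ i j : Fin 4, ∃ γ : RR (incVar k) id →+ RR (incVar k) id,
      M.Lifts (bOp k (p ^ 2) j - bOp k (p ^ 2) i) γ ∧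
      (∀ x y, γ (x ^ p ^ 3 * y) = x ^ p ^ 3 * γ y) ∧
      ∀ S : Set (Fin 4 × Fin 4), S.Nonempty →
        (∀ w ∈ pol k (varsOn M.vars S), w ∈ hom k (Prod.fst : Fin 2 × Fin 4 → Fin 2) 0 →
          (bOp k (p ^ 2) j - bOp k (p ^ 2) i) w ∈ pol k (varsOn M.vars S)) →
        ∀ u : RR (incVar k) id, (u : (incVar k).ConeField) ∈ (incVar k).regularOn id S →
          (γ u : (incVar k).ConeField) ∈ (incVar k).regularOn id S := by
    intro i j
    apply M.descend
    · exact (hbq j).sub (hbq i)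
    · intro w hw
      exact Submodule.sub_mem _ (hbh j w hw) (hbh i w hw)
    · intro z _
      refine ⟨incF k ^ (p ^ 2 - 1) * gOp k (p ^ 2) (yOp k (p ^ 2) j z) -
        incF k ^ (p ^ 2 - 1) * gOp k (p ^ 2) (yOp k (p ^ 2) i z), ?_⟩
      change (bOp k (p ^ 2) j - bOp k (p ^ 2) i) (incF k * z) = incF k * _
      rw [LinearMap.sub_apply, bOp_f, bOp_f]
      ring
  choose γ hγL hγq hγp using hex
  let F : (Fin 2 → Fin 4 × Fin 4) → (RR (incVar k) id →+ RR (incVar k) id) :=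
    fun s => γ (s 0).1 (s 1).1
  have hF : (incVar k).IsCochain id p 1 F := by
    intro s
    refine ⟨⟨3, hγq _ _⟩, ?_⟩
    apply hγp (s 0).1 (s 1).1 (Set.range s) (Set.range_nonempty s)
    intro w hw _
    have h0 : ∀ l : Fin 2, (0, (s l).1) ∈ varsOn M.vars (Set.range s) :=
      fun l => ⟨s l, ⟨l, rfl⟩, Or.inl rfl⟩
    exact Submodule.sub_mem _ (bOp_pol _ hq3 _ _ (h0 1) hw) (bOp_pol _ hq3 _ _ (h0 0) hw)
  have hadd : ∀ i j l, γ i l - γ j l = γ i j := by
    intro i j l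
    apply M.lifts_unique (M.lifts_sub (hγL i l) (hγL j l)) (hγL i j)
    intro w _
    refine ⟨0, ?_⟩
    simp only [LinearMap.sub_apply, mul_zero]
    ring
  have hd : (incVar k).cechD id 1 F = 0 := by
    funext s
    have h1 : (∑ j : Fin 3, (-1 : ℤ) ^ (j : ℕ) • F (s ∘ j.succAbove) :
        RR (incVar k) id →+ RR (incVar k) id) = 0 := by
      rw [Fin.sum_univ_three]
      have e0 : F (s ∘ (0 : Fin 3).succAbove) = γ (s 1).1 (s 2).1 := rfl
      have e1 : F (s ∘ (1 : Fin 3).succAbove) = γ (s 0).1 (s 2).1 := rfl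
      have e2 : F (s ∘ (2 : Fin 3).succAbove) = γ (s 0).1 (s 1).1 := rfl
      rw [e0, e1, e2, ← hadd (s 0).1 (s 1).1 (s 2).1]
      simp only [Fin.val_zero, Fin.val_one, Fin.val_two, pow_zero, pow_one, one_smul, neg_smul,
        even_two, Even.neg_pow, one_pow]
      abel
    exact h1
  obtain ⟨g, hg, hgd⟩ := hV F hF hd
  let g' : (Fin 1 → Fin 4 × Fin 4) → (RR (incVar k) id →+ RR (incVar k) id) := g
  let ca : Fin 1 → Fin 4 × Fin 4 := fun _ => (0, 2)
  let cb : Fin 1 → Fin 4 × Fin 4 := fun _ => (1, 3)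
  have hdiff : g' cb - g' ca = γ 0 1 := by
    have h1 : (∑ j : Fin 2, (-1 : ℤ) ^ (j : ℕ) •
        g' ((![(0, 2), (1, 3)] : Fin 2 → Fin 4 × Fin 4) ∘ j.succAbove) :
        RR (incVar k) id →+ RR (incVar k) id) = γ 0 1 := congrFun hgd ![(0, 2), (1, 3)]
    rw [Fin.sum_univ_two] at h1
    have e0 : (![(0, 2), (1, 3)] : Fin 2 → Fin 4 × Fin 4) ∘ (0 : Fin 2).succAbove = cb := by
      funext x
      fin_cases x
      rfl
    have e1 : (![(0, 2), (1, 3)] : Fin 2 → Fin 4 × Fin 4) ∘ (1 : Fin 2).succAbove = ca := by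
      funext x
      fin_cases x
      rfl
    rw [e0, e1] at h1
    simpa [sub_eq_add_neg] using h1
  have hlift : ∀ a : Fin 4 × Fin 4, ∃ (e : ℕ) (Γ : Lau k (Fin 2 × Fin 4) →ₗ[k]
      Lau k (Fin 2 × Fin 4)), QLin (p ^ e) Γ ∧
      (∀ T, varsOn M.vars {a} ⊆ T → ∀ w ∈ pol k T, Γ w ∈ pol k T) ∧
      (∀ d, ∀ w ∈ hom k (Prod.fst : Fin 2 × Fin 4 → Fin 2) d,
        Γ w ∈ hom k (Prod.fst : Fin 2 × Fin 4 → Fin 2) d) ∧ M.Lifts Γ (g' (fun _ => a)) := by
    intro a
    obtain ⟨⟨e, he⟩, hpres⟩ := hg (fun _ => a)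
    rw [Set.range_const] at hpres
    obtain ⟨Γ, h1, h2, h3, h4⟩ := M.lift (p := p) (e := e) {a} (Set.singleton_nonempty a)
      (g' (fun _ => a)) he hpres
    exact ⟨e, Γ, h1, h2, h3, h4⟩
  obtain ⟨ea, Γa, _, ha2, ha3, ha4⟩ := hlift (0, 2)
  obtain ⟨eb, Γb, _, hb2, hb3, hb4⟩ := hlift (1, 3)
  have hva : ∀ T : Set (Fin 2 × Fin 4), {(0, 0), (1, 2)} ⊆ T →
      varsOn M.vars {((0, 2) : Fin 4 × Fin 4)} ⊆ T := by
    rintro T hT v ⟨a, rfl, hv⟩
    exact hT hv
  have hvb : ∀ T : Set (Fin 2 × Fin 4), {(0, 1), (1, 3)} ⊆ T →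
      varsOn M.vars {((1, 3) : Fin 4 × Fin 4)} ⊆ T := by
    rintro T hT v ⟨a, rfl, hv⟩
    exact hT hv
  refine no_lift p 2 hq3 (bOp k (p ^ 2) 0 - Γa) (bOp k (p ^ 2) 1 - Γb) ?_ ?_ ?_ ?_
  · intro T hT u hu _
    exact Submodule.sub_mem _ (bOp_pol _ hq3 _ _ (hT (Or.inl rfl)) hu) (ha2 T (hva T hT) u hu)
  · intro T hT u hu _
    exact Submodule.sub_mem _ (bOp_pol _ hq3 _ _ (hT (Or.inl rfl)) hu) (hb2 T (hvb T hT) u hu)
  · intro u hu
    have h1 : M.Lifts (Γb - Γa) (γ 0 1) := by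
      rw [← hdiff]
      exact M.lifts_sub hb4 ha4
    obtain ⟨z, _, hz⟩ := M.lifts_diff (hγL 0 1) h1
      (fun w hw => Submodule.sub_mem _ (hbh 1 w hw) (hbh 0 w hw))
      (fun w hw => Submodule.sub_mem _ (hb3 0 w hw) (ha3 0 w hw)) u hu
    refine ⟨z, ?_⟩
    have hz' : (bOp k (p ^ 2) 1 - bOp k (p ^ 2) 0) u - (Γb - Γa) u = incF k * z := hz
    rw [← hz']
    simp only [LinearMap.sub_apply]
    ring
  · have hmh : mo k muE ∈ hom k (Prod.fst : Fin 2 × Fin 4 → Fin 2) (-1) := by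
      apply mo_mem
      simp only [Set.mem_ofPred_eq]
      funext r
      rw [dg_apply, Fintype.sum_prod_type]
      fin_cases r <;> simp [muE, Fin.sum_univ_succ]
    have hfm : incF k * mo k muE ∈ hom k (Prod.fst : Fin 2 × Fin 4 → Fin 2) 0 := by
      have := hom_mul (incF_hom (k := k)) hmh
      rwa [add_neg_cancel] at this
    have h1 : M.ρ (Γa (incF k * mo k muE)) = 0 := by
      rw [← ha4 _ hfm 0 (by
        have : M.ρ (incF k * mo k muE) = 0 := M.ρ_mul_f _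
        rw [this]
        rfl), map_zero]
      rfl
    obtain ⟨z, _, hz⟩ := M.ker' (ha3 0 _ hfm) h1
    have hz' : Γa (incF k * mo k muE) = incF k * z := hz
    refine ⟨z - incF k ^ (p ^ 2 - 1) * gOp k (p ^ 2) (yOp k (p ^ 2) 0 (mo k muE)), ?_⟩
    rw [LinearMap.sub_apply, bOp_f, hz', gOp_mu]
    ring

/-- the points of the incidence variety -/
theorem inc_points (z : Fin 4 × Fin 4 → k) :
    z ∈ (incVar k).points ↔ z ≠ 0 ∧ ∃ x y : Fin 4 → k, ∑ i, x i * y i = 0 ∧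
      z = fun a => x a.1 * y a.2 := by
  constructor
  · rintro ⟨hz, h⟩
    refine ⟨hz, ?_⟩
    obtain ⟨⟨i0, j0⟩, h0⟩ : ∃ a, z a ≠ 0 := by
      by_contra hcon
      push Not at hcon
      exact hz (funext hcon)
    have hm : ∀ i j l m, z (i, j) * z (l, m) = z (i, m) * z (l, j) := by
      intro i j l m
      have h1 : (X (i, j) * X (l, m) - X (i, m) * X (l, j) : MvPolynomial (Fin 4 × Fin 4) k) ∈
          (incVar k).ideal := by
        rw [mem_incVar]
        intro x y _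
        simp only [map_sub, map_mul, eval_X]
        ring
      have h2 := h _ h1
      simp only [map_sub, map_mul, eval_X] at h2
      linear_combination h2
    have hs : ∑ i, z (i, i) = 0 := by
      have h1 : (∑ i, X (i, i) : MvPolynomial (Fin 4 × Fin 4) k) ∈ (incVar k).ideal := by
        rw [mem_incVar]
        intro x y hxy
        rw [map_sum]
        simpa using hxy
      have h2 := h _ h1
      rw [map_sum] at h2
      simpa using h2
    refine ⟨fun i => z (i, j0), fun j => z (i0, j) / z (i0, j0), ?_, ?_⟩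
    · have h1 : ∀ i, z (i, j0) * (z (i0, i) / z (i0, j0)) = z (i, i) := by
        intro i
        have h2 := hm i j0 i0 i
        rw [← mul_div_assoc, h2, mul_div_cancel_right₀ _ h0]
      simp only [h1]
      exact hs
    · funext ⟨i, j⟩
      have h2 := hm i j0 i0 j
      simp only
      rw [← mul_div_assoc, h2, mul_div_cancel_right₀ _ h0]
  · rintro ⟨hz, x, y, hxy, rfl⟩
    refine ⟨hz, ?_⟩
    intro F hF
    exact (mem_incVar F).mp hF x y hxy

end

end Pool.Agent.TH141
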