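import Mathlib

/-!
# Laurent polynomials with exponents in `σ → ℤ`
-/

namespace Pool.Agent.TH141

open AddMonoidAlgebra

/-- the Laurent polynomials in the variables indexed by `σ` -/
abbrev Lau (k σ : Type*) [Field k] : Type _ := AddMonoidAlgebra k (σ → ℤ)

section

variable {k σ : Type*} [Field k]

/-- the monomial of exponent `ν` -/
noncomputable def mo (k : Type*) [Field k] {σ : Type*} (ν : σ → ℤ) : Lau k σ :=
  AddMonoidAlgebra.single ν 1

theorem mo_add (a b : σ → ℤ) : mo k (a + b) = mo k a * mo k b := by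
  unfold mo
  rw [AddMonoidAlgebra.single_mul_single, one_mul]

theorem mo_zero : mo k (0 : σ → ℤ) = 1 := rfl

theorem single_eq (ν : σ → ℤ) (c : k) : (AddMonoidAlgebra.single ν c : Lau k σ) = c • mo k ν := by
  unfold mo
  rw [AddMonoidAlgebra.smul_single, smul_eq_mul, mul_one]

theorem coeff_mo [DecidableEq (σ → ℤ)] (ν μ : σ → ℤ) :
    (mo k ν).coeff μ = if ν = μ then 1 else 0 := by
  unfold mo
  rw [AddMonoidAlgebra.coeff_single, Finsupp.single_apply]

theorem mo_ne_zero (ν : σ → ℤ) : mo k ν ≠ 0 := by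
  classical
  intro h
  have h1 := coeff_mo (k := k) ν ν
  rw [h, if_pos rfl] at h1
  simp at h1

theorem mo_nsmul (n : ℕ) (ν : σ → ℤ) : mo k (n • ν) = mo k ν ^ n := by
  unfold mo
  rw [AddMonoidAlgebra.single_pow, one_pow]

/-- two linear maps that agree on the monomials are equal -/
theorem lin_ext {M : Type*} [AddCommGroup M] [Module k M] {T T' : Lau k σ →ₗ[k] M}
    (h : ∀ ν, T (mo k ν) = T' (mo k ν)) : T = T' :=
  (AddMonoidAlgebra.basis (σ → ℤ) k).ext (fun ν => by
    rw [AddMonoidAlgebra.basis_apply]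
    exact h ν)

/-- the linear map with given values on the monomials -/
noncomputable def ofMo {M : Type*} [AddCommGroup M] [Module k M] (F : (σ → ℤ) → M) :
    Lau k σ →ₗ[k] M :=
  (AddMonoidAlgebra.basis (σ → ℤ) k).constr k F

theorem ofMo_mo {M : Type*} [AddCommGroup M] [Module k M] (F : (σ → ℤ) → M) (ν : σ → ℤ) :
    ofMo F (mo k ν) = F ν := by
  have h : mo k ν = AddMonoidAlgebra.basis (σ → ℤ) k ν := by
    rw [AddMonoidAlgebra.basis_apply]
    rfl
  unfold ofMo
  rw [h, Module.Basis.constr_basis]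

/-- the Laurent polynomials whose exponents lie in `A` -/
def supp (k : Type*) [Field k] {σ : Type*} (A : Set (σ → ℤ)) : Submodule k (Lau k σ) where
  carrier := {w | ∀ ν, w.coeff ν ≠ 0 → ν ∈ A}
  zero_mem' := by
    intro ν h
    exact absurd rfl h
  add_mem' := by
    intro x y hx hy ν h
    by_cases h1 : x.coeff ν = 0
    · apply hy
      rw [AddMonoidAlgebra.coeff_add, Finsupp.add_apply, h1, zero_add] at h
      exact h
    · exact hx ν h1
  smul_mem' := by
    intro c x hx ν h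
    apply hx
    intro h1
    apply h
    rw [AddMonoidAlgebra.coeff_smul, Finsupp.smul_apply, h1, smul_zero]

theorem mem_supp {A : Set (σ → ℤ)} {w : Lau k σ} :
    w ∈ supp k A ↔ ∀ ν, w.coeff ν ≠ 0 → ν ∈ A := Iff.rfl

theorem mo_mem {A : Set (σ → ℤ)} {ν : σ → ℤ} (h : ν ∈ A) : mo k ν ∈ supp k A := by
  classical
  intro μ hμ
  rw [coeff_mo] at hμ
  have : ν = μ := by
    by_contra hne
    rw [if_neg hne] at hμ
    exact hμ rfl
  rw [← this]
  exact h

theorem supp_mono {A B : Set (σ → ℤ)} (h : A ⊆ B) : supp k A ≤ supp k B :=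
  fun _ hw ν hν => h (hw ν hν)

theorem supp_inter {A B : Set (σ → ℤ)} {w : Lau k σ} :
    w ∈ supp k (A ∩ B) ↔ w ∈ supp k A ∧ w ∈ supp k B :=
  ⟨fun h => ⟨fun ν hν => (h ν hν).1, fun ν hν => (h ν hν).2⟩,
    fun h ν hν => ⟨h.1 ν hν, h.2 ν hν⟩⟩

theorem mem_supp_univ (w : Lau k σ) : w ∈ supp k (Set.univ : Set (σ → ℤ)) :=
  fun _ _ => Set.mem_univ _

theorem supp_eq_span (A : Set (σ → ℤ)) : supp k A = Submodule.span k (mo k '' A) := by
  apply le_antisymm
  · intro w hw
    rw [← AddMonoidAlgebra.sum_coeff_single w]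
    apply Submodule.sum_mem
    intro ν hν
    rw [single_eq]
    apply Submodule.smul_mem
    apply Submodule.subset_span
    exact ⟨ν, hw ν (Finsupp.mem_support_iff.mp hν), rfl⟩
  · rw [Submodule.span_le]
    rintro _ ⟨ν, hν, rfl⟩
    exact mo_mem hν

/-- a property of the elements supported in `A` can be checked on the monomials -/
theorem supp_induction {A : Set (σ → ℤ)} {P : Lau k σ → Prop} (h0 : P 0)
    (hadd : ∀ x y, P x → P y → P (x + y)) (hsmul : ∀ (c : k) x, P x → P (c • x))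
    (hmo : ∀ ν ∈ A, P (mo k ν)) {w : Lau k σ} (hw : w ∈ supp k A) : P w := by
  rw [supp_eq_span] at hw
  induction hw using Submodule.span_induction with
  | mem x hx =>
    obtain ⟨ν, hν, rfl⟩ := hx
    exact hmo ν hν
  | zero => exact h0
  | add x y _ _ hx hy => exact hadd x y hx hy
  | smul c x _ hx => exact hsmul c x hx

/-- a linear map sends the elements supported in `A` to `N` if it does so on the monomials -/
theorem map_supp {M : Type*} [AddCommGroup M] [Module k M] {A : Set (σ → ℤ)}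
    (N : Submodule k M) (T : Lau k σ →ₗ[k] M) (h : ∀ ν ∈ A, T (mo k ν) ∈ N) {w : Lau k σ}
    (hw : w ∈ supp k A) : T w ∈ N :=
  supp_induction (P := fun w => T w ∈ N) (by rw [map_zero]; exact N.zero_mem)
    (fun x y hx hy => by rw [map_add]; exact N.add_mem hx hy)
    (fun c x hx => by rw [map_smul]; exact N.smul_mem c hx) h hw

theorem eq_on_supp {M : Type*} [AddCommGroup M] [Module k M] {A : Set (σ → ℤ)}
    (T T' : Lau k σ →ₗ[k] M) (h : ∀ ν ∈ A, T (mo k ν) = T' (mo k ν)) {w : Lau k σ}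
    (hw : w ∈ supp k A) : T w = T' w :=
  supp_induction (P := fun w => T w = T' w) (by rw [map_zero, map_zero])
    (fun x y hx hy => by rw [map_add, map_add, hx, hy])
    (fun c x hx => by rw [map_smul, map_smul, hx]) h hw

theorem mul_mem_supp {A B C : Set (σ → ℤ)} (h : ∀ a ∈ A, ∀ b ∈ B, a + b ∈ C) {x y : Lau k σ}
    (hx : x ∈ supp k A) (hy : y ∈ supp k B) : x * y ∈ supp k C := by
  have h1 : ∀ a ∈ A, LinearMap.mulLeft k (mo k a) y ∈ supp k C := by
    intro a ha
    apply map_supp (supp k C) (LinearMap.mulLeft k (mo k a)) _ hy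
    intro b hb
    rw [LinearMap.mulLeft_apply, ← mo_add]
    exact mo_mem (h a ha b hb)
  exact map_supp (supp k C) (LinearMap.mulRight k y) h1 hx

/-- the projection to the exponents in `A` -/
noncomputable def proj (k : Type*) [Field k] {σ : Type*} (A : Set (σ → ℤ)) :
    Lau k σ →ₗ[k] Lau k σ :=
  open Classical in ofMo (fun ν => if ν ∈ A then mo k ν else 0)

theorem proj_mo_mem {A : Set (σ → ℤ)} {ν : σ → ℤ} (h : ν ∈ A) : proj k A (mo k ν) = mo k ν := by
  unfold proj
  rw [ofMo_mo, if_pos h]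

theorem proj_mo_notMem {A : Set (σ → ℤ)} {ν : σ → ℤ} (h : ν ∉ A) : proj k A (mo k ν) = 0 := by
  unfold proj
  rw [ofMo_mo, if_neg h]

theorem proj_eq_self {A : Set (σ → ℤ)} {w : Lau k σ} (h : w ∈ supp k A) : proj k A w = w :=
  eq_on_supp (proj k A) LinearMap.id (fun _ hν => proj_mo_mem hν) h

theorem proj_eq_zero {A : Set (σ → ℤ)} {w : Lau k σ} (h : w ∈ supp k Aᶜ) : proj k A w = 0 :=
  eq_on_supp (proj k A) 0 (fun _ hν => proj_mo_notMem hν) h

theorem proj_mem (A : Set (σ → ℤ)) (w : Lau k σ) : proj k A w ∈ supp k A := by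
  apply map_supp (supp k A) (proj k A) _ (mem_supp_univ w)
  intro ν _
  by_cases h : ν ∈ A
  · rw [proj_mo_mem h]
    exact mo_mem h
  · rw [proj_mo_notMem h]
    exact zero_mem _

theorem sub_proj_mem (A : Set (σ → ℤ)) (w : Lau k σ) : w - proj k A w ∈ supp k Aᶜ := by
  have : (LinearMap.id - proj k A : Lau k σ →ₗ[k] Lau k σ) w ∈ supp k Aᶜ := by
    apply map_supp (supp k Aᶜ) (LinearMap.id - proj k A) _ (mem_supp_univ w)
    intro ν _
    rw [LinearMap.sub_apply, LinearMap.id_apply]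
    by_cases h : ν ∈ A
    · rw [proj_mo_mem h, sub_self]
      exact zero_mem _
    · rw [proj_mo_notMem h, sub_zero]
      exact mo_mem h
  exact this

theorem coeff_proj [DecidableEq (σ → ℤ)] (A : Set (σ → ℤ)) (w : Lau k σ) (ν : σ → ℤ) :
    ν ∈ A → (proj k A w).coeff ν = w.coeff ν := by
  intro hν
  have h1 := sub_proj_mem A w
  by_contra h2
  have h3 : (w - proj k A w).coeff ν ≠ 0 := by
    intro h4
    apply h2
    have h5 : w = (w - proj k A w) + proj k A w := by ring
    have h6 := congrArg (fun x => x.coeff ν) h5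
    simp only [AddMonoidAlgebra.coeff_add, Finsupp.add_apply] at h6
    rw [h4, zero_add] at h6
    exact h6.symm
  exact h1 ν h3 hν

/-- a nonzero homogeneous component of least weight of a product -/
theorem weight_div (ω : (σ → ℤ) →+ ℤ) (f w : Lau k σ) (a n : ℤ)
    (hf : f ∈ supp k {ν | a ≤ ω ν}) (hf0 : ∃ ν, f.coeff ν ≠ 0 ∧ ω ν = a)
    (hfw : f * w ∈ supp k {ν | a + n ≤ ω ν}) : w ∈ supp k {ν | n ≤ ω ν} := by
  classical
  by_contra hcon
  rw [mem_supp] at hcon
  push Not at hcon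
  obtain ⟨ν0, hν0, hν0'⟩ := hcon
  have hne : w.coeff.support.Nonempty := ⟨ν0, Finsupp.mem_support_iff.mpr hν0⟩
  obtain ⟨μ, hμ, hmin⟩ := Finset.exists_min_image w.coeff.support ω hne
  have hμn : ω μ < n := by
    have := hmin ν0 (Finsupp.mem_support_iff.mpr hν0)
    simp only [Set.mem_ofPred_eq, not_le] at hν0'
    omega
  set m := ω μ with hm
  have hwm : w ∈ supp k {ν | m ≤ ω ν} := fun ν hν => hmin ν (Finsupp.mem_support_iff.mpr hν)
  set f0 := proj k {ν | ω ν = a} f with hf0def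
  set w0 := proj k {ν | ω ν = m} w with hw0def
  have hf0ne : f0 ≠ 0 := by
    obtain ⟨ν, h1, h2⟩ := hf0
    intro h
    have h3 := coeff_proj {ν | ω ν = a} f ν h2
    rw [← hf0def, h] at h3
    exact h1 h3.symm
  have hw0ne : w0 ≠ 0 := by
    intro h
    have h3 := coeff_proj {ν | ω ν = m} w μ rfl
    rw [← hw0def, h] at h3
    exact (Finsupp.mem_support_iff.mp hμ) h3.symm
  have hprod : f0 * w0 ≠ 0 := mul_ne_zero hf0ne hw0ne
  have hf1 : f - f0 ∈ supp k {ν | a + 1 ≤ ω ν} := by
    intro ν hν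
    have h1 := sub_proj_mem {ν | ω ν = a} f ν hν
    have h2 : f - f0 ∈ supp k {ν | a ≤ ω ν} := by
      apply Submodule.sub_mem _ hf
      refine supp_mono ?_ (proj_mem {ν | ω ν = a} f)
      intro x hx
      exact le_of_eq (Eq.symm hx)
    have h3 := h2 ν hν
    simp only [Set.mem_compl_iff, Set.mem_ofPred_eq] at h1 h3 ⊢
    omega
  have hw1 : w - w0 ∈ supp k {ν | m + 1 ≤ ω ν} := by
    intro ν hν
    have h1 := sub_proj_mem {ν | ω ν = m} w ν hν
    have h2 : w - w0 ∈ supp k {ν | m ≤ ω ν} := by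
      apply Submodule.sub_mem _ hwm
      refine supp_mono ?_ (proj_mem {ν | ω ν = m} w)
      intro x hx
      exact le_of_eq (Eq.symm hx)
    have h3 := h2 ν hν
    simp only [Set.mem_compl_iff, Set.mem_ofPred_eq] at h1 h3 ⊢
    omega
  have hsum : f * w = f0 * w0 + ((f - f0) * w + f0 * (w - w0)) := by ring
  have hrest : (f - f0) * w + f0 * (w - w0) ∈ supp k {ν | a + m + 1 ≤ ω ν} := by
    apply Submodule.add_mem
    · refine mul_mem_supp ?_ hf1 hwm
      intro x hx y hy
      simp only [Set.mem_ofPred_eq, map_add] at hx hy ⊢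
      omega
    · refine mul_mem_supp ?_ (proj_mem {ν | ω ν = a} f) hw1
      intro x hx y hy
      simp only [Set.mem_ofPred_eq, map_add] at hx hy ⊢
      omega
  have h00 : f0 * w0 ∈ supp k {ν | ω ν = a + m} := by
    refine mul_mem_supp ?_ (proj_mem {ν | ω ν = a} f) (proj_mem {ν | ω ν = m} w)
    intro x hx y hy
    simp only [Set.mem_ofPred_eq, map_add] at hx hy ⊢
    omega
  have h0 : f0 * w0 ∈ supp k {ν | a + m + 1 ≤ ω ν} := by
    have h4 : f0 * w0 = f * w - ((f - f0) * w + f0 * (w - w0)) := by rw [hsum]; ring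
    rw [h4]
    apply Submodule.sub_mem _ _ hrest
    refine supp_mono ?_ hfw
    intro x hx
    simp only [Set.mem_ofPred_eq] at hx ⊢
    omega
  apply hprod
  rw [← AddMonoidAlgebra.coeff_eq_zero]
  ext ν
  by_contra hν
  have h5 := h00 ν hν
  have h6 := h0 ν hν
  simp only [Set.mem_ofPred_eq] at h5 h6
  omega

end

section poles

variable {k σ : Type*} [Field k]

/-- the exponents that are negative at the variables of `S` only -/
def NegAt (S : Set σ) : Set (σ → ℤ) := {ν | ∀ v, ν v < 0 → v ∈ S}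

/-- the Laurent polynomials with poles along the variables of `S` only -/
def pol (k : Type*) [Field k] {σ : Type*} (S : Set σ) : Submodule k (Lau k σ) :=
  supp k (NegAt S)

theorem pol_mono {S T : Set σ} (h : S ⊆ T) : pol k S ≤ pol k T :=
  supp_mono (fun _ hν v hv => h (hν v hv))

theorem negAt_add {S : Set σ} {a b : σ → ℤ} (ha : a ∈ NegAt S) (hb : b ∈ NegAt S) :
    a + b ∈ NegAt S := by
  intro v hv
  rcases lt_or_ge (a v) 0 with h | h
  · exact ha v h
  · apply hb
    rw [Pi.add_apply] at hv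
    omega

theorem pol_mul {S : Set σ} {x y : Lau k σ} (hx : x ∈ pol k S) (hy : y ∈ pol k S) :
    x * y ∈ pol k S :=
  mul_mem_supp (fun _ ha _ hb => negAt_add ha hb) hx hy

theorem one_mem_pol (S : Set σ) : (1 : Lau k σ) ∈ pol k S := by
  rw [← mo_zero]
  apply mo_mem
  intro v hv
  simp at hv

theorem pol_pow {S : Set σ} {x : Lau k σ} (hx : x ∈ pol k S) (n : ℕ) : x ^ n ∈ pol k S := by
  induction n with
  | zero => rw [pow_zero]; exact one_mem_pol S
  | succ n ih => rw [pow_succ]; exact pol_mul ih hx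

/-- `f` is a polynomial not divisible by any of the variables -/
def NoVar (f : Lau k σ) : Prop :=
  f ∈ pol k (∅ : Set σ) ∧ ∀ v, ∃ ν, f.coeff ν ≠ 0 ∧ ν v = 0

theorem pol_div {f : Lau k σ} (hf : NoVar f) {S : Set σ} {w : Lau k σ} (h : f * w ∈ pol k S) :
    w ∈ pol k S := by
  intro ν hν v hv
  by_contra hvS
  have h1 : w ∈ supp k {ν | (0 : ℤ) ≤ Pi.evalAddMonoidHom (fun _ : σ => ℤ) v ν} := by
    apply weight_div (Pi.evalAddMonoidHom (fun _ : σ => ℤ) v) f w 0 0
    · intro μ hμ
      simp only [Set.mem_ofPred_eq, Pi.evalAddMonoidHom_apply]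
      by_contra hneg
      exact (hf.1 μ hμ v (not_le.mp hneg)).elim
    · obtain ⟨μ, h2, h3⟩ := hf.2 v
      exact ⟨μ, h2, h3⟩
    · intro μ hμ
      simp only [Set.mem_ofPred_eq, Pi.evalAddMonoidHom_apply, add_zero]
      by_contra hneg
      exact hvS (h μ hμ v (not_le.mp hneg))
  have h2 := h1 ν hν
  simp only [Set.mem_ofPred_eq, Pi.evalAddMonoidHom_apply] at h2
  omega

end poles

section deg

variable {k σ R : Type*} [Field k] [Fintype σ] [DecidableEq R]

/-- the total degree in the variables of each block -/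
def dg (blk : σ → R) : (σ → ℤ) →+ (R → ℤ) where
  toFun ν := fun r => ∑ i, if blk i = r then ν i else 0
  map_zero' := by
    funext r
    simp
  map_add' := by
    intro a b
    funext r
    simp only [Pi.add_apply, ← Finset.sum_add_distrib]
    apply Finset.sum_congr rfl
    intro i _
    split_ifs <;> simp

theorem dg_apply (blk : σ → R) (ν : σ → ℤ) (r : R) :
    dg blk ν r = ∑ i, if blk i = r then ν i else 0 := rfl

/-- the homogeneous Laurent polynomials of multidegree `d` -/
def hom (k : Type*) [Field k] (blk : σ → R) (d : R → ℤ) : Submodule k (Lau k σ) :=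
  supp k {ν | dg blk ν = d}

theorem hom_mul {blk : σ → R} {d e : R → ℤ} {x y : Lau k σ} (hx : x ∈ hom k blk d)
    (hy : y ∈ hom k blk e) : x * y ∈ hom k blk (d + e) := by
  refine mul_mem_supp ?_ hx hy
  intro a ha b hb
  simp only [Set.mem_ofPred_eq, map_add] at ha hb ⊢
  rw [ha, hb]

theorem hom_div {blk : σ → R} {d e : R → ℤ} {f w : Lau k σ} (hf : f ∈ hom k blk d)
    (hf0 : f ≠ 0) (h : f * w ∈ hom k blk (d + e)) : w ∈ hom k blk e := by
  have hex : ∃ ν, f.coeff ν ≠ 0 := by
    by_contra hcon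
    push Not at hcon
    apply hf0
    rw [← AddMonoidAlgebra.coeff_eq_zero]
    ext ν
    exact hcon ν
  obtain ⟨μ, hμ⟩ := hex
  have hμd : dg blk μ = d := hf μ hμ
  intro ν hν
  funext r
  let ω : (σ → ℤ) →+ ℤ := (Pi.evalAddMonoidHom (fun _ : R => ℤ) r).comp (dg blk)
  have hω : ∀ x, ω x = dg blk x r := fun _ => rfl
  have h1 : w ∈ supp k {ν | e r ≤ ω ν} := by
    apply weight_div ω f w (d r) (e r)
    · intro x hx
      have := hf x hx
      simp only [Set.mem_ofPred_eq] at this ⊢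
      rw [hω, this]
    · exact ⟨μ, hμ, by rw [hω, hμd]⟩
    · intro x hx
      have := h x hx
      simp only [Set.mem_ofPred_eq] at this ⊢
      rw [hω, this, Pi.add_apply]
  have h2 : w ∈ supp k {ν | - e r ≤ (-ω) ν} := by
    apply weight_div (-ω) f w (- d r) (- e r)
    · intro x hx
      have := hf x hx
      simp only [Set.mem_ofPred_eq, AddMonoidHom.neg_apply] at this ⊢
      rw [hω, this]
    · exact ⟨μ, hμ, by rw [AddMonoidHom.neg_apply, hω, hμd]⟩
    · intro x hx
      have := h x hx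
      simp only [Set.mem_ofPred_eq, AddMonoidHom.neg_apply] at this ⊢
      rw [hω, this, Pi.add_apply]
      omega
  have h3 := h1 ν hν
  have h4 := h2 ν hν
  simp only [Set.mem_ofPred_eq, AddMonoidHom.neg_apply] at h3 h4
  rw [hω] at h3 h4
  omega

end deg

section qlin

variable {k σ : Type*} [Field k]

theorem smul_ap {τ : Type*} (q : ℕ) (w : τ → ℤ) (v : τ) : (q • w) v = (q : ℤ) * w v := by
  rw [Pi.smul_apply, nsmul_eq_mul]

/-- linearity over the monomials with exponents divisible by `q` -/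
def QLin (q : ℕ) (T : Lau k σ →ₗ[k] Lau k σ) : Prop :=
  ∀ (w : σ → ℤ) (u : Lau k σ), T (mo k (q • w) * u) = mo k (q • w) * T u

theorem QLin.mono {q r : ℕ} {T : Lau k σ →ₗ[k] Lau k σ} (h : QLin q T) : QLin (q * r) T := by
  intro w u
  rw [mul_smul]
  exact h (r • w) u

theorem QLin.add {q : ℕ} {T U : Lau k σ →ₗ[k] Lau k σ} (h : QLin q T) (h' : QLin q U) :
    QLin q (T + U) := by
  intro w u
  rw [LinearMap.add_apply, LinearMap.add_apply, h, h', mul_add]

theorem QLin.sub {q : ℕ} {T U : Lau k σ →ₗ[k] Lau k σ} (h : QLin q T) (h' : QLin q U) :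
    QLin q (T - U) := by
  intro w u
  rw [LinearMap.sub_apply, LinearMap.sub_apply, h, h', mul_sub]

theorem QLin.neg {q : ℕ} {T : Lau k σ →ₗ[k] Lau k σ} (h : QLin q T) : QLin q (-T) := by
  intro w u
  rw [LinearMap.neg_apply, LinearMap.neg_apply, h, mul_neg]

theorem QLin.zero (q : ℕ) : QLin q (0 : Lau k σ →ₗ[k] Lau k σ) := by
  intro w u
  simp

theorem QLin.comp {q : ℕ} {T U : Lau k σ →ₗ[k] Lau k σ} (h : QLin q T) (h' : QLin q U) :
    QLin q (T ∘ₗ U) := by
  intro w u
  rw [LinearMap.comp_apply, LinearMap.comp_apply, h', h]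

theorem QLin.mulLeft (q : ℕ) (f : Lau k σ) : QLin q (LinearMap.mulLeft k f) := by
  intro w u
  rw [LinearMap.mulLeft_apply, LinearMap.mulLeft_apply]
  ring

theorem QLin.sum {q : ℕ} {I : Type*} (s : Finset I) (T : I → (Lau k σ →ₗ[k] Lau k σ))
    (h : ∀ i ∈ s, QLin q (T i)) : QLin q (∑ i ∈ s, T i) := by
  intro w u
  rw [LinearMap.sum_apply, LinearMap.sum_apply, Finset.mul_sum]
  exact Finset.sum_congr rfl (fun i hi => h i hi w u)

theorem QLin.of_mo {q : ℕ} {T : Lau k σ →ₗ[k] Lau k σ}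
    (h : ∀ w ν, T (mo k (q • w + ν)) = mo k (q • w) * T (mo k ν)) : QLin q T := by
  intro w u
  have : T ∘ₗ LinearMap.mulLeft k (mo k (q • w)) = LinearMap.mulLeft k (mo k (q • w)) ∘ₗ T := by
    apply lin_ext
    intro ν
    rw [LinearMap.comp_apply, LinearMap.comp_apply, LinearMap.mulLeft_apply,
      LinearMap.mulLeft_apply, ← mo_add]
    exact h w ν
  exact LinearMap.congr_fun this u

theorem QLin.mul_supp {q : ℕ} {T : Lau k σ →ₗ[k] Lau k σ} (h : QLin q T) {z : Lau k σ}
    (hz : z ∈ supp k {ν | ∃ w : σ → ℤ, ν = q • w}) (u : Lau k σ) : T (z * u) = z * T u := by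
  refine supp_induction (P := fun z => T (z * u) = z * T u) ?_ ?_ ?_ ?_ hz
  · rw [zero_mul, map_zero, zero_mul]
  · intro x y hx hy
    rw [add_mul, map_add, hx, hy, add_mul]
  · intro c x hx
    rw [smul_mul_assoc, map_smul, hx, smul_mul_assoc]
  · rintro ν ⟨w, rfl⟩
    exact h w u

theorem frob_mem (p e : ℕ) [Fact p.Prime] [CharP k p] (z : Lau k σ) :
    z ^ p ^ e ∈ supp k {ν | ∃ w : σ → ℤ, ν = (p ^ e) • w} := by
  have : CharP (Lau k σ) p := charP_of_injective_algebraMap (algebraMap k (Lau k σ)).injective p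
  refine supp_induction (P := fun z => z ^ p ^ e ∈ supp k {ν | ∃ w : σ → ℤ, ν = (p ^ e) • w})
    ?_ ?_ ?_ ?_ (mem_supp_univ z)
  · rw [zero_pow (pow_ne_zero _ (Fact.out : p.Prime).ne_zero)]
    exact zero_mem _
  · intro x y hx hy
    rw [add_pow_char_pow]
    exact add_mem hx hy
  · intro c x hx
    rw [smul_pow]
    exact Submodule.smul_mem _ _ hx
  · intro ν _
    rw [← mo_nsmul]
    exact mo_mem ⟨ν, rfl⟩

theorem QLin.frob {p e : ℕ} [Fact p.Prime] [CharP k p] {T : Lau k σ →ₗ[k] Lau k σ}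
    (h : QLin (p ^ e) T) (z u : Lau k σ) : T (z ^ p ^ e * u) = z ^ p ^ e * T u :=
  h.mul_supp (frob_mem p e z) u

end qlin

end Pool.Agent.TH141
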