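import Mathlib

/-!
# The Lefschetz property below the middle degree for truncated polynomials

`V` is graded by `ℤ`, `F` has degree `2`, `D` has degree `-2` and `[D, F] = 4 h` in degree `h`.
-/

namespace Pool.Agent.TH141

/-- The kernels of the powers of `F` below the middle lie in the images of the complementary
powers. -/
structure Good {k V : Type*} [Field k] [AddCommGroup V] [Module k V] (p : ℕ)
    (F D : Module.End k V) (W : ℤ → Submodule k V) : Prop where
  hF : ∀ h, ∀ w ∈ W h, F w ∈ W (h + 2)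
  hD : ∀ h, ∀ w ∈ W h, D w ∈ W (h - 2)
  hc : ∀ h, ∀ w ∈ W h, D (F w) = F (D w) + ((4 * h : ℤ) : k) • w
  hp : ∀ h, ∀ w ∈ W h, (F ^ p) w = 0
  hK : ∀ L : ℕ, L ≤ p → ∀ h < 0, ∀ w ∈ W (h - (L - 1)), (F ^ L) w = 0 →
    ∃ z ∈ W (h - (L - 1) - 2 * (p - L)), (F ^ (p - L)) z = w

section step

variable {k V : Type*} [Field k] [AddCommGroup V] [Module k V] {p : ℕ}

theorem powF {F : Module.End k V} {W : ℤ → Submodule k V}
    (hF : ∀ h, ∀ w ∈ W h, F w ∈ W (h + 2)) (L : ℕ) (ν : ℤ) (w : V) (hw : w ∈ W ν) :
    (F ^ L) w ∈ W (ν + 2 * L) := by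
  induction L with
  | zero => simpa using hw
  | succ L ih =>
    rw [pow_succ', Module.End.mul_apply]
    have := hF _ _ ih
    have h2 : ν + 2 * (L : ℤ) + 2 = ν + 2 * ((L + 1 : ℕ) : ℤ) := by push_cast; ring
    rwa [h2] at this

theorem D_pow {F D : Module.End k V} {W : ℤ → Submodule k V}
    (hF : ∀ h, ∀ w ∈ W h, F w ∈ W (h + 2))
    (hc : ∀ h, ∀ w ∈ W h, D (F w) = F (D w) + ((4 * h : ℤ) : k) • w) (L : ℕ) (ν : ℤ) (w : V)
    (hw : w ∈ W ν) :
    D ((F ^ L) w) = (F ^ L) (D w) + ((4 * L * (ν + L - 1) : ℤ) : k) • (F ^ (L - 1)) w := by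
  induction L with
  | zero => simp
  | succ L ih =>
    rw [pow_succ', Module.End.mul_apply, hc _ _ (powF hF L ν w hw), ih, map_add, map_smul,
      Module.End.mul_apply, Nat.add_sub_cancel]
    rcases Nat.eq_zero_or_pos L with h0 | h0
    · subst h0
      simp
    · have h1 : F ((F ^ (L - 1)) w) = (F ^ L) w := by
        rw [← Module.End.mul_apply, ← pow_succ', Nat.sub_add_cancel h0]
      rw [h1, add_assoc, ← add_smul, ← Int.cast_add]
      congr 3
      push_cast
      ring

variable (k V) in
/-- the operator `F + x²` on the functions of the exponent of `x` -/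
noncomputable def stepF (p : ℕ) (F : Module.End k V) : Module.End k (ℤ → V) :=
  LinearMap.pi (fun i => F ∘ₗ (LinearMap.proj i : (ℤ → V) →ₗ[k] V) +
    if i < (p : ℤ) then (LinearMap.proj (i - 2) : (ℤ → V) →ₗ[k] V) else 0)

variable (k V) in
/-- the operator `D + ∂²` -/
noncomputable def stepD (D : Module.End k V) : Module.End k (ℤ → V) :=
  LinearMap.pi (fun i => D ∘ₗ (LinearMap.proj i : (ℤ → V) →ₗ[k] V) +
    (((i + 2) * (i + 1) : ℤ) : k) • (LinearMap.proj (i + 2) : (ℤ → V) →ₗ[k] V))

variable (k V) in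
/-- the grading -/
def stepW (p : ℕ) (r : ℤ) (W : ℤ → Submodule k V) (h : ℤ) : Submodule k (ℤ → V) where
  carrier := {w | ∀ i, w i ∈ W (h - i + r) ∧ (i < 0 ∨ (p : ℤ) ≤ i → w i = 0)}
  zero_mem' := fun i => ⟨zero_mem _, fun _ => rfl⟩
  add_mem' := by
    intro x y hx hy i
    refine ⟨add_mem (hx i).1 (hy i).1, fun hi => ?_⟩
    rw [Pi.add_apply, (hx i).2 hi, (hy i).2 hi, add_zero]
  smul_mem' := by
    intro c x hx i
    refine ⟨Submodule.smul_mem _ c (hx i).1, fun hi => ?_⟩
    rw [Pi.smul_apply, (hx i).2 hi, smul_zero]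

theorem stepF_apply (F : Module.End k V) (w : ℤ → V) (i : ℤ) :
    stepF k V p F w i = F (w i) + if i < (p : ℤ) then w (i - 2) else 0 := by
  unfold stepF
  rw [LinearMap.pi_apply, LinearMap.add_apply, LinearMap.comp_apply, LinearMap.proj_apply]
  split_ifs <;> rfl

theorem stepD_apply (D : Module.End k V) (w : ℤ → V) (i : ℤ) :
    stepD k V D w i = D (w i) + (((i + 2) * (i + 1) : ℤ) : k) • w (i + 2) := rfl

theorem mem_stepW {r : ℤ} {W : ℤ → Submodule k V} {h : ℤ} {w : ℤ → V} :
    w ∈ stepW k V p r W h ↔ ∀ i, w i ∈ W (h - i + r) ∧ (i < 0 ∨ (p : ℤ) ≤ i → w i = 0) := Iff.rfl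

theorem step_hF {r : ℤ} {F : Module.End k V} {W : ℤ → Submodule k V}
    (hF : ∀ h, ∀ w ∈ W h, F w ∈ W (h + 2)) (h : ℤ) (w : ℤ → V) (hw : w ∈ stepW k V p r W h) :
    stepF k V p F w ∈ stepW k V p r W (h + 2) := by
  intro i
  rw [stepF_apply]
  constructor
  · apply add_mem
    · have := hF _ _ (hw i).1
      have h2 : h - i + r + 2 = h + 2 - i + r := by ring
      rwa [h2] at this
    · split_ifs
      · have := (hw (i - 2)).1
        have h2 : h - (i - 2) + r = h + 2 - i + r := by ring
        rwa [h2] at this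
      · exact zero_mem _
  · intro hi
    rw [(hw i).2 hi, map_zero, zero_add]
    split_ifs with h3
    · exact (hw (i - 2)).2 (Or.inl (by omega))
    · rfl

theorem step_hD {r : ℤ} {D : Module.End k V} {W : ℤ → Submodule k V}
    (hD : ∀ h, ∀ w ∈ W h, D w ∈ W (h - 2)) (h : ℤ) (w : ℤ → V) (hw : w ∈ stepW k V p r W h) :
    stepD k V D w ∈ stepW k V p r W (h - 2) := by
  intro i
  rw [stepD_apply]
  constructor
  · apply add_mem
    · have := hD _ _ (hw i).1
      have h2 : h - i + r - 2 = h - 2 - i + r := by ring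
      rwa [h2] at this
    · apply Submodule.smul_mem
      have := (hw (i + 2)).1
      have h2 : h - (i + 2) + r = h - 2 - i + r := by ring
      rwa [h2] at this
  · intro hi
    rw [(hw i).2 hi, map_zero, zero_add]
    by_cases h3 : i + 2 < 0 ∨ (p : ℤ) ≤ i + 2
    · rw [(hw (i + 2)).2 h3, smul_zero]
    · have h4 : i = -1 ∨ i = -2 := by omega
      rcases h4 with rfl | rfl <;> simp

theorem step_hc {r : ℤ} (hr : (p : ℤ) = 2 * r + 1) [CharP k p] {F D : Module.End k V}
    {W : ℤ → Submodule k V} (hc : ∀ h, ∀ w ∈ W h, D (F w) = F (D w) + ((4 * h : ℤ) : k) • w)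
    (h : ℤ) (w : ℤ → V) (hw : w ∈ stepW k V p r W h) :
    stepD k V D (stepF k V p F w) = stepF k V p F (stepD k V D w) + ((4 * h : ℤ) : k) • w := by
  funext i
  rw [stepD_apply, stepF_apply, stepF_apply, Pi.add_apply, stepF_apply, stepD_apply, stepD_apply,
    Pi.smul_apply]
  have e1 : i + 2 - 2 = i := by ring
  have e2 : i - 2 + 2 = i := by ring
  rw [e1, e2]
  have hpk : ((p : ℤ) : k) = 0 := by
    rw [Int.cast_natCast]
    exact CharP.cast_eq_zero k p
  by_cases hi : i < 0 ∨ (p : ℤ) ≤ i
  · have hwi : w i = 0 := (hw i).2 hi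
    rw [hwi]
    have hwi2 : i < (p : ℤ) → w (i - 2) = 0 := fun h3 => (hw (i - 2)).2 (Or.inl (by omega))
    by_cases h3 : i < (p : ℤ)
    · rw [if_pos h3, if_pos h3, hwi2 h3]
      simp
    · rw [if_neg h3, if_neg h3]
      simp
  · push Not at hi
    have h1 := hc _ _ (hw i).1
    rw [if_pos hi.2, if_pos hi.2]
    have h2 : (((i + 2) * (i + 1) : ℤ) : k) • (if i + 2 < (p : ℤ) then w i else 0) =
        (((i + 2) * (i + 1) : ℤ) : k) • w i := by
      split_ifs with h3
      · rfl
      · have h4 : (((i + 2) * (i + 1) : ℤ) : k) = 0 := by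
          have h5 : i = p - 2 ∨ i = p - 1 := by omega
          rcases h5 with h5 | h5
          · have : i + 2 = p := by omega
            rw [this, Int.cast_mul, hpk, zero_mul]
          · have : i + 1 = p := by omega
            rw [this, Int.cast_mul, hpk, mul_zero]
        rw [h4, zero_smul, zero_smul]
    rw [map_add, h1, smul_add, h2, map_add, map_smul]
    have h3 : ((4 * (h - i + r) : ℤ) : k) • w i + (((i + 2) * (i + 1) : ℤ) : k) • w i =
        (((i - 2 + 2) * (i - 2 + 1) : ℤ) : k) • w i + ((4 * h : ℤ) : k) • w i := by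
      rw [← add_smul, ← add_smul, ← Int.cast_add, ← Int.cast_add]
      have h4 : (4 * (h - i + r) + (i + 2) * (i + 1) : ℤ) =
          (i - 2 + 2) * (i - 2 + 1) + 4 * h + 2 * (p : ℤ) := by
        rw [hr]
        ring
      rw [h4, Int.cast_add, Int.cast_mul 2, hpk, mul_zero, add_zero]
    have h5 : F (D (w i)) + ((4 * (h - i + r) : ℤ) : k) • w i + D (w (i - 2)) +
        ((((i + 2) * (i + 1) : ℤ) : k) • F (w (i + 2)) + (((i + 2) * (i + 1) : ℤ) : k) • w i) =
        F (D (w i)) + D (w (i - 2)) + (((i + 2) * (i + 1) : ℤ) : k) • F (w (i + 2)) +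
        (((4 * (h - i + r) : ℤ) : k) • w i + (((i + 2) * (i + 1) : ℤ) : k) • w i) := by
      abel
    rw [h5, h3]
    abel

/-- the truncated shift -/
noncomputable def shiftT (k V : Type*) [Field k] [AddCommGroup V] [Module k V] (p : ℕ) :
    Module.End k (ℤ → V) :=
  LinearMap.pi (fun i => if i < (p : ℤ) then (LinearMap.proj (i - 2) : (ℤ → V) →ₗ[k] V) else 0)

theorem shiftT_apply (w : ℤ → V) (i : ℤ) :
    shiftT k V p w i = if i < (p : ℤ) then w (i - 2) else 0 := by
  unfold shiftT
  rw [LinearMap.pi_apply]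
  split_ifs <;> rfl

/-- the pointwise operator -/
noncomputable def ptw (F : Module.End k V) : Module.End k (ℤ → V) :=
  LinearMap.pi (fun i => F ∘ₗ (LinearMap.proj i : (ℤ → V) →ₗ[k] V))

theorem ptw_apply (F : Module.End k V) (w : ℤ → V) (i : ℤ) : ptw F w i = F (w i) := rfl

theorem stepF_eq (F : Module.End k V) : stepF k V p F = ptw F + shiftT k V p := by
  apply LinearMap.ext
  intro w
  funext i
  rw [stepF_apply, LinearMap.add_apply, Pi.add_apply, ptw_apply, shiftT_apply]

theorem ptw_pow (F : Module.End k V) (n : ℕ) (w : ℤ → V) (i : ℤ) :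
    (ptw F ^ n) w i = (F ^ n) (w i) := by
  induction n with
  | zero => rfl
  | succ n ih => rw [pow_succ', pow_succ', Module.End.mul_apply, Module.End.mul_apply, ptw_apply, ih]

theorem shiftT_pow (n : ℕ) (w : ℤ → V) (i : ℤ) (hi : i < (p : ℤ)) :
    (shiftT k V p ^ n) w i = w (i - 2 * n) := by
  induction n generalizing i with
  | zero => simp
  | succ n ih =>
    rw [pow_succ', Module.End.mul_apply, shiftT_apply, if_pos hi, ih (i - 2) (by omega)]
    congr 1
    push_cast
    ring

theorem shiftT_pow' (n : ℕ) (hn : n ≠ 0) (w : ℤ → V) (i : ℤ) (hi : ¬ i < (p : ℤ)) :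
    (shiftT k V p ^ n) w i = 0 := by
  obtain ⟨m, rfl⟩ := Nat.exists_eq_succ_of_ne_zero hn
  rw [pow_succ', Module.End.mul_apply, shiftT_apply, if_neg hi]

theorem ptw_comm (F : Module.End k V) : Commute (ptw F) (shiftT k V p) := by
  apply LinearMap.ext
  intro w
  funext i
  rw [Module.End.mul_apply, Module.End.mul_apply, ptw_apply, shiftT_apply, shiftT_apply]
  split_ifs
  · rw [ptw_apply]
  · rw [map_zero]

theorem step_hp {r : ℤ} [Fact p.Prime] [CharP k p] {F : Module.End k V}
    {W : ℤ → Submodule k V} (hp : ∀ h, ∀ w ∈ W h, (F ^ p) w = 0)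
    (h : ℤ) (w : ℤ → V) (hw : w ∈ stepW k V p r W h) : (stepF k V p F ^ p) w = 0 := by
  have hpp : p.Prime := Fact.out
  obtain ⟨R, hR⟩ := (ptw_comm (p := p) F).exists_add_pow_prime_eq hpp
  have hp0 : ((p : ℕ) : Module.End k (ℤ → V)) = 0 := by
    apply LinearMap.ext
    intro v
    rw [Module.End.natCast_apply, LinearMap.zero_apply, ← Nat.cast_smul_eq_nsmul k,
      CharP.cast_eq_zero, zero_smul]
  rw [stepF_eq, hR, hp0, zero_mul, zero_mul, zero_mul, add_zero, LinearMap.add_apply]
  funext i
  rw [Pi.add_apply, ptw_pow, hp _ _ (hw i).1, zero_add]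
  by_cases hi : i < (p : ℤ)
  · rw [shiftT_pow _ _ _ hi]
    have hp0 := hpp.pos
    exact (hw _).2 (Or.inl (by omega))
  · rw [shiftT_pow' _ hpp.ne_zero _ _ hi]
    rfl

/-- the first coefficients of the powers -/
theorem stepF_pow_low {F : Module.End k V} (n : ℤ) (hn : n < (p : ℤ)) (L : ℕ) (w : ℤ → V)
    (hw : ∀ i < n, w i = 0) :
    (∀ i < n, (stepF k V p F ^ L) w i = 0) ∧ (stepF k V p F ^ L) w n = (F ^ L) (w n) := by
  induction L with
  | zero => exact ⟨hw, rfl⟩
  | succ L ih =>
    obtain ⟨ih1, ih2⟩ := ih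
    constructor
    · intro i hi
      rw [pow_succ', Module.End.mul_apply, stepF_apply, ih1 i hi, map_zero, zero_add,
        ih1 (i - 2) (by omega), ite_self]
    · rw [pow_succ', Module.End.mul_apply, stepF_apply, ih2, ih1 (n - 2) (by omega), ite_self,
        add_zero, pow_succ', Module.End.mul_apply]

/-- the low weights -/
theorem step_low {r : ℤ} [Fact p.Prime] [CharP k p] {F D : Module.End k V}
    {W : ℤ → Submodule k V} (G : Good p F D W) (L : ℕ) (hL : L ≤ p) (ν : ℤ)
    (hν : ν + L - 1 < - r) (w : ℤ → V) (hw : w ∈ stepW k V p r W ν)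
    (hw0 : (stepF k V p F ^ L) w = 0) :
    ∃ z ∈ stepW k V p r W (ν - 2 * (p - L)), (stepF k V p F ^ (p - L)) z = w := by
  have key : ∀ m : ℕ, m ≤ p → ∀ w ∈ stepW k V p r W ν, (stepF k V p F ^ L) w = 0 →
      (∀ i < (p : ℤ) - m, w i = 0) →
      ∃ z ∈ stepW k V p r W (ν - 2 * (p - L)), (stepF k V p F ^ (p - L)) z = w := by
    intro m
    induction m with
    | zero =>
      intro _ w hw _ hlow
      refine ⟨0, zero_mem _, ?_⟩
      rw [map_zero]
      funext i
      by_cases hi : i < (p : ℤ)
      · exact (hlow i (by simpa using hi)).symm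
      · exact ((hw i).2 (Or.inr (not_lt.mp hi))).symm
    | succ m ih =>
      intro hm w hw hw0 hlow
      set n : ℤ := (p : ℤ) - ((m + 1 : ℕ) : ℤ) with hn
      have hn1 : n < (p : ℤ) := by
        rw [hn]
        push_cast
        omega
      have hn0 : 0 ≤ n := by
        rw [hn]
        push_cast
        omega
      have h1 := (stepF_pow_low (F := F) n hn1 L w hlow).2
      rw [hw0, Pi.zero_apply] at h1
      have hh : ν + L - 1 - n + r < 0 := by omega
      have h2 : w n ∈ W (ν + L - 1 - n + r - (L - 1)) := by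
        have h3 : ν + L - 1 - n + r - (L - 1) = ν - n + r := by ring
        rw [h3]
        exact (hw n).1
      obtain ⟨zn, hzn, hzn'⟩ := G.hK L hL _ hh _ h2 h1.symm
      let ζ : ℤ → V := Pi.single n zn
      have hζ : ζ ∈ stepW k V p r W (ν - 2 * (p - L)) := by
        intro i
        by_cases hi : i = n
        · subst hi
          constructor
          · simp only [ζ, Pi.single_eq_same]
            have h3 : ν + L - 1 - n + r - (L - 1) - 2 * (p - L) =
              ν - 2 * (p - L) - n + r := by ring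
            rw [h3] at hzn
            exact hzn
          · intro h3
            omega
        · simp only [ζ, Pi.single_eq_of_ne hi]
          exact ⟨zero_mem _, fun _ => trivial⟩
      have hζlow : ∀ i < n, ζ i = 0 := by
        intro i hi
        exact Pi.single_eq_of_ne (by omega) _
      have h4 := stepF_pow_low (F := F) n hn1 (p - L) ζ hζlow
      have h5 : (stepF k V p F ^ (p - L)) ζ ∈ stepW k V p r W ν := by
        have h6 := powF (step_hF G.hF) (p - L) _ ζ hζ
        have h7 : ν - 2 * ((p : ℤ) - L) + 2 * ((p - L : ℕ) : ℤ) = ν := by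
          rw [Nat.cast_sub hL]
          ring
        rwa [h7] at h6
      have h6 : (stepF k V p F ^ L) (w - (stepF k V p F ^ (p - L)) ζ) = 0 := by
        rw [map_sub, hw0, ← Module.End.mul_apply, ← pow_add, Nat.add_sub_cancel' hL,
          step_hp G.hp _ ζ hζ, sub_zero]
      obtain ⟨z2, hz2, hz2'⟩ := ih (by omega) (w - (stepF k V p F ^ (p - L)) ζ)
        (sub_mem hw h5) h6 (by
          intro i hi
          rw [Pi.sub_apply]
          rcases lt_or_eq_of_le (show i ≤ n by rw [hn]; push_cast at hi ⊢; omega) with h7 | h7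
          · rw [hlow i h7, h4.1 i h7, sub_zero]
          · rw [h7, h4.2]
            simp only [ζ, Pi.single_eq_same]
            rw [hzn', sub_self])
      refine ⟨ζ + z2, add_mem hζ hz2, ?_⟩
      rw [map_add, hz2']
      abel
  refine key p le_rfl w hw hw0 ?_
  intro i hi
  exact (hw i).2 (Or.inl (by simpa using hi))

/-- the induction step -/
theorem Good.step {r : ℤ} [Fact p.Prime] [CharP k p] (hr : (p : ℤ) = 2 * r + 1) (hr0 : 0 < r)
    {F D : Module.End k V} {W : ℤ → Submodule k V} (G : Good p F D W) :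
    Good p (stepF k V p F) (stepD k V D) (stepW k V p r W) where
  hF := step_hF G.hF
  hD := step_hD G.hD
  hc := step_hc hr G.hc
  hp := step_hp G.hp
  hK := by
    have hpp : p.Prime := Fact.out
    have key : ∀ m : ℕ, ∀ h < 0, h + r < m → ∀ L : ℕ, L ≤ p →
        ∀ w ∈ stepW k V p r W (h - (L - 1)), (stepF k V p F ^ L) w = 0 →
        ∃ z ∈ stepW k V p r W (h - (L - 1) - 2 * (p - L)), (stepF k V p F ^ (p - L)) z = w := by
      intro m
      induction m with
      | zero =>
        intro h _ hm L hL w hw hw0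
        refine step_low G L hL _ ?_ w hw hw0
        push_cast at hm
        omega
      | succ m ih =>
        intro h hh hm L hL w hw hw0
        by_cases hlow : h < -r
        · exact step_low G L hL _ (by omega) w hw hw0
        push Not at hlow
        rcases Nat.eq_zero_or_pos L with h0 | h0
        · subst h0
          rw [pow_zero, Module.End.one_apply] at hw0
          refine ⟨0, zero_mem _, ?_⟩
          rw [map_zero, hw0]
        rcases eq_or_lt_of_le hL with h1 | h1
        · subst h1
          refine ⟨w, ?_, ?_⟩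
          · simpa using hw
          · rw [Nat.sub_self, pow_zero]
            rfl
        set F' := stepF k V p F with hF'
        set D' := stepD k V D with hD'
        have hF1 : ∀ h, ∀ w ∈ stepW k V p r W h, F' w ∈ stepW k V p r W (h + 2) := step_hF G.hF
        have hD1 : ∀ h, ∀ w ∈ stepW k V p r W h, D' w ∈ stepW k V p r W (h - 2) := step_hD G.hD
        have e1 := D_pow hF1 (step_hc hr G.hc) L _ w hw
        rw [hw0, map_zero] at e1
        have e2 : (4 * (L : ℤ) * (h - (L - 1) + L - 1)) = 4 * L * h := by ring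
        rw [e2] at e1
        have hne : ((4 * (L : ℤ) * h : ℤ) : k) ≠ 0 := by
          intro h2
          rw [CharP.intCast_eq_zero_iff k p] at h2
          have hpi : Prime (p : ℤ) := Nat.prime_iff_prime_int.mp hpp
          rcases hpi.dvd_or_dvd h2 with h3 | h3
          · rcases hpi.dvd_or_dvd h3 with h4 | h4
            · have h5 : (p : ℤ) ∣ 2 * 2 := by simpa using h4
              rcases hpi.dvd_or_dvd h5 with h6 | h6 <;>
                exact absurd (Int.le_of_dvd (by norm_num) h6) (by omega)
            · exact absurd (Int.le_of_dvd (by omega) h4) (by omega)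
          · have h4 : (p : ℤ) ∣ -h := (dvd_neg).mpr h3
            exact absurd (Int.le_of_dvd (by omega) h4) (by omega)
        set c : k := ((4 * (L : ℤ) * h : ℤ) : k) with hc
        -- `w' = w + c⁻¹ F D w` is killed by `F^(L-1)`
        have hFL : ∀ v, F' ((F' ^ (L - 1)) v) = (F' ^ L) v := by
          intro v
          rw [← Module.End.mul_apply, ← pow_succ', Nat.sub_add_cancel h0]
        have hFL' : ∀ v, (F' ^ (L - 1)) (F' v) = (F' ^ L) v := by
          intro v
          rw [← Module.End.mul_apply, ← pow_succ, Nat.sub_add_cancel h0]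
        have e3 : (F' ^ (L - 1)) (w + c⁻¹ • F' (D' w)) = 0 := by
          rw [map_add, map_smul, hFL']
          have e4 : (F' ^ L) (D' w) = - (c • (F' ^ (L - 1)) w) :=
            eq_neg_of_add_eq_zero_left e1.symm
          rw [e4, smul_neg, smul_smul, inv_mul_cancel₀ hne, one_smul, add_neg_cancel]
        have hDw : D' w ∈ stepW k V p r W (h - 1 - ((L + 1 : ℕ) - 1)) := by
          have h2 := hD1 _ _ hw
          have h3 : h - ((L : ℤ) - 1) - 2 = h - 1 - (((L + 1 : ℕ) : ℤ) - 1) := by
            push_cast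
            ring
          rwa [h3] at h2
        have hFDw : F' (D' w) ∈ stepW k V p r W (h - (L - 1)) := by
          have h2 := hF1 _ _ (hD1 _ _ hw)
          rwa [sub_add_cancel] at h2
        have hw1 : w + c⁻¹ • F' (D' w) ∈ stepW k V p r W (h - 1 - ((L - 1 : ℕ) - 1)) := by
          have h2 : h - 1 - (((L - 1 : ℕ) : ℤ) - 1) = h - ((L : ℤ) - 1) := by
            rw [Nat.cast_sub h0]
            push_cast
            ring
          rw [h2]
          exact add_mem hw (Submodule.smul_mem _ _ hFDw)
        obtain ⟨z1, hz1, hz1'⟩ := ih (h - 1) (by omega) (by push_cast at hm; omega) (L - 1)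
          (by omega) _ hw1 e3
        have e5 : (F' ^ (L + 1)) (D' w) = 0 := by
          have e4 : (F' ^ L) (D' w) = - (c • (F' ^ (L - 1)) w) :=
            eq_neg_of_add_eq_zero_left e1.symm
          rw [pow_succ', Module.End.mul_apply, e4, map_neg, map_smul, hFL, hw0, smul_zero, neg_zero]
        obtain ⟨z2, hz2, hz2'⟩ := ih (h - 1) (by omega) (by push_cast at hm; omega) (L + 1)
          (by omega) _ hDw e5
        refine ⟨F' z1 - c⁻¹ • z2, ?_, ?_⟩
        · apply sub_mem
          · have h2 := hF1 _ _ hz1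
            have h3 : h - 1 - (((L - 1 : ℕ) : ℤ) - 1) - 2 * ((p : ℤ) - ((L - 1 : ℕ) : ℤ)) + 2 =
                h - ((L : ℤ) - 1) - 2 * ((p : ℤ) - L) := by
              rw [Nat.cast_sub h0]
              push_cast
              ring
            rwa [h3] at h2
          · apply Submodule.smul_mem
            have h3 : h - 1 - (((L + 1 : ℕ) : ℤ) - 1) - 2 * ((p : ℤ) - ((L + 1 : ℕ) : ℤ)) =
                h - ((L : ℤ) - 1) - 2 * ((p : ℤ) - L) := by
              push_cast
              ring
            rwa [h3] at hz2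
        · have h2 : p - (L - 1) = p - L + 1 := by omega
          have h3 : p - L = p - (L + 1) + 1 := by omega
          have e6 : (F' ^ (p - L)) (F' z1) = w + c⁻¹ • F' (D' w) := by
            rw [← Module.End.mul_apply, ← pow_succ, ← h2, hz1']
          have e7 : (F' ^ (p - L)) z2 = F' (D' w) := by
            rw [h3, pow_succ', Module.End.mul_apply, hz2']
          rw [map_sub, map_smul, e6, e7]
          abel
    intro L hL h hh w hw hw0
    refine key (h + r + 1).toNat h hh ?_ L hL w hw hw0
    omega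

end step

end Pool.Agent.TH141
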