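import Pool.Agent.TH141.QuadA

/-!
# Truncated polynomials in several variables
-/

namespace Pool.Agent.TH141

section transport

variable {k V V' : Type*} [Field k] [AddCommGroup V] [Module k V] [AddCommGroup V'] [Module k V']
  {p : ℕ}

theorem Good.transport {F D : Module.End k V} {W : ℤ → Submodule k V} (G : Good p F D W)
    (e : V ≃ₗ[k] V') (F' D' : Module.End k V') (W' : ℤ → Submodule k V')
    (hF : ∀ v, F' (e v) = e (F v)) (hD : ∀ v, D' (e v) = e (D v))
    (hW : ∀ h v, e v ∈ W' h ↔ v ∈ W h) : Good p F' D' W' := by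
  have hpow : ∀ n v, (F' ^ n) (e v) = e ((F ^ n) v) := by
    intro n
    induction n with
    | zero => intro v; rfl
    | succ n ih =>
      intro v
      rw [pow_succ', pow_succ', Module.End.mul_apply, Module.End.mul_apply, ih, hF]
  have hs : ∀ w : V', ∃ v, e v = w := fun w => ⟨e.symm w, e.apply_symm_apply w⟩
  constructor
  · intro h w hw
    obtain ⟨v, rfl⟩ := hs w
    rw [hF, hW]
    exact G.hF h v ((hW h v).mp hw)
  · intro h w hw
    obtain ⟨v, rfl⟩ := hs w
    rw [hD, hW]
    exact G.hD h v ((hW h v).mp hw)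
  · intro h w hw
    obtain ⟨v, rfl⟩ := hs w
    rw [hF, hD, hD, hF, G.hc h v ((hW h v).mp hw), map_add, map_smul]
  · intro h w hw
    obtain ⟨v, rfl⟩ := hs w
    rw [hpow, G.hp h v ((hW h v).mp hw), map_zero]
  · intro L hL h hh w hw hw0
    obtain ⟨v, rfl⟩ := hs w
    rw [hpow, map_eq_zero_iff e e.injective] at hw0
    obtain ⟨z, hz, hz'⟩ := G.hK L hL h hh v ((hW _ v).mp hw) hw0
    exact ⟨e z, (hW _ z).mpr hz, by rw [hpow, hz']⟩

end transport

section many

variable (k : Type*) [Field k] (p : ℕ)

/-- the multiplication by the sum of squares, truncated at the exponent `p` -/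
noncomputable def FN (n : ℕ) : Module.End k ((Fin n → ℤ) → k) :=
  LinearMap.pi (fun β => ∑ j, if β j < (p : ℤ) then
    (LinearMap.proj (β - Pi.single j 2) : ((Fin n → ℤ) → k) →ₗ[k] k) else 0)

/-- the sum of the second derivatives -/
noncomputable def DN (n : ℕ) : Module.End k ((Fin n → ℤ) → k) :=
  LinearMap.pi (fun β => ∑ j, (((β j + 2) * (β j + 1) : ℤ) : k) •
    (LinearMap.proj (β + Pi.single j 2) : ((Fin n → ℤ) → k) →ₗ[k] k))

/-- the functions supported in the box, of the given weight -/
def WN (r : ℤ) (n : ℕ) (h : ℤ) : Submodule k ((Fin n → ℤ) → k) where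
  carrier := {w | ∀ β, w β ≠ 0 → (∀ j, 0 ≤ β j ∧ β j < (p : ℤ)) ∧ ∑ j, β j - n * r = h}
  zero_mem' := by
    intro β hβ
    exact absurd rfl hβ
  add_mem' := by
    intro x y hx hy β hβ
    by_cases h1 : x β = 0
    · apply hy
      rwa [Pi.add_apply, h1, zero_add] at hβ
    · exact hx β h1
  smul_mem' := by
    intro c x hx β hβ
    apply hx
    intro h1
    apply hβ
    rw [Pi.smul_apply, h1, smul_zero]

variable {k p}

theorem FN_apply (n : ℕ) (w : (Fin n → ℤ) → k) (β : Fin n → ℤ) :
    FN k p n w β = ∑ j, if β j < (p : ℤ) then w (β - Pi.single j 2) else 0 := by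
  unfold FN
  rw [LinearMap.pi_apply, LinearMap.sum_apply]
  apply Finset.sum_congr rfl
  intro j _
  split_ifs <;> rfl

theorem DN_apply (n : ℕ) (w : (Fin n → ℤ) → k) (β : Fin n → ℤ) :
    DN k n w β = ∑ j, (((β j + 2) * (β j + 1) : ℤ) : k) • w (β + Pi.single j 2) := by
  unfold DN
  rw [LinearMap.pi_apply, LinearMap.sum_apply]
  rfl

/-- the first variable is separated from the others -/
def consE (k : Type*) [Field k] (n : ℕ) :
    (ℤ → ((Fin n → ℤ) → k)) ≃ₗ[k] ((Fin (n + 1) → ℤ) → k) where
  toFun w := fun β => w (β 0) (fun j => β j.succ)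
  map_add' _ _ := rfl
  map_smul' _ _ := rfl
  invFun v := fun i γ => v (Fin.cons i γ)
  left_inv w := by
    funext i γ
    simp
  right_inv v := by
    funext β
    simp only
    congr 1
    exact Fin.cons_self_tail β

theorem consE_apply (n : ℕ) (w : ℤ → ((Fin n → ℤ) → k)) (β : Fin (n + 1) → ℤ) :
    consE k n w β = w (β 0) (fun j => β j.succ) := rfl

theorem good_many {r : ℤ} [Fact p.Prime] [CharP k p] (hr : (p : ℤ) = 2 * r + 1) (hr0 : 0 < r)
    (n : ℕ) : Good p (FN k p n) (DN k n) (WN k p r n) := by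
  have hpp : p.Prime := Fact.out
  induction n with
  | zero =>
    have hF0 : ∀ w, FN k p 0 w = 0 := by
      intro w
      funext β
      rw [FN_apply]
      simp
    have hD0 : ∀ w, DN k 0 w = 0 := by
      intro w
      funext β
      rw [DN_apply]
      simp
    have hW0 : ∀ h, h ≠ 0 → ∀ w ∈ WN k p r 0 h, w = 0 := by
      intro h hh w hw
      funext β
      by_contra h1
      have h2 := (hw β h1).2
      simp at h2
      exact hh h2.symm
    constructor
    · intro h w _
      rw [hF0]
      exact zero_mem _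
    · intro h w _
      rw [hD0]
      exact zero_mem _
    · intro h w hw
      rw [hF0, hD0, hD0, hF0, zero_add]
      rcases eq_or_ne h 0 with h0 | h0
      · rw [h0]
        simp
      · rw [hW0 h h0 w hw, smul_zero]
    · intro h w _
      obtain ⟨m, hm⟩ := Nat.exists_eq_succ_of_ne_zero hpp.ne_zero
      rw [hm, pow_succ', Module.End.mul_apply]
      rw [hm] at hF0
      exact hF0 _
    · intro L hL h hh w hw hw0
      rcases Nat.eq_zero_or_pos L with h0 | h0
      · subst h0
        rw [pow_zero, Module.End.one_apply] at hw0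
        exact ⟨0, zero_mem _, by rw [map_zero, hw0]⟩
      · have := hW0 _ (by omega) w hw
        exact ⟨0, zero_mem _, by rw [map_zero, this]⟩
  | succ n ih =>
    refine (ih.step hr hr0).transport (consE k n) _ _ _ ?_ ?_ ?_
    · intro w
      funext β
      rw [FN_apply, Fin.sum_univ_succ, consE_apply n (stepF k _ p (FN k p n) w) β, stepF_apply,
        Pi.add_apply, FN_apply, add_comm]
      congr 1
      · apply Finset.sum_congr rfl
        intro j _
        rw [consE_apply]
        have h1 : (β - Pi.single j.succ 2 : Fin (n + 1) → ℤ) 0 = β 0 := by simp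
        have h2 : (fun i : Fin n => (β - Pi.single j.succ 2 : Fin (n + 1) → ℤ) i.succ) =
            (fun i => β i.succ) - Pi.single j 2 := by
          funext i
          simp only [Pi.sub_apply, Pi.single_apply, Fin.succ_inj]
        rw [h1, h2]
      · rw [consE_apply]
        have h1 : (β - Pi.single 0 2 : Fin (n + 1) → ℤ) 0 = β 0 - 2 := by simp
        have h2 : (fun i : Fin n => (β - Pi.single 0 2 : Fin (n + 1) → ℤ) i.succ) =
            (fun i => β i.succ) := by
          funext i
          simp
        rw [h1, h2]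
        split_ifs <;> rfl
    · intro w
      funext β
      rw [DN_apply, Fin.sum_univ_succ, consE_apply n (stepD k _ (DN k n) w) β, stepD_apply,
        Pi.add_apply, DN_apply, add_comm]
      congr 1
      · apply Finset.sum_congr rfl
        intro j _
        rw [consE_apply]
        have h1 : (β + Pi.single j.succ 2 : Fin (n + 1) → ℤ) 0 = β 0 := by simp
        have h2 : (fun i : Fin n => (β + Pi.single j.succ 2 : Fin (n + 1) → ℤ) i.succ) =
            (fun i => β i.succ) + Pi.single j 2 := by
          funext i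
          simp only [Pi.add_apply, Pi.single_apply, Fin.succ_inj]
        rw [h1, h2]
      · rw [consE_apply]
        have h1 : (β + Pi.single 0 2 : Fin (n + 1) → ℤ) 0 = β 0 + 2 := by simp
        have h2 : (fun i : Fin n => (β + Pi.single 0 2 : Fin (n + 1) → ℤ) i.succ) =
            (fun i => β i.succ) := by
          funext i
          simp
        rw [h1, h2]
        rfl
    · intro h w
      constructor
      · intro hw i
        have hw' : ∀ γ : Fin n → ℤ, w i γ ≠ 0 → (∀ j, 0 ≤ (Fin.cons i γ : Fin (n + 1) → ℤ) j ∧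
            (Fin.cons i γ : Fin (n + 1) → ℤ) j < (p : ℤ)) ∧
            ∑ j, (Fin.cons i γ : Fin (n + 1) → ℤ) j - ((n + 1 : ℕ) : ℤ) * r = h := by
          intro γ hγ
          apply hw (Fin.cons i γ)
          rw [consE_apply]
          simpa using hγ
        constructor
        · intro γ hγ
          obtain ⟨h1, h2⟩ := hw' γ hγ
          constructor
          · intro j
            have := h1 j.succ
            simpa using this
          · rw [Fin.sum_univ_succ] at h2
            simp only [Fin.cons_zero, Fin.cons_succ] at h2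
            push_cast at h2
            linarith
        · intro hi
          funext γ
          by_contra hγ
          have := (hw' γ hγ).1 0
          rw [Fin.cons_zero] at this
          omega
      · intro hw β hβ
        rw [consE_apply] at hβ
        obtain ⟨h1, h2⟩ := hw (β 0)
        have h3 : 0 ≤ β 0 ∧ β 0 < (p : ℤ) := by
          by_contra hcon
          have h4 : β 0 < 0 ∨ (p : ℤ) ≤ β 0 := by omega
          rw [h2 h4] at hβ
          exact hβ rfl
        obtain ⟨h4, h5⟩ := h1 _ hβ
        constructor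
        · intro j
          refine Fin.cases h3 (fun i => h4 i) j
        · rw [Fin.sum_univ_succ]
          push_cast
          linarith

end many

section matrices

variable {k : Type*} [Field k] {p n : ℕ}

/-- the exponent of an element of the box -/
def vl (β : Fin n → Fin p) : Fin n → ℤ := fun i => ((β i : ℕ) : ℤ)

theorem vl_inj {β γ : Fin n → Fin p} (h : vl β = vl γ) : β = γ := by
  funext i
  have := congrFun h i
  unfold vl at this
  apply Fin.ext
  exact_mod_cast this

/-- the weight -/
def wt (r : ℤ) (β : Fin n → Fin p) : ℤ := ∑ j, vl β j - n * r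

variable (k p n) in
/-- the matrix of the truncated multiplication by the sum of squares -/
noncomputable def Fm : Matrix (Fin n → Fin p) (Fin n → Fin p) k :=
  Matrix.of (fun γ β => ∑ j, if vl γ = vl β + Pi.single j 2 then 1 else 0)

theorem Fm_apply (γ β : Fin n → Fin p) :
    Fm k p n γ β = ∑ j, if vl γ = vl β + Pi.single j 2 then 1 else 0 := rfl

/-- the extension by zero -/
noncomputable def hat (w : (Fin n → Fin p) → k) : (Fin n → ℤ) → k :=
  fun x => ∑ β, if vl β = x then w β else 0

theorem hat_vl (w : (Fin n → Fin p) → k) (β : Fin n → Fin p) : hat w (vl β) = w β := by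
  unfold hat
  rw [Finset.sum_eq_single β]
  · rw [if_pos rfl]
  · intro γ _ hγ
    rw [if_neg (fun h => hγ (vl_inj h))]
  · simp

theorem exists_vl {x : Fin n → ℤ} (h : ∀ j, 0 ≤ x j ∧ x j < (p : ℤ)) :
    ∃ β : Fin n → Fin p, vl β = x := by
  refine ⟨fun j => ⟨(x j).toNat, by have := h j; omega⟩, ?_⟩
  funext j
  unfold vl
  have := h j
  simp only
  omega

theorem vl_box (β : Fin n → Fin p) (j : Fin n) : 0 ≤ vl β j ∧ vl β j < (p : ℤ) := by
  unfold vl
  have := (β j).isLt
  omega

theorem hat_out (w : (Fin n → Fin p) → k) (x : Fin n → ℤ)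
    (h : ¬ ∀ j, 0 ≤ x j ∧ x j < (p : ℤ)) : hat w x = 0 := by
  unfold hat
  apply Finset.sum_eq_zero
  intro β _
  rw [if_neg]
  rintro rfl
  exact h (vl_box β)

theorem hat_inj {w w' : (Fin n → Fin p) → k} (h : hat w = hat w') : w = w' := by
  funext β
  rw [← hat_vl w, ← hat_vl w', h]

theorem hat_restrict {v : (Fin n → ℤ) → k} (hv : ∀ x, v x ≠ 0 → ∀ j, 0 ≤ x j ∧ x j < (p : ℤ)) :
    hat (fun β : Fin n → Fin p => v (vl β)) = v := by
  funext x
  by_cases h : ∀ j, 0 ≤ x j ∧ x j < (p : ℤ)
  · obtain ⟨β, rfl⟩ := exists_vl h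
    rw [hat_vl]
  · rw [hat_out _ _ h]
    by_contra h2
    exact h (hv x (fun h3 => h2 h3.symm))

theorem FN_hat (w : (Fin n → Fin p) → k) : FN k p n (hat w) = hat ((Fm k p n).mulVec w) := by
  funext x
  rw [FN_apply]
  by_cases h : ∀ j, 0 ≤ x j ∧ x j < (p : ℤ)
  · obtain ⟨γ, rfl⟩ := exists_vl h
    rw [hat_vl]
    unfold Matrix.mulVec dotProduct
    simp only [Fm_apply, Finset.sum_mul]
    rw [Finset.sum_comm]
    apply Finset.sum_congr rfl
    intro j _
    rw [if_pos (vl_box γ j).2]
    unfold hat
    apply Finset.sum_congr rfl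
    intro β _
    have h1 : vl β = vl γ - Pi.single j 2 ↔ vl γ = vl β + Pi.single j 2 := by
      rw [eq_sub_iff_add_eq]
      exact eq_comm
    by_cases h2 : vl γ = vl β + Pi.single j 2
    · rw [if_pos h2, if_pos (h1.mpr h2), one_mul]
    · rw [if_neg h2, if_neg (fun h3 => h2 (h1.mp h3)), zero_mul]
  · rw [hat_out _ _ h]
    apply Finset.sum_eq_zero
    intro j _
    split_ifs with h1
    · apply hat_out
      intro h2
      apply h
      intro i
      have h3 := h2 i
      by_cases hij : i = j
      · subst hij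
        simp only [Pi.sub_apply, Pi.single_eq_same] at h3
        omega
      · simp only [Pi.sub_apply, Pi.single_eq_of_ne hij, sub_zero] at h3
        exact h3
    · rfl

/-- the kernel below the middle lies in the image -/
theorem ker_low {r : ℤ} [Fact p.Prime] [CharP k p] (hr : (p : ℤ) = 2 * r + 1) (hr0 : 0 < r)
    (h : ℤ) (hh : h < 0) (w : (Fin n → Fin p) → k) (hw : ∀ β, w β ≠ 0 → wt r β = h)
    (hw0 : (Fm k p n).mulVec w = 0) : ∃ z, (Fm k p n).mulVec z = w := by
  have G := good_many (k := k) hr hr0 n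
  have h1 : hat w ∈ WN k p r n (h - ((1 : ℕ) - 1)) := by
    intro x hx
    by_cases h2 : ∀ j, 0 ≤ x j ∧ x j < (p : ℤ)
    · obtain ⟨γ, rfl⟩ := exists_vl h2
      rw [hat_vl] at hx
      refine ⟨h2, ?_⟩
      have := hw γ hx
      unfold wt at this
      rw [this]
      simp
    · exact absurd (hat_out _ _ h2) hx
  have h2 : (FN k p n ^ 1) (hat w) = 0 := by
    rw [pow_one, FN_hat, hw0]
    funext x
    unfold hat
    simp
  have hp3 : 3 ≤ p := by omega
  obtain ⟨z, hz, hz'⟩ := G.hK 1 (by omega) h hh _ h1 h2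
  have h3 := powF G.hF (p - 2) _ z hz
  refine ⟨fun β => ((FN k p n ^ (p - 2)) z) (vl β), ?_⟩
  apply hat_inj
  rw [← FN_hat, hat_restrict (fun x hx => (h3 x hx).1), ← Module.End.mul_apply, ← pow_succ']
  have h4 : p - 2 + 1 = p - 1 := by omega
  rw [h4, hz']

theorem exists_inv {V : Type*} [AddCommGroup V] [Module k V] (F : V →ₗ[k] V) (W : Submodule k V)
    (h : ∀ w ∈ W, F w = 0 → ∃ z, F z = w) :
    ∃ A B : V →ₗ[k] V, ∀ w ∈ W, F (A w) + B (F w) = w := by
  obtain ⟨C, hC⟩ := Submodule.exists_isCompl (LinearMap.ker (F.domRestrict W))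
  have hinj : LinearMap.ker ((F.domRestrict W).domRestrict C) = ⊥ := by
    rw [LinearMap.ker_eq_bot']
    intro c hc
    have h1 : (c : W) ∈ LinearMap.ker (F.domRestrict W) := hc
    have h2 : (c : W) ∈ LinearMap.ker (F.domRestrict W) ⊓ C := ⟨h1, c.2⟩
    rw [hC.inf_eq_bot, Submodule.mem_bot] at h2
    exact Subtype.ext h2
  obtain ⟨g, hg⟩ := LinearMap.exists_leftInverse_of_injective _ hinj
  let B : V →ₗ[k] V := W.subtype ∘ₗ C.subtype ∘ₗ g
  have hB : ∀ w ∈ W, F (w - B (F w)) = 0 ∧ w - B (F w) ∈ W := by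
    intro w hw
    have h1 : (⟨w, hw⟩ : W) ∈ LinearMap.ker (F.domRestrict W) ⊔ C := by
      rw [hC.sup_eq_top]
      trivial
    obtain ⟨a, ha, c, hc, hac⟩ := Submodule.mem_sup.mp h1
    have h2 : F (a : V) = 0 := ha
    have h3 : w = (a : V) + (c : V) := by
      have := congrArg (Subtype.val) hac
      exact this.symm
    have h4 : F w = (F.domRestrict W).domRestrict C ⟨c, hc⟩ := by
      rw [h3, map_add, h2, zero_add]
      rfl
    have h5 : g (F w) = ⟨c, hc⟩ := by
      rw [h4]
      exact LinearMap.congr_fun hg ⟨c, hc⟩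
    have h6 : B (F w) = (c : V) := by
      change ((g (F w) : C) : W).1 = _
      rw [h5]
    have h7 : w - B (F w) = (a : V) := by
      rw [h6, h3, add_sub_cancel_right]
    rw [h7]
    exact ⟨h2, a.2⟩
  obtain ⟨s, hs⟩ := LinearMap.exists_rightInverse_of_surjective F.rangeRestrict
    (LinearMap.range_rangeRestrict F)
  obtain ⟨S, hS⟩ := LinearMap.exists_extend s
  have hFS : ∀ y ∈ LinearMap.range F, F (S y) = y := by
    intro y hy
    have h1 : S y = s ⟨y, hy⟩ := LinearMap.congr_fun hS ⟨y, hy⟩
    rw [h1]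
    have h2 := LinearMap.congr_fun hs ⟨y, hy⟩
    exact congrArg Subtype.val h2
  refine ⟨S ∘ₗ (LinearMap.id - B ∘ₗ F), B, ?_⟩
  intro w hw
  obtain ⟨h1, h2⟩ := hB w hw
  obtain ⟨z, hz⟩ := h _ h2 h1
  have h3 : F ((S ∘ₗ (LinearMap.id - B ∘ₗ F)) w) = w - B (F w) := by
    change F (S (w - B (F w))) = _
    exact hFS _ ⟨z, hz⟩
  rw [h3]
  abel

end matrices

end Pool.Agent.TH141
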