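import Pool.Agent.TH141.QuadB

/-!
# The identity `1 = F A + B F + (middle)` on truncated polynomials
-/

namespace Pool.Agent.TH141

section matrices

variable {k : Type*} [Field k] {p n : ℕ}

theorem Fm_ne {r : ℤ} {γ β : Fin n → Fin p} (h : Fm k p n γ β ≠ 0) : wt r γ = wt r β + 2 := by
  rw [Fm_apply] at h
  obtain ⟨j, _, hj⟩ := Finset.exists_ne_zero_of_sum_ne_zero h
  have h1 : vl γ = vl β + Pi.single j 2 := by
    by_contra h2
    rw [if_neg h2] at hj
    exact hj rfl
  unfold wt
  rw [h1]
  simp only [Pi.add_apply, Finset.sum_add_distrib, Finset.sum_pi_single', Finset.mem_univ, if_true]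
  ring

/-- the reversal of the exponents -/
def rv (β : Fin n → Fin p) : Fin n → Fin p := fun i => Fin.rev (β i)

theorem rv_rv (β : Fin n → Fin p) : rv (rv β) = β := by
  funext i
  unfold rv
  rw [Fin.rev_rev]

theorem vl_rv (β : Fin n → Fin p) (i : Fin n) : vl (rv β) i = (p : ℤ) - 1 - vl β i := by
  unfold vl rv
  rw [Fin.val_rev]
  have := (β i).isLt
  omega

theorem wt_rv {r : ℤ} (hr : (p : ℤ) = 2 * r + 1) (β : Fin n → Fin p) : wt r (rv β) = - wt r β := by
  unfold wt
  simp only [vl_rv, Finset.sum_sub_distrib]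
  simp only [Finset.sum_const, Finset.card_univ, Fintype.card_fin, nsmul_eq_mul, mul_one]
  rw [hr]
  ring

theorem Fm_rv (γ β : Fin n → Fin p) : Fm k p n (rv β) (rv γ) = Fm k p n γ β := by
  rw [Fm_apply, Fm_apply]
  apply Finset.sum_congr rfl
  intro j _
  have h : vl (rv β) = vl (rv γ) + Pi.single j 2 ↔ vl γ = vl β + Pi.single j 2 := by
    constructor
    · intro h
      funext i
      have h1 := congrFun h i
      rw [Pi.add_apply, vl_rv, vl_rv] at h1
      rw [Pi.add_apply]
      linarith
    · intro h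
      funext i
      have h1 := congrFun h i
      rw [Pi.add_apply] at h1
      rw [Pi.add_apply, vl_rv, vl_rv]
      linarith
  simp only [h]

/-- the low half -/
theorem low_matrices {r : ℤ} [Fact p.Prime] [CharP k p] (hr : (p : ℤ) = 2 * r + 1)
    (hr0 : 0 < r) : ∃ A B : Matrix (Fin n → Fin p) (Fin n → Fin p) k,
      (∀ γ β, A γ β ≠ 0 → wt r γ = wt r β - 2) ∧ (∀ γ β, B γ β ≠ 0 → wt r γ = wt r β - 2) ∧
      ∀ γ β, (Fm k p n * A + B * Fm k p n) γ β = if wt r β < 0 ∧ γ = β then 1 else 0 := by
  classical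
  have h1 : ∀ h : ℤ, ∃ A B : Matrix (Fin n → Fin p) (Fin n → Fin p) k,
      h < 0 → ∀ β, wt r β = h → ∀ γ, (Fm k p n * A) γ β + (B * Fm k p n) γ β =
        if γ = β then 1 else 0 := by
    intro h
    by_cases hh : h < 0
    · let W : Submodule k ((Fin n → Fin p) → k) :=
        { carrier := {w | ∀ β, w β ≠ 0 → wt r β = h}
          zero_mem' := fun β hβ => absurd rfl hβ
          add_mem' := by
            intro x y hx hy β hβ
            by_cases h1 : x β = 0
            · apply hy
              rwa [Pi.add_apply, h1, zero_add] at hβ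
            · exact hx β h1
          smul_mem' := by
            intro c x hx β hβ
            apply hx
            intro h1
            apply hβ
            rw [Pi.smul_apply, h1, smul_zero] }
      obtain ⟨A, B, hAB⟩ := exists_inv (Fm k p n).mulVecLin W (by
        intro w hw hw0
        exact ker_low hr hr0 h hh w hw hw0)
      refine ⟨LinearMap.toMatrix' A, LinearMap.toMatrix' B, fun _ β hβ γ => ?_⟩
      have h2 := hAB (Pi.single β 1) (by
        intro γ hγ
        by_cases h3 : γ = β
        · rw [h3, hβ]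
        · exact absurd (Pi.single_eq_of_ne h3 _) hγ)
      have h3 := congrFun h2 γ
      rw [Pi.add_apply, Matrix.mulVecLin_apply, Matrix.mulVecLin_apply,
        ← LinearMap.toMatrix'_mulVec A, ← LinearMap.toMatrix'_mulVec B, Matrix.mulVec_mulVec,
        Matrix.mulVec_mulVec, Matrix.mulVec_single_one, Matrix.mulVec_single_one] at h3
      rw [Pi.single_apply] at h3
      exact h3
    · exact ⟨0, 0, fun h2 => absurd h2 hh⟩
  choose Am Bm hAB using h1
  refine ⟨Matrix.of (fun γ β => if wt r β < 0 ∧ wt r γ = wt r β - 2 then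
      Am (wt r β) γ β else 0),
    Matrix.of (fun γ β => if wt r γ < 0 ∧ wt r γ = wt r β - 2 then Bm (wt r γ) γ β else 0),
    ?_, ?_, ?_⟩
  · intro γ β h
    by_contra h2
    apply h
    rw [Matrix.of_apply, if_neg (fun h3 => h2 h3.2)]
  · intro γ β h
    by_contra h2
    apply h
    rw [Matrix.of_apply, if_neg (fun h3 => h2 h3.2)]
  · intro γ β
    rw [Matrix.add_apply, Matrix.mul_apply, Matrix.mul_apply]
    simp only [Matrix.of_apply]
    by_cases hβ : wt r β < 0
    · by_cases hγ : wt r γ = wt r β
      · have h2 := hAB (wt r β) hβ β rfl γ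
        rw [Matrix.mul_apply, Matrix.mul_apply] at h2
        have e1 : ∀ δ, (Fm k p n γ δ * if wt r β < 0 ∧ wt r δ = wt r β - 2 then
            Am (wt r β) δ β else 0) = Fm k p n γ δ * Am (wt r β) δ β := by
          intro δ
          by_cases h3 : Fm k p n γ δ = 0
          · rw [h3, zero_mul, zero_mul]
          · have h4 := Fm_ne (r := r) h3
            rw [if_pos ⟨hβ, by omega⟩]
        have e2 : ∀ δ, ((if wt r γ < 0 ∧ wt r γ = wt r δ - 2 then
            Bm (wt r γ) γ δ else 0) * Fm k p n δ β) = Bm (wt r β) γ δ * Fm k p n δ β := by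
          intro δ
          by_cases h3 : Fm k p n δ β = 0
          · rw [h3, mul_zero, mul_zero]
          · have h4 := Fm_ne (r := r) h3
            rw [if_pos ⟨by omega, by omega⟩, hγ]
        simp only [e1, e2]
        rw [h2]
        simp [hβ]
      · have e1 : ∀ δ, (Fm k p n γ δ * if wt r β < 0 ∧ wt r δ = wt r β - 2 then
            Am (wt r β) δ β else 0) = 0 := by
          intro δ
          by_cases h3 : Fm k p n γ δ = 0
          · rw [h3, zero_mul]
          · have h4 := Fm_ne (r := r) h3
            rw [if_neg (fun h5 => hγ (by omega)), mul_zero]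
        have e2 : ∀ δ, ((if wt r γ < 0 ∧ wt r γ = wt r δ - 2 then
            Bm (wt r γ) γ δ else 0) * Fm k p n δ β) = 0 := by
          intro δ
          by_cases h3 : Fm k p n δ β = 0
          · rw [h3, mul_zero]
          · have h4 := Fm_ne (r := r) h3
            rw [if_neg (fun h5 => hγ (by omega)), zero_mul]
        simp only [e1, e2, Finset.sum_const_zero, add_zero]
        rw [if_neg]
        rintro ⟨_, rfl⟩
        exact hγ rfl
    · have e1 : ∀ δ, (Fm k p n γ δ * if wt r β < 0 ∧ wt r δ = wt r β - 2 then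
          Am (wt r β) δ β else 0) = 0 := by
        intro δ
        rw [if_neg (fun h5 => hβ h5.1), mul_zero]
      have e2 : ∀ δ, ((if wt r γ < 0 ∧ wt r γ = wt r δ - 2 then
          Bm (wt r γ) γ δ else 0) * Fm k p n δ β) = 0 := by
        intro δ
        by_cases h3 : Fm k p n δ β = 0
        · rw [h3, mul_zero]
        · have h4 := Fm_ne (r := r) h3
          rw [if_neg (fun h5 => hβ (by omega)), zero_mul]
      simp only [e1, e2, Finset.sum_const_zero, add_zero]
      rw [if_neg (fun h => hβ h.1)]

/-- The identity `1 = F A + B F + (middle)`. -/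
theorem mid_matrices {r : ℤ} [Fact p.Prime] [CharP k p] (hr : (p : ℤ) = 2 * r + 1)
    (hr0 : 0 < r) : ∃ A B : Matrix (Fin n → Fin p) (Fin n → Fin p) k,
      (∀ γ β, A γ β ≠ 0 → wt r γ = wt r β - 2) ∧ (∀ γ β, B γ β ≠ 0 → wt r γ = wt r β - 2) ∧
      Fm k p n * A + B * Fm k p n + Matrix.diagonal (fun β => if wt r β = 0 then 1 else 0) = 1 := by
  classical
  obtain ⟨A, B, hA, hB, hAB⟩ := low_matrices (k := k) (n := n) hr hr0
  refine ⟨Matrix.of (fun γ β => A γ β + B (rv β) (rv γ)),
    Matrix.of (fun γ β => B γ β + A (rv β) (rv γ)), ?_, ?_, ?_⟩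
  · intro γ β h
    rw [Matrix.of_apply] at h
    by_cases h1 : A γ β = 0
    · rw [h1, zero_add] at h
      have h2 := hB _ _ h
      rw [wt_rv hr, wt_rv hr] at h2
      omega
    · exact hA _ _ h1
  · intro γ β h
    rw [Matrix.of_apply] at h
    by_cases h1 : B γ β = 0
    · rw [h1, zero_add] at h
      have h2 := hA _ _ h
      rw [wt_rv hr, wt_rv hr] at h2
      omega
    · exact hB _ _ h1
  · have hrev : ∀ (f : (Fin n → Fin p) → k), ∑ δ, f (rv δ) = ∑ δ, f δ := by
      intro f
      apply Finset.sum_nbij' rv rv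
      · intros; exact Finset.mem_univ _
      · intros; exact Finset.mem_univ _
      · intro a _; exact rv_rv a
      · intro a _; exact rv_rv a
      · intros; rfl
    have e1 : ∀ γ β, ∑ δ, Fm k p n γ δ * B (rv β) (rv δ) = (B * Fm k p n) (rv β) (rv γ) := by
      intro γ β
      rw [Matrix.mul_apply, ← hrev]
      apply Finset.sum_congr rfl
      intro δ _
      rw [← Fm_rv γ (rv δ), rv_rv, mul_comm]
    have e2 : ∀ γ β, ∑ δ, A (rv δ) (rv γ) * Fm k p n δ β = (Fm k p n * A) (rv β) (rv γ) := by
      intro γ β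
      rw [Matrix.mul_apply, ← hrev]
      apply Finset.sum_congr rfl
      intro δ _
      rw [← Fm_rv (rv δ) β, rv_rv, mul_comm]
    ext γ β
    rw [Matrix.add_apply, Matrix.add_apply, Matrix.mul_apply, Matrix.mul_apply]
    simp only [Matrix.of_apply, mul_add, add_mul, Finset.sum_add_distrib]
    rw [e1, e2]
    have h1 := hAB γ β
    have h2 := hAB (rv β) (rv γ)
    rw [Matrix.add_apply, Matrix.mul_apply, Matrix.mul_apply] at h1
    rw [Matrix.add_apply] at h2
    have h3 : ∑ x, Fm k p n γ x * A x β + (B * Fm k p n) (rv β) (rv γ) +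
        (∑ x, B γ x * Fm k p n x β + (Fm k p n * A) (rv β) (rv γ)) =
        (∑ x, Fm k p n γ x * A x β + ∑ x, B γ x * Fm k p n x β) +
        ((Fm k p n * A) (rv β) (rv γ) + (B * Fm k p n) (rv β) (rv γ)) := by
      ring
    rw [h3, h1, h2, Matrix.diagonal_apply, Matrix.one_apply]
    by_cases hγβ : γ = β
    · subst hγβ
      rw [wt_rv hr]
      rcases lt_trichotomy (wt r γ) 0 with h | h | h
      · simp [h, h.ne, h.le]
      · simp [h]
      · have h5 : ¬ (wt r γ < 0) := by omega
        simp [h, h5, h.ne']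
    · have h4 : ¬ rv β = rv γ := by
        intro h
        apply hγβ
        have := congrArg rv h
        rw [rv_rv, rv_rv] at this
        exact this.symm
      simp [hγβ, h4]

end matrices

end Pool.Agent.TH141
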