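import Pool.Agent.TH141.QuadC
import Pool.Agent.TH141.Lau

/-!
# Operators on Laurent polynomials, homogeneous and with poles controlled
-/

namespace Pool.Agent.TH141

section ops

variable {k : Type*} [Field k] {n : ℕ}

/-- the sum of the squares of the variables -/
noncomputable def qF (k : Type*) [Field k] (n : ℕ) : Lau k (Fin n) := ∑ i, mo k (Pi.single i 2)

/-- the homogeneous Laurent polynomials of degree `d` -/
def hd (k : Type*) [Field k] (n : ℕ) (d : ℤ) : Submodule k (Lau k (Fin n)) :=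
  supp k {ν | ∑ i, ν i = d}

theorem mo_hd (ν : Fin n → ℤ) : mo k ν ∈ hd k n (∑ i, ν i) := mo_mem rfl

theorem hd_mul {d e : ℤ} {x y : Lau k (Fin n)} (hx : x ∈ hd k n d) (hy : y ∈ hd k n e) :
    x * y ∈ hd k n (d + e) := by
  refine mul_mem_supp ?_ hx hy
  intro a ha b hb
  simp only [Set.mem_ofPred_eq, Pi.add_apply, Finset.sum_add_distrib] at ha hb ⊢
  rw [ha, hb]

theorem qF_hd : qF k n ∈ hd k n 2 := by
  unfold qF
  apply Submodule.sum_mem
  intro i _
  apply mo_mem
  simp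

theorem qF_pow_hd (m : ℕ) : qF k n ^ m ∈ hd k n (2 * m) := by
  induction m with
  | zero =>
    rw [pow_zero, ← mo_zero]
    apply mo_mem
    simp
  | succ m ih =>
    rw [pow_succ]
    have := hd_mul ih (qF_hd (k := k) (n := n))
    have h2 : 2 * (m : ℤ) + 2 = 2 * ((m + 1 : ℕ) : ℤ) := by push_cast; ring
    rwa [h2] at this

theorem qF_pol (S : Set (Fin n)) : qF k n ∈ pol k S := by
  unfold qF
  apply Submodule.sum_mem
  intro i _
  apply mo_mem
  intro v hv
  exfalso
  rw [Pi.single_apply] at hv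
  split_ifs at hv <;> omega

/-- an operator linear over the exponents divisible by `q`, of degree `d`, that adds poles along
the variables of `S` only -/
structure Op (q : ℕ) (d : ℤ) (S : Set (Fin n)) (T : Lau k (Fin n) →ₗ[k] Lau k (Fin n)) :
    Prop where
  ql : QLin q T
  po : ∀ U, S ⊆ U → ∀ w ∈ pol k U, T w ∈ pol k U
  ho : ∀ e, ∀ w ∈ hd k n e, T w ∈ hd k n (e + d)

theorem Op.add {q : ℕ} {d : ℤ} {S : Set (Fin n)} {T U : Lau k (Fin n) →ₗ[k] Lau k (Fin n)}
    (h : Op q d S T) (h' : Op q d S U) : Op q d S (T + U) :=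
  ⟨h.ql.add h'.ql, fun V hV w hw => Submodule.add_mem _ (h.po V hV w hw) (h'.po V hV w hw),
    fun e w hw => Submodule.add_mem _ (h.ho e w hw) (h'.ho e w hw)⟩

theorem Op.sub {q : ℕ} {d : ℤ} {S : Set (Fin n)} {T U : Lau k (Fin n) →ₗ[k] Lau k (Fin n)}
    (h : Op q d S T) (h' : Op q d S U) : Op q d S (T - U) :=
  ⟨h.ql.sub h'.ql, fun V hV w hw => Submodule.sub_mem _ (h.po V hV w hw) (h'.po V hV w hw),
    fun e w hw => Submodule.sub_mem _ (h.ho e w hw) (h'.ho e w hw)⟩

theorem Op.neg {q : ℕ} {d : ℤ} {S : Set (Fin n)} {T : Lau k (Fin n) →ₗ[k] Lau k (Fin n)}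
    (h : Op q d S T) : Op q d S (-T) :=
  ⟨h.ql.neg, fun V hV w hw => Submodule.neg_mem _ (h.po V hV w hw),
    fun e w hw => Submodule.neg_mem _ (h.ho e w hw)⟩

theorem Op.zero (q : ℕ) (d : ℤ) (S : Set (Fin n)) :
    Op q d S (0 : Lau k (Fin n) →ₗ[k] Lau k (Fin n)) :=
  ⟨QLin.zero q, fun _ _ _ _ => Submodule.zero_mem _, fun _ _ _ => Submodule.zero_mem _⟩

theorem Op.smul {q : ℕ} {d : ℤ} {S : Set (Fin n)} {T : Lau k (Fin n) →ₗ[k] Lau k (Fin n)}
    (c : k) (h : Op q d S T) : Op q d S (c • T) :=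
  ⟨fun w u => by rw [LinearMap.smul_apply, LinearMap.smul_apply, h.ql, mul_smul_comm],
    fun V hV w hw => Submodule.smul_mem _ c (h.po V hV w hw),
    fun e w hw => Submodule.smul_mem _ c (h.ho e w hw)⟩

theorem Op.zsmul {q : ℕ} {d : ℤ} {S : Set (Fin n)} {T : Lau k (Fin n) →ₗ[k] Lau k (Fin n)}
    (c : ℤ) (h : Op q d S T) : Op q d S (c • T) := by
  have : c • T = ((c : ℤ) : k) • T := (Int.cast_smul_eq_zsmul k c T).symm
  rw [this]
  exact h.smul _

theorem Op.sum {q : ℕ} {d : ℤ} {S : Set (Fin n)} {I : Type*} (s : Finset I)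
    (T : I → (Lau k (Fin n) →ₗ[k] Lau k (Fin n))) (h : ∀ i ∈ s, Op q d S (T i)) :
    Op q d S (∑ i ∈ s, T i) := by
  classical
  induction s using Finset.induction_on with
  | empty => rw [Finset.sum_empty]; exact Op.zero q d S
  | insert a s ha ih =>
    rw [Finset.sum_insert ha]
    exact (h a (Finset.mem_insert_self _ _)).add (ih (fun i hi => h i (Finset.mem_insert_of_mem hi)))

theorem Op.comp {q : ℕ} {d d' : ℤ} {S : Set (Fin n)} {T U : Lau k (Fin n) →ₗ[k] Lau k (Fin n)}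
    (h : Op q d S T) (h' : Op q d' S U) : Op q (d' + d) S (T ∘ₗ U) :=
  ⟨h.ql.comp h'.ql, fun V hV w hw => h.po V hV _ (h'.po V hV w hw),
    fun e w hw => by
      rw [← add_assoc]
      exact h.ho _ _ (h'.ho e w hw)⟩

theorem Op.deg {q : ℕ} {d d' : ℤ} {S : Set (Fin n)} {T : Lau k (Fin n) →ₗ[k] Lau k (Fin n)}
    (h : Op q d S T) (hdd : d = d') : Op q d' S T := hdd ▸ h

theorem Op.mono {q : ℕ} {d : ℤ} {S S' : Set (Fin n)} {T : Lau k (Fin n) →ₗ[k] Lau k (Fin n)}
    (h : Op q d S T) (hS : S ⊆ S') : Op q d S' T :=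
  ⟨h.ql, fun V hV => h.po V (hS.trans hV), h.ho⟩

theorem Op.level {q : ℕ} {d : ℤ} {S : Set (Fin n)} {T : Lau k (Fin n) →ₗ[k] Lau k (Fin n)}
    (h : Op q d S T) (r : ℕ) : Op (q * r) d S T :=
  ⟨h.ql.mono, h.po, h.ho⟩

theorem Op.levelp {p e e' : ℕ} {d : ℤ} {S : Set (Fin n)} {T : Lau k (Fin n) →ₗ[k] Lau k (Fin n)}
    (h : Op (p ^ e) d S T) (hee : e ≤ e') : Op (p ^ e') d S T := by
  obtain ⟨c, rfl⟩ := Nat.exists_eq_add_of_le hee
  rw [pow_add]
  exact h.level _

theorem Op.of {q : ℕ} {d : ℤ} {S : Set (Fin n)} {T : Lau k (Fin n) →ₗ[k] Lau k (Fin n)}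
    (ql : ∀ w ν, T (mo k (q • w + ν)) = mo k (q • w) * T (mo k ν))
    (po : ∀ U, S ⊆ U → ∀ ν ∈ NegAt U, T (mo k ν) ∈ pol k U)
    (ho : ∀ ν, T (mo k ν) ∈ hd k n ((∑ i, ν i) + d)) : Op q d S T :=
  ⟨QLin.of_mo ql, fun U hU w hw => map_supp (pol k U) T (po U hU) hw,
    fun e w hw => map_supp (hd k n (e + d)) T (fun ν hν => by
      have := ho ν
      have h2 : ∑ i, ν i = e := hν
      rwa [h2] at this) hw⟩

theorem Op.mulL (q : ℕ) {d : ℤ} {S : Set (Fin n)} {x : Lau k (Fin n)} (h1 : x ∈ pol k S)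
    (h2 : x ∈ hd k n d) : Op q d S (LinearMap.mulLeft k x) :=
  ⟨QLin.mulLeft q x, fun _ hU _ hw => pol_mul (pol_mono hU h1) hw,
    fun e w hw => by
      rw [add_comm]
      exact hd_mul h2 hw⟩

theorem Op.mulF (q : ℕ) (S : Set (Fin n)) : Op q 2 S (LinearMap.mulLeft k (qF k n)) :=
  Op.mulL q (qF_pol S) qF_hd

theorem Op.mulFpow (q : ℕ) (m : ℕ) (S : Set (Fin n)) :
    Op q (2 * m) S (LinearMap.mulLeft k (qF k n ^ m)) :=
  Op.mulL q (pol_pow (qF_pol S) m) (qF_pow_hd m)

/-- the quotients of the exponents -/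
def quo (q : ℕ) (ν : Fin n → ℤ) : Fin n → ℤ := fun i => ν i / (q : ℤ)

/-- the residues of the exponents -/
def res (q : ℕ) (ν : Fin n → ℤ) : Fin n → ℤ := fun i => ν i % (q : ℤ)

theorem quo_res (q : ℕ) (ν : Fin n → ℤ) : q • quo q ν + res q ν = ν := by
  funext i
  rw [Pi.add_apply, smul_ap]
  exact Int.mul_ediv_add_emod (ν i) q

theorem quo_add {q : ℕ} (hq : 0 < q) (w ν : Fin n → ℤ) : quo q (q • w + ν) = w + quo q ν := by
  have hq' : ((q : ℕ) : ℤ) ≠ 0 := by exact_mod_cast hq.ne'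
  funext i
  unfold quo
  rw [Pi.add_apply, Pi.add_apply, smul_ap, add_comm, Int.add_mul_ediv_left _ _ hq', add_comm]

theorem res_add (q : ℕ) (w ν : Fin n → ℤ) : res q (q • w + ν) = res q ν := by
  funext i
  unfold res
  rw [Pi.add_apply, smul_ap, add_comm, Int.add_mul_emod_self_left]

theorem sum_quo_res (q : ℕ) (ν : Fin n → ℤ) :
    ∑ i, ν i = q * ∑ i, quo q ν i + ∑ i, res q ν i := by
  conv_lhs => rw [← quo_res q ν]
  simp only [Pi.add_apply, smul_ap, Finset.sum_add_distrib, Finset.mul_sum]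

theorem res_nonneg {q : ℕ} (hq : 0 < q) (ν : Fin n → ℤ) (i : Fin n) : 0 ≤ res q ν i :=
  Int.emod_nonneg _ (by exact_mod_cast hq.ne')

theorem res_lt {q : ℕ} (hq : 0 < q) (ν : Fin n → ℤ) (i : Fin n) : res q ν i < q :=
  Int.emod_lt_of_pos _ (by exact_mod_cast hq)

theorem quo_neg {q : ℕ} {U : Set (Fin n)} {ν : Fin n → ℤ} (hν : ν ∈ NegAt U) :
    quo q ν ∈ NegAt U := by
  intro i hi
  apply hν
  by_contra h
  have := Int.ediv_nonneg (not_lt.mp h) (Int.natCast_nonneg q)
  unfold quo at hi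
  omega

theorem qsmul_neg {q : ℕ} {U : Set (Fin n)} {ν : Fin n → ℤ} (hν : ν ∈ NegAt U) :
    q • ν ∈ NegAt U := by
  intro i hi
  apply hν
  by_contra h
  rw [smul_ap] at hi
  have := mul_nonneg (Int.natCast_nonneg q) (not_lt.mp h)
  omega

/-- the projections to sets of exponents defined by the residues -/
theorem Op.proj {q : ℕ} {A : Set (Fin n → ℤ)} (hA : ∀ w ν, q • w + ν ∈ A ↔ ν ∈ A) :
    Op q 0 ∅ (proj k A) := by
  apply Op.of
  · intro w ν
    by_cases h : ν ∈ A
    · rw [proj_mo_mem h, proj_mo_mem ((hA w ν).mpr h), mo_add]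
    · rw [proj_mo_notMem h, proj_mo_notMem (fun h2 => h ((hA w ν).mp h2)), mul_zero]
  · intro U _ ν hν
    by_cases h : ν ∈ A
    · rw [proj_mo_mem h]
      exact mo_mem hν
    · rw [proj_mo_notMem h]
      exact zero_mem _
  · intro ν
    rw [add_zero]
    by_cases h : ν ∈ A
    · rw [proj_mo_mem h]
      exact mo_hd ν
    · rw [proj_mo_notMem h]
      exact zero_mem _

theorem qF_pow (p e : ℕ) [Fact p.Prime] [CharP k p] :
    qF k n ^ p ^ e = ∑ i, mo k ((p ^ e) • Pi.single i 2) := by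
  have : CharP (Lau k (Fin n)) p :=
    charP_of_injective_algebraMap (algebraMap k (Lau k (Fin n))).injective p
  unfold qF
  rw [sum_pow_char_pow]
  simp only [mo_nsmul]

/-- the derivative with respect to the `q`-th power of the variable `j` -/
noncomputable def dX (k : Type*) [Field k] {n : ℕ} (q : ℕ) (j : Fin n) :
    Lau k (Fin n) →ₗ[k] Lau k (Fin n) :=
  ofMo (fun ν => ((quo q ν j : ℤ) : k) • mo k (ν - q • Pi.single j 1))

theorem dX_op (p q : ℕ) (hq : 0 < q) [CharP k p] (j : Fin n) : Op (q * p) (-q) ∅ (dX k q j) := by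
  apply Op.of
  · intro w ν
    unfold dX
    rw [ofMo_mo, ofMo_mo]
    have h1 : quo q ((q * p) • w + ν) j = p * w j + quo q ν j := by
      rw [mul_smul, quo_add hq, Pi.add_apply, smul_ap]
    rw [h1, Int.cast_add, Int.cast_mul, Int.cast_natCast, CharP.cast_eq_zero k p, zero_mul,
      zero_add, mul_smul_comm, ← mo_add, add_sub_assoc]
  · intro U _ ν hν
    unfold dX
    rw [ofMo_mo]
    by_cases h0 : quo q ν j = 0
    · rw [h0, Int.cast_zero, zero_smul]
      exact zero_mem _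
    · apply Submodule.smul_mem
      apply mo_mem
      intro i hi
      by_contra hiU
      have h1 : 0 ≤ ν i := by
        by_contra h2
        exact hiU (hν i (not_le.mp h2))
      rw [Pi.sub_apply, smul_ap] at hi
      by_cases hij : i = j
      · subst hij
        rw [Pi.single_eq_same, mul_one] at hi
        exact h0 (Int.ediv_eq_zero_of_lt h1 (by omega))
      · rw [Pi.single_eq_of_ne hij, mul_zero, sub_zero] at hi
        omega
  · intro ν
    unfold dX
    rw [ofMo_mo]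
    apply Submodule.smul_mem
    apply mo_mem
    simp only [Set.mem_ofPred_eq, Pi.sub_apply, smul_ap, Finset.sum_sub_distrib, ← Finset.mul_sum,
      Finset.sum_pi_single', Finset.mem_univ, if_true]
    ring

theorem dX_comm (p e : ℕ) [Fact p.Prime] [CharP k p] (j : Fin n) (w : Lau k (Fin n)) :
    dX k (p ^ e) j (qF k n ^ p ^ e * w) = qF k n ^ p ^ e * dX k (p ^ e) j w +
      (2 : k) • (mo k ((p ^ e) • Pi.single j 1) * w) := by
  have hq : 0 < p ^ e := pow_pos (Fact.out : p.Prime).pos e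
  have h : dX k (p ^ e) j ∘ₗ LinearMap.mulLeft k (qF k n ^ p ^ e) =
      LinearMap.mulLeft k (qF k n ^ p ^ e) ∘ₗ dX k (p ^ e) j +
        (2 : k) • LinearMap.mulLeft k (mo k ((p ^ e) • Pi.single j 1)) := by
    apply lin_ext
    intro ν
    rw [LinearMap.add_apply, LinearMap.comp_apply, LinearMap.comp_apply, LinearMap.mulLeft_apply,
      LinearMap.mulLeft_apply, LinearMap.smul_apply, LinearMap.mulLeft_apply, qF_pow,
      Finset.sum_mul, map_sum]
    have h1 : ∀ i, dX k (p ^ e) j (mo k ((p ^ e) • Pi.single i 2) * mo k ν) =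
        mo k ((p ^ e) • Pi.single i 2) * dX k (p ^ e) j (mo k ν) +
          (if i = j then (2 : k) • (mo k ((p ^ e) • Pi.single j 1) * mo k ν) else 0) := by
      intro i
      rw [← mo_add]
      unfold dX
      rw [ofMo_mo, ofMo_mo, quo_add hq, Pi.add_apply, Int.cast_add, add_smul, add_comm]
      congr 1
      · rw [mul_smul_comm, ← mo_add, add_sub_assoc]
      · split_ifs with hij
        · subst hij
          have h3 : (p ^ e) • (Pi.single i (2 : ℤ) : Fin n → ℤ) =
              (p ^ e) • Pi.single i 1 + (p ^ e) • Pi.single i 1 := by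
            rw [← smul_add, ← Pi.single_add]
            rfl
          have h4 : (p ^ e) • (Pi.single i (2 : ℤ) : Fin n → ℤ) + ν - (p ^ e) • Pi.single i 1 =
              (p ^ e) • Pi.single i 1 + ν := by
            rw [h3]
            abel
          rw [Pi.single_eq_same, ← mo_add, h4, Int.cast_ofNat]
        · rw [Pi.single_eq_of_ne (fun h => hij h.symm), Int.cast_zero, zero_smul]
    simp only [h1]
    rw [Finset.sum_add_distrib, Finset.sum_mul]
    simp
  have h2 := LinearMap.congr_fun h w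
  rw [LinearMap.add_apply, LinearMap.comp_apply, LinearMap.comp_apply, LinearMap.mulLeft_apply,
    LinearMap.mulLeft_apply, LinearMap.smul_apply, LinearMap.mulLeft_apply] at h2
  exact h2

end ops

section frob

variable {k : Type*} [Field k] {n : ℕ}

/-- the substitution of the `q`-th powers for the variables -/
noncomputable def expq (k : Type*) [Field k] {n : ℕ} (q : ℕ) : Lau k (Fin n) →ₗ[k] Lau k (Fin n) :=
  ofMo (fun ν => mo k (q • ν))

theorem expq_mo (q : ℕ) (ν : Fin n → ℤ) : expq k q (mo k ν) = mo k (q • ν) := ofMo_mo _ ν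

theorem expq_mul (q : ℕ) (x y : Lau k (Fin n)) : expq k q (x * y) = expq k q x * expq k q y := by
  have h1 : ∀ ν, expq k q ∘ₗ LinearMap.mulLeft k (mo k ν) =
      LinearMap.mulLeft k (mo k (q • ν)) ∘ₗ (expq k q : Lau k (Fin n) →ₗ[k] Lau k (Fin n)) := by
    intro ν
    apply lin_ext
    intro μ
    rw [LinearMap.comp_apply, LinearMap.comp_apply, LinearMap.mulLeft_apply,
      LinearMap.mulLeft_apply, expq_mo, ← mo_add, expq_mo, smul_add, mo_add]
  have h2 : expq k q ∘ₗ LinearMap.mulRight k y =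
      LinearMap.mulRight k (expq k q y) ∘ₗ (expq k q : Lau k (Fin n) →ₗ[k] Lau k (Fin n)) := by
    apply lin_ext
    intro ν
    rw [LinearMap.comp_apply, LinearMap.comp_apply, LinearMap.mulRight_apply,
      LinearMap.mulRight_apply, expq_mo]
    exact LinearMap.congr_fun (h1 ν) y
  exact LinearMap.congr_fun h2 x

theorem expq_qF (p e : ℕ) [Fact p.Prime] [CharP k p] :
    expq k (p ^ e) (qF k n) = qF k n ^ p ^ e := by
  rw [qF_pow]
  unfold qF
  rw [map_sum]
  simp only [expq_mo]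

/-- the operator `T` in the `q`-th powers of the variables -/
noncomputable def frobX (q : ℕ) (T : Lau k (Fin n) →ₗ[k] Lau k (Fin n)) :
    Lau k (Fin n) →ₗ[k] Lau k (Fin n) :=
  ofMo (fun ν => mo k (res q ν) * expq k q (T (mo k (quo q ν))))

theorem frobX_mo (q : ℕ) (T : Lau k (Fin n) →ₗ[k] Lau k (Fin n)) (ν : Fin n → ℤ) :
    frobX q T (mo k ν) = mo k (res q ν) * expq k q (T (mo k (quo q ν))) := ofMo_mo _ ν

theorem frobX_op {q q' : ℕ} (hq : 0 < q) {d : ℤ} {T : Lau k (Fin n) →ₗ[k] Lau k (Fin n)}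
    (h : Op q' d ∅ T) : Op (q * q') (q * d) ∅ (frobX q T) := by
  apply Op.of
  · intro w ν
    rw [frobX_mo, frobX_mo, mul_smul, quo_add hq, res_add, mo_add, h.ql, expq_mul, expq_mo]
    ring
  · intro U hU ν hν
    rw [frobX_mo]
    apply pol_mul
    · apply mo_mem
      intro i hi
      exact absurd (res_nonneg hq ν i) (not_le.mpr hi)
    · have h1 := h.po U hU _ (mo_mem (k := k) (quo_neg (q := q) hν))
      refine map_supp (pol k U) (expq k q) ?_ h1
      intro μ hμ
      rw [expq_mo]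
      exact mo_mem (qsmul_neg hμ)
  · intro ν
    rw [frobX_mo]
    have h1 := h.ho _ _ (mo_hd (k := k) (quo q ν))
    have h2 : expq k q (T (mo k (quo q ν))) ∈ hd k n (q * ((∑ i, quo q ν i) + d)) := by
      refine map_supp (hd k n (q * ((∑ i, quo q ν i) + d))) (expq k q) ?_ h1
      intro μ hμ
      rw [expq_mo]
      apply mo_mem
      simp only [Set.mem_ofPred_eq, smul_ap, ← Finset.mul_sum] at hμ ⊢
      rw [hμ]
    have h3 := hd_mul (mo_hd (k := k) (res q ν)) h2
    have h4 : ∑ i, res q ν i + q * ((∑ i, quo q ν i) + d) = ∑ i, ν i + q * d := by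
      rw [sum_quo_res q ν]
      ring
    rwa [h4] at h3

/-- the identity `f α + β f = 1` in degree `d` gives one in the `q`-th powers -/
theorem frobX_id (p e : ℕ) [Fact p.Prime] [CharP k p] {α β : Lau k (Fin n) →ₗ[k] Lau k (Fin n)}
    {d : ℤ} (h : ∀ u ∈ hd k n d, qF k n * α u + β (qF k n * u) = u) {u : Lau k (Fin n)}
    (hu : u ∈ supp k {ν | ∑ i, quo (p ^ e) ν i = d}) :
    qF k n ^ p ^ e * frobX (p ^ e) α u + frobX (p ^ e) β (qF k n ^ p ^ e * u) = u := by
  have hq : 0 < p ^ e := pow_pos (Fact.out : p.Prime).pos e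
  have h1 := eq_on_supp (LinearMap.mulLeft k (qF k n ^ p ^ e) ∘ₗ frobX (p ^ e) α +
    frobX (p ^ e) β ∘ₗ LinearMap.mulLeft k (qF k n ^ p ^ e)) LinearMap.id ?_ hu
  · exact h1
  · intro ν hν
    rw [LinearMap.add_apply, LinearMap.comp_apply, LinearMap.comp_apply, LinearMap.mulLeft_apply,
      LinearMap.mulLeft_apply, LinearMap.id_apply, frobX_mo]
    have h2 : frobX (p ^ e) β (qF k n ^ p ^ e * mo k ν) =
        mo k (res (p ^ e) ν) * expq k (p ^ e) (β (qF k n * mo k (quo (p ^ e) ν))) := by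
      rw [qF_pow, Finset.sum_mul, map_sum]
      unfold qF
      rw [Finset.sum_mul, map_sum, map_sum, Finset.mul_sum]
      apply Finset.sum_congr rfl
      intro i _
      rw [← mo_add, frobX_mo, quo_add hq, res_add, mo_add]
    rw [h2, ← expq_qF]
    have h3 : expq k (p ^ e) (qF k n) * (mo k (res (p ^ e) ν) *
        expq k (p ^ e) (α (mo k (quo (p ^ e) ν)))) =
        mo k (res (p ^ e) ν) * expq k (p ^ e) (qF k n * α (mo k (quo (p ^ e) ν))) := by
      rw [expq_mul]
      ring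
    rw [h3, ← mul_add, ← map_add, h _ (mo_mem hν), expq_mo, ← mo_add, add_comm, quo_res]

end frob

end Pool.Agent.TH141
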