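import Pool.Agent.TH141.QuadD

/-!
# The splitting `1 = f α + β f` in every degree
-/

namespace Pool.Agent.TH141

section mat

variable {k : Type*} [Field k] {n : ℕ} {p : ℕ} [hp : Fact p.Prime]

/-- the digits of the exponents -/
def dig (p : ℕ) [Fact p.Prime] (ν : Fin n → ℤ) : Fin n → Fin p := fun i =>
  ⟨(ν i % (p : ℤ)).toNat, by
    have hp : 0 < p := (Fact.out : p.Prime).pos
    have h1 := Int.emod_nonneg (ν i) (show (p : ℤ) ≠ 0 by exact_mod_cast hp.ne')
    have h2 := Int.emod_lt_of_pos (ν i) (show (0 : ℤ) < p by exact_mod_cast hp)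
    omega⟩

theorem vl_dig (ν : Fin n → ℤ) : vl (dig p ν) = res p ν := by
  have hp : 0 < p := (Fact.out : p.Prime).pos
  funext i
  unfold vl dig
  exact Int.toNat_of_nonneg (res_nonneg hp ν i)

theorem eq_dig (ν : Fin n → ℤ) : ν = vl (dig p ν) + p • quo p ν := by
  rw [vl_dig, add_comm, quo_res]

theorem res_vl (γ : Fin n → Fin p) : res p (vl γ) = vl γ := by
  funext i
  have := vl_box γ i
  exact Int.emod_eq_of_lt this.1 this.2

theorem quo_vl (γ : Fin n → Fin p) : quo p (vl γ) = 0 := by
  funext i
  have := vl_box γ i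
  exact Int.ediv_eq_zero_of_lt this.1 this.2

theorem dig_vl (γ : Fin n → Fin p) (w : Fin n → ℤ) : dig p (vl γ + p • w) = γ := by
  apply vl_inj
  rw [vl_dig, add_comm, res_add, res_vl]

theorem quo_vl_add (γ : Fin n → Fin p) (w : Fin n → ℤ) : quo p (vl γ + p • w) = w := by
  rw [add_comm, quo_add hp.out.pos, quo_vl, add_zero]

/-- the operator given by a matrix on the digits -/
noncomputable def ofMat (M : Matrix (Fin n → Fin p) (Fin n → Fin p) k) :
    Lau k (Fin n) →ₗ[k] Lau k (Fin n) :=
  ofMo (fun ν => ∑ γ, M γ (dig p ν) • mo k (vl γ + p • quo p ν))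

theorem ofMat_mo (M : Matrix (Fin n → Fin p) (Fin n → Fin p) k) (ν : Fin n → ℤ) :
    ofMat M (mo k ν) = ∑ γ, M γ (dig p ν) • mo k (vl γ + p • quo p ν) := ofMo_mo _ ν

theorem ofMat_vl (M : Matrix (Fin n → Fin p) (Fin n → Fin p) k) (γ : Fin n → Fin p)
    (w : Fin n → ℤ) : ofMat M (mo k (vl γ + p • w)) = ∑ δ, M δ γ • mo k (vl δ + p • w) := by
  rw [ofMat_mo, dig_vl, quo_vl_add]

theorem ofMat_mul (M N : Matrix (Fin n → Fin p) (Fin n → Fin p) k) :
    ofMat (M * N) = ofMat M ∘ₗ ofMat N := by
  apply lin_ext
  intro ν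
  rw [LinearMap.comp_apply, ofMat_mo, ofMat_mo, map_sum]
  simp only [map_smul, ofMat_vl, Matrix.mul_apply, Finset.sum_smul, Finset.smul_sum]
  rw [Finset.sum_comm]
  apply Finset.sum_congr rfl
  intro δ _
  apply Finset.sum_congr rfl
  intro γ _
  rw [smul_smul, mul_comm]

theorem ofMat_add (M N : Matrix (Fin n → Fin p) (Fin n → Fin p) k) :
    ofMat (M + N) = ofMat M + ofMat N := by
  apply lin_ext
  intro ν
  rw [LinearMap.add_apply, ofMat_mo, ofMat_mo, ofMat_mo, ← Finset.sum_add_distrib]
  apply Finset.sum_congr rfl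
  intro γ _
  rw [Matrix.add_apply, add_smul]

theorem ofMat_diag (f : (Fin n → Fin p) → k) (ν : Fin n → ℤ) :
    ofMat (Matrix.diagonal f) (mo k ν) = f (dig p ν) • mo k ν := by
  classical
  rw [ofMat_mo, Finset.sum_eq_single (dig p ν)]
  · rw [Matrix.diagonal_apply_eq, ← eq_dig]
  · intro γ _ hγ
    rw [Matrix.diagonal_apply_ne _ hγ, zero_smul]
  · simp

theorem ofMat_op {M : Matrix (Fin n → Fin p) (Fin n → Fin p) k} {d : ℤ}
    (hM : ∀ γ β, M γ β ≠ 0 → ∑ i, vl γ i = ∑ i, vl β i + d) : Op p d ∅ (ofMat M) := by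
  apply Op.of
  · intro w ν
    have h1 : dig p (p • w + ν) = dig p ν := by
      apply vl_inj
      rw [vl_dig, vl_dig, res_add]
    rw [ofMat_mo, ofMat_mo, h1, quo_add hp.out.pos, Finset.mul_sum]
    apply Finset.sum_congr rfl
    intro γ _
    rw [mul_smul_comm, ← mo_add]
    congr 2
    rw [smul_add]
    abel
  · intro U _ ν hν
    rw [ofMat_mo]
    apply Submodule.sum_mem
    intro γ _
    apply Submodule.smul_mem
    apply mo_mem
    intro i hi
    apply quo_neg (q := p) hν
    rw [Pi.add_apply, smul_ap] at hi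
    have h1 := (vl_box γ i).1
    by_contra h2
    have := mul_nonneg (Int.natCast_nonneg p) (not_lt.mp h2)
    omega
  · intro ν
    rw [ofMat_mo]
    apply Submodule.sum_mem
    intro γ _
    by_cases h : M γ (dig p ν) = 0
    · rw [h, zero_smul]
      exact zero_mem _
    · apply Submodule.smul_mem
      apply mo_mem
      have h1 := hM _ _ h
      rw [vl_dig] at h1
      simp only [Set.mem_ofPred_eq, Pi.add_apply, smul_ap, Finset.sum_add_distrib,
        ← Finset.mul_sum]
      rw [h1, sum_quo_res p ν]
      ring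

/-- the overflow of the multiplication by the square of a variable -/
noncomputable def Ov (k : Type*) [Field k] (p n : ℕ) (j : Fin n) :
    Matrix (Fin n → Fin p) (Fin n → Fin p) k :=
  Matrix.of (fun γ β => if vl γ + p • Pi.single j 1 = vl β + Pi.single j 2 then 1 else 0)

theorem mulF_eq (hp3 : 3 ≤ p) (u : Lau k (Fin n)) :
    qF k n * u = ofMat (Fm k p n) u +
      ∑ j, mo k (p • Pi.single j 1) * ofMat (Ov k p n j) u := by
  classical
  have h : LinearMap.mulLeft k (qF k n) = ofMat (Fm k p n) +
      ∑ j, LinearMap.mulLeft k (mo k (p • Pi.single j 1)) ∘ₗ ofMat (Ov k p n j) := by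
    apply lin_ext
    intro ν
    rw [LinearMap.mulLeft_apply, LinearMap.add_apply, LinearMap.sum_apply]
    simp only [LinearMap.comp_apply, LinearMap.mulLeft_apply, ofMat_mo, Fm_apply, Finset.sum_smul]
    rw [Finset.sum_comm, ← Finset.sum_add_distrib]
    unfold qF
    rw [Finset.sum_mul]
    apply Finset.sum_congr rfl
    intro j _
    rw [← mo_add, Finset.mul_sum]
    set β := dig p ν with hβ
    set w := quo p ν with hw
    have hν : ν = vl β + p • w := eq_dig ν
    by_cases h1 : vl β j + 2 < p
    · obtain ⟨γ, hγ⟩ : ∃ γ : Fin n → Fin p, vl γ = vl β + Pi.single j 2 := by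
        apply exists_vl
        intro i
        have := vl_box β i
        rw [Pi.add_apply]
        by_cases hij : i = j
        · subst hij
          rw [Pi.single_eq_same]
          omega
        · rw [Pi.single_eq_of_ne hij]
          omega
      rw [Finset.sum_eq_single γ, if_pos hγ, one_smul, hγ, Finset.sum_eq_zero, add_zero]
      · congr 1
        rw [hν]
        abel
      · intro δ _
        have h2 : Ov k p n j δ β = 0 := by
          unfold Ov
          rw [Matrix.of_apply, if_neg]
          intro h3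
          have h4 := congrFun h3 j
          rw [Pi.add_apply, Pi.add_apply, smul_ap, Pi.single_eq_same, Pi.single_eq_same] at h4
          have := vl_box δ j
          omega
        rw [h2, zero_smul, mul_zero]
      · intro δ _ hδ
        rw [if_neg, zero_smul]
        intro h3
        exact hδ (vl_inj (h3.trans hγ.symm))
      · simp
    · obtain ⟨γ, hγ⟩ : ∃ γ : Fin n → Fin p, vl γ =
          vl β + Pi.single j 2 - p • Pi.single j 1 := by
        apply exists_vl
        intro i
        have := vl_box β i
        rw [Pi.sub_apply, Pi.add_apply, smul_ap]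
        by_cases hij : i = j
        · subst hij
          rw [Pi.single_eq_same, Pi.single_eq_same]
          omega
        · rw [Pi.single_eq_of_ne hij, Pi.single_eq_of_ne hij]
          omega
      rw [Finset.sum_eq_zero, zero_add, Finset.sum_eq_single γ]
      · have h2 : Ov k p n j γ β = 1 := by
          unfold Ov
          rw [Matrix.of_apply, if_pos]
          rw [hγ]
          abel
        rw [h2, one_smul, ← mo_add, hγ]
        congr 1
        rw [hν]
        abel
      · intro δ _ hδ
        have h2 : Ov k p n j δ β = 0 := by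
          unfold Ov
          rw [Matrix.of_apply, if_neg]
          intro h3
          apply hδ
          apply vl_inj
          rw [hγ, ← h3]
          abel
        rw [h2, zero_smul, mul_zero]
      · simp
      · intro δ _
        rw [if_neg, zero_smul]
        intro h3
        have h4 := congrFun h3 j
        rw [Pi.add_apply, Pi.single_eq_same] at h4
        have := vl_box δ j
        omega
  have h2 := LinearMap.congr_fun h u
  rw [LinearMap.mulLeft_apply, LinearMap.add_apply, LinearMap.sum_apply] at h2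
  exact h2

/-- the exponents whose residues have the middle weight -/
def midS (p n : ℕ) (r : ℤ) : Set (Fin n → ℤ) := {ν | ∑ i, res p ν i = n * r}

theorem midS_inv (p : ℕ) (r : ℤ) (w ν : Fin n → ℤ) : p • w + ν ∈ midS p n r ↔ ν ∈ midS p n r := by
  unfold midS
  rw [Set.mem_ofPred_eq, Set.mem_ofPred_eq, res_add]

theorem wt_sum {r : ℤ} {γ β : Fin n → Fin p} {d : ℤ} (h : wt r γ = wt r β + d) :
    ∑ i, vl γ i = ∑ i, vl β i + d := by
  unfold wt at h
  omega

/-- the splitting modulo the `p`-th powers of the variables -/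
theorem level_one {r : ℤ} [CharP k p] (hr : (p : ℤ) = 2 * r + 1) (hr0 : 0 < r) :
    ∃ (α β : Lau k (Fin n) →ₗ[k] Lau k (Fin n)) (g : Fin n → (Lau k (Fin n) →ₗ[k] Lau k (Fin n))),
      Op p (-2) ∅ α ∧ Op p (-2) ∅ β ∧ (∀ j, Op p (-p) ∅ (g j)) ∧
      ∀ u, qF k n * α u + β (qF k n * u) + proj k (midS p n r) u =
        u + ∑ j, mo k (p • Pi.single j 1) * g j u := by
  classical
  obtain ⟨A, B, hA, hB, hAB⟩ := mid_matrices (k := k) (n := n) hr hr0
  have hp3 : 3 ≤ p := by omega
  have hOv : ∀ j γ β, Ov k p n j γ β ≠ 0 → wt r γ = wt r β + (2 - p) := by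
    intro j γ β h
    unfold Ov at h
    rw [Matrix.of_apply] at h
    have h1 : vl γ + p • Pi.single j 1 = vl β + Pi.single j 2 := by
      by_contra h2
      rw [if_neg h2] at h
      exact h rfl
    have h2 : ∑ i, (vl γ + p • Pi.single j 1 : Fin n → ℤ) i =
        ∑ i, (vl β + Pi.single j 2 : Fin n → ℤ) i := by rw [h1]
    simp only [Pi.add_apply, smul_ap, Finset.sum_add_distrib, ← Finset.mul_sum,
      Finset.sum_pi_single', Finset.mem_univ, if_true, mul_one] at h2
    unfold wt
    omega
  refine ⟨ofMat A, ofMat B, fun j => ofMat (Ov k p n j * A + B * Ov k p n j), ?_, ?_, ?_, ?_⟩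
  · apply ofMat_op
    intro γ β h
    have := hA γ β h
    exact wt_sum (r := r) (by omega)
  · apply ofMat_op
    intro γ β h
    have := hB γ β h
    exact wt_sum (r := r) (by omega)
  · intro j
    apply ofMat_op
    intro γ β h
    apply wt_sum (r := r)
    rw [Matrix.add_apply, Matrix.mul_apply, Matrix.mul_apply] at h
    by_cases h1 : ∑ δ, Ov k p n j γ δ * A δ β = 0
    · rw [h1, zero_add] at h
      obtain ⟨δ, _, hδ⟩ := Finset.exists_ne_zero_of_sum_ne_zero h
      have h3 := hB _ _ (left_ne_zero_of_mul hδ)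
      have h4 := hOv _ _ _ (right_ne_zero_of_mul hδ)
      omega
    · obtain ⟨δ, _, hδ⟩ := Finset.exists_ne_zero_of_sum_ne_zero h1
      have h3 := hOv _ _ _ (left_ne_zero_of_mul hδ)
      have h4 := hA _ _ (right_ne_zero_of_mul hδ)
      omega
  · intro u
    have hBql : QLin p (ofMat B) := (ofMat_op (k := k) (d := -2) (fun γ β h => by
      have := hB γ β h
      exact wt_sum (r := r) (by omega))).ql
    have hmid : proj k (midS p n r) u =
        ofMat (Matrix.diagonal (fun β : Fin n → Fin p => if wt r β = 0 then (1 : k) else 0)) u := by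
      refine LinearMap.congr_fun (lin_ext ?_) u
      intro ν
      rw [ofMat_diag]
      have h1 : wt r (dig p ν) = 0 ↔ ν ∈ midS p n r := by
        unfold wt midS
        rw [vl_dig, Set.mem_ofPred_eq]
        omega
      by_cases h2 : ν ∈ midS p n r
      · rw [proj_mo_mem h2, if_pos (h1.mpr h2), one_smul]
      · rw [proj_mo_notMem h2, if_neg (fun h3 => h2 (h1.mp h3)), zero_smul]
    rw [mulF_eq hp3 (ofMat A u), mulF_eq hp3 u, map_add, map_sum, hmid]
    have h1 : ∀ j, ofMat B (mo k (p • Pi.single j 1) * ofMat (Ov k p n j) u) =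
        mo k (p • Pi.single j 1) * ofMat (B * Ov k p n j) u := by
      intro j
      rw [hBql, ofMat_mul]
      rfl
    have h2 : ∀ j, ofMat (Ov k p n j) (ofMat A u) = ofMat (Ov k p n j * A) u := by
      intro j
      rw [ofMat_mul]
      rfl
    have h3 : ofMat (Fm k p n) (ofMat A u) = ofMat (Fm k p n * A) u := by
      rw [ofMat_mul]
      rfl
    have h4 : ofMat B (ofMat (Fm k p n) u) = ofMat (B * Fm k p n) u := by
      rw [ofMat_mul]
      rfl
    simp only [h1, h2, h3, h4, ofMat_add, LinearMap.add_apply, mul_add, Finset.sum_add_distrib]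
    have h5 : ofMat (Fm k p n * A) u + ofMat (B * Fm k p n) u +
        ofMat (Matrix.diagonal (fun β : Fin n → Fin p => if wt r β = 0 then (1 : k) else 0)) u =
        u := by
      rw [← LinearMap.add_apply, ← LinearMap.add_apply, ← ofMat_add, ← ofMat_add, hAB]
      have h6 : ofMat (1 : Matrix (Fin n → Fin p) (Fin n → Fin p) k) = LinearMap.id := by
        apply lin_ext
        intro ν
        rw [← Matrix.diagonal_one, ofMat_diag, one_smul]
        rfl
      rw [h6]
      rfl
    have h7 : ∀ a s b t c x : Lau k (Fin n), a + b + c = x →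
        a + s + (b + t) + c = x + (s + t) := by
      intro a s b t c x hh
      rw [← hh]
      ring
    exact h7 _ _ _ _ _ _ h5

/-- the splitting away from the middle weight -/
theorem level_two {r : ℤ} [CharP k p] (hr : (p : ℤ) = 2 * r + 1) (hr0 : 0 < r) :
    ∃ (α β : Lau k (Fin n) →ₗ[k] Lau k (Fin n)), Op (p ^ 2) (-2) ∅ α ∧ Op (p ^ 2) (-2) ∅ β ∧
      ∀ u, qF k n * α u + β (qF k n * u) + proj k (midS p n r) u = u := by
  obtain ⟨α, β, g, hα, hβ, hg, h⟩ := level_one (k := k) (n := n) hr hr0
  have hp0 : 0 < p := hp.out.pos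
  have h2 : (2 : k) ≠ 0 := by
    intro h2
    have h3 : ((2 : ℕ) : k) = 0 := by exact_mod_cast h2
    rw [CharP.cast_eq_zero_iff k p] at h3
    have := Nat.le_of_dvd (by norm_num) h3
    omega
  have hdX : ∀ j : Fin n, Op (p ^ 2) (-p) ∅ (dX k p j) := by
    intro j
    rw [pow_two]
    exact dX_op p p hp0 j
  have hg2 : ∀ j, Op (p ^ 2) (-p) ∅ (g j) := by
    intro j
    rw [pow_two]
    exact (hg j).level p
  have hα2 : Op (p ^ 2) (-2) ∅ α := by
    rw [pow_two]
    exact hα.level p
  have hβ2 : Op (p ^ 2) (-2) ∅ β := by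
    rw [pow_two]
    exact hβ.level p
  have hpc : ((p - 1 : ℕ) : ℤ) = p - 1 := by
    rw [Nat.cast_sub hp0, Nat.cast_one]
  refine ⟨α + (2⁻¹ : k) • ∑ j, LinearMap.mulLeft k (qF k n ^ (p - 1)) ∘ₗ dX k p j ∘ₗ g j,
    β - (2⁻¹ : k) • ∑ j, dX k p j ∘ₗ g j ∘ₗ LinearMap.mulLeft k (qF k n ^ (p - 1)), ?_, ?_, ?_⟩
  · apply hα2.add
    apply Op.smul
    apply Op.sum
    intro j _
    exact ((Op.mulFpow (p ^ 2) (p - 1) ∅).comp ((hdX j).comp (hg2 j))).deg (by rw [hpc]; ring)
  · apply hβ2.sub
    apply Op.smul
    apply Op.sum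
    intro j _
    exact ((hdX j).comp ((hg2 j).comp (Op.mulFpow (p ^ 2) (p - 1) ∅))).deg (by rw [hpc]; ring)
  · intro u
    have hpow : qF k n ^ (p - 1) * (qF k n * u) = qF k n ^ p * u := by
      rw [← mul_assoc, ← pow_succ, Nat.sub_add_cancel hp0]
    have hpow' : ∀ v, qF k n * (qF k n ^ (p - 1) * v) = qF k n ^ p * v := by
      intro v
      rw [← mul_assoc, ← pow_succ', Nat.sub_add_cancel hp0]
    have hX : ∀ j, mo k (p • Pi.single j 1) * g j u =
        (2⁻¹ : k) • (dX k p j (g j (qF k n ^ p * u)) - qF k n ^ p * dX k p j (g j u)) := by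
      intro j
      have e1 := dX_comm (k := k) p 1 j (g j u)
      have e2 : QLin (p ^ 1) (g j) := by
        rw [pow_one]
        exact (hg j).ql
      have e3 := e2.frob (qF k n) u
      rw [pow_one] at e1 e3
      rw [e3, e1, add_sub_cancel_left, smul_smul, inv_mul_cancel₀ h2, one_smul]
    have h3 := h u
    rw [LinearMap.add_apply, LinearMap.sub_apply, LinearMap.smul_apply, LinearMap.smul_apply,
      LinearMap.sum_apply, LinearMap.sum_apply]
    simp only [LinearMap.comp_apply, LinearMap.mulLeft_apply]
    rw [mul_add, mul_smul_comm, Finset.mul_sum]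
    simp only [hpow, hpow']
    simp only [hX, ← Finset.smul_sum, Finset.sum_sub_distrib] at h3
    rw [smul_sub] at h3
    have h4 : ∀ a b c d e x : Lau k (Fin n), a + b + c = x + (d - e) →
        a + e + (b - d) + c = x := by
      intro a b c d e x hh
      have : a + e + (b - d) + c = (a + b + c) + e - d := by ring
      rw [this, hh]
      ring
    exact h4 _ _ _ _ _ _ h3

/-- the splitting in degree `d` -/
def SS (k : Type*) [Field k] (p n : ℕ) (d : ℤ) : Prop :=
  ∃ (e : ℕ) (α β : Lau k (Fin n) →ₗ[k] Lau k (Fin n)), Op (p ^ e) (-2) ∅ α ∧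
    Op (p ^ e) (-2) ∅ β ∧ ∀ u ∈ hd k n d, qF k n * α u + β (qF k n * u) = u

theorem SS_all {r : ℤ} [CharP k p] (hr : (p : ℤ) = 2 * r + 1) (hr0 : 0 < r) (hn : Odd n)
    (d : ℤ) : SS k p n d := by
  classical
  obtain ⟨α₁, β₁, hα₁, hβ₁, h₁⟩ := level_two (k := k) (n := n) hr hr0
  obtain ⟨m, hm⟩ := hn
  have hp0 : 0 < p := hp.out.pos
  have hpc : ((p - 1 : ℕ) : ℤ) = p - 1 := by
    rw [Nat.cast_sub hp0, Nat.cast_one]
  have key : ∀ N : ℕ, ∀ d : ℤ, (2 * d + n).natAbs < N → SS k p n d := by
    intro N
    induction N with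
    | zero => intro d h; omega
    | succ N ih =>
      intro d hN
      have hmid : ∀ ν : Fin n → ℤ, ∑ i, ν i = d → ν ∈ midS p n r →
          2 * d + n = p * (2 * ∑ i, quo p ν i + n) := by
        intro ν h1 h2
        have h3 := sum_quo_res p ν
        have h4 : ∑ i, res p ν i = n * r := h2
        rw [h1, h4] at h3
        rw [h3, hr]
        ring
      by_cases hdv : (p : ℤ) ∣ 2 * d + n
      · obtain ⟨t, ht⟩ := hdv
        have hodd : Odd (p * t : ℤ) := by
          rw [← ht]
          exact ⟨d + m, by rw [hm]; push_cast; ring⟩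
        have htodd : Odd t := (Int.odd_mul.mp hodd).2
        obtain ⟨s, hs⟩ := htodd
        have hlt : t.natAbs < (2 * d + n).natAbs := by
          rw [ht, Int.natAbs_mul, Int.natAbs_natCast]
          have h3 : 0 < t.natAbs := by omega
          have h4 : 3 ≤ p := by omega
          nlinarith
        have hd' : 2 * (s - m) + (n : ℤ) = t := by
          rw [hm, hs]
          push_cast
          ring
        obtain ⟨e, α, β, hα, hβ, h⟩ := ih (s - m) (by rw [hd']; omega)
        have hP : Op (p ^ (e + 2)) 0 ∅ (proj k (midS p n r)) := by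
          have := (Op.proj (k := k) (midS_inv (n := n) p r)).level (p ^ (e + 1))
          have h3 : p * p ^ (e + 1) = p ^ (e + 2) := by ring
          rwa [h3] at this
        have hfX : ∀ T : Lau k (Fin n) →ₗ[k] Lau k (Fin n), Op (p ^ e) (-2) ∅ T →
            Op (p ^ (e + 2)) (p * -2) ∅ (frobX p T) := by
          intro T hT
          have := (frobX_op hp0 hT).level p
          have h3 : p * p ^ e * p = p ^ (e + 2) := by ring
          rwa [h3] at this
        refine ⟨e + 2, α₁ + LinearMap.mulLeft k (qF k n ^ (p - 1)) ∘ₗ frobX p α ∘ₗ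
          proj k (midS p n r), β₁ + frobX p β ∘ₗ proj k (midS p n r) ∘ₗ
          LinearMap.mulLeft k (qF k n ^ (p - 1)), ?_, ?_, ?_⟩
        · apply (hα₁.levelp (by omega)).add
          exact ((Op.mulFpow _ (p - 1) ∅).comp ((hfX α hα).comp hP)).deg (by rw [hpc]; ring)
        · apply (hβ₁.levelp (by omega)).add
          exact ((hfX β hβ).comp (hP.comp (Op.mulFpow _ (p - 1) ∅))).deg (by rw [hpc]; ring)
        · intro u hu
          have hPu : proj k (midS p n r) u ∈ supp k {ν | ∑ i, quo p ν i = s - m} := by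
            refine map_supp _ _ ?_ hu
            intro ν hν
            by_cases hmem : ν ∈ midS p n r
            · rw [proj_mo_mem hmem]
              apply mo_mem
              have h3 := hmid ν hν hmem
              rw [ht] at h3
              have h4 := mul_left_cancel₀ (show (p : ℤ) ≠ 0 by exact_mod_cast hp0.ne') h3
              simp only [Set.mem_ofPred_eq]
              omega
            · rw [proj_mo_notMem hmem]
              exact zero_mem _
          have h3 := frobX_id (k := k) p 1 h (u := proj k (midS p n r) u) (by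
            rw [pow_one]
            exact hPu)
          rw [pow_one] at h3
          have h4 : proj k (midS p n r) (qF k n ^ (p - 1) * (qF k n * u)) =
              qF k n ^ p * proj k (midS p n r) u := by
            have h5 : QLin (p ^ 1) (proj k (midS p n r)) := by
              rw [pow_one]
              exact (Op.proj (k := k) (midS_inv (n := n) p r)).ql
            have h6 := h5.frob (qF k n) u
            rw [pow_one] at h6
            rw [← h6, ← mul_assoc, ← pow_succ, Nat.sub_add_cancel hp0]
          rw [LinearMap.add_apply, LinearMap.add_apply]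
          simp only [LinearMap.comp_apply, LinearMap.mulLeft_apply]
          rw [h4, mul_add, ← mul_assoc (qF k n) (qF k n ^ (p - 1)), ← pow_succ',
            Nat.sub_add_cancel hp0]
          have h5 := h₁ u
          have h6 : ∀ a b c x y z : Lau k (Fin n), a + b + c = x → y + z = c →
              a + y + (b + z) = x := by
            intro a b c x y z h7 h8
            rw [← h7, ← h8]
            ring
          exact h6 _ _ _ _ _ _ h5 h3
      · refine ⟨2, α₁, β₁, hα₁, hβ₁, ?_⟩
        intro u hu
        have h3 : proj k (midS p n r) u = 0 := by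
          apply proj_eq_zero
          intro ν hν h4
          apply hdv
          rw [hmid ν (hu ν hν) h4]
          exact dvd_mul_right _ _
        have h5 := h₁ u
        rwa [h3, add_zero] at h5
  exact key _ d (Nat.lt_succ_self _)

end mat

end Pool.Agent.TH141
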