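import Pool.Agent.TH141.QuadE

/-!
# Operators of degree two are sums `B f + f E`, locally and globally
-/

namespace Pool.Agent.TH141

section split

variable {k : Type*} [Field k] {n : ℕ} {p : ℕ} [hp : Fact p.Prime]

/-- the exponents whose residues modulo `q` have the sum `q s - 2` -/
def digS (q n : ℕ) (s : ℤ) : Set (Fin n → ℤ) := {ν | ∑ i, res q ν i = q * s - 2}

theorem digS_inv (q : ℕ) (s : ℤ) (w ν : Fin n → ℤ) : q • w + ν ∈ digS q n s ↔ ν ∈ digS q n s := by
  unfold digS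
  rw [Set.mem_ofPred_eq, Set.mem_ofPred_eq, res_add]

theorem digS_sum {q : ℕ} (hq : 3 ≤ q) (hn : 3 ≤ n) {u : Lau k (Fin n)} (hu : u ∈ hd k n (-2)) :
    ∑ s ∈ Finset.range (n + 1), proj k (digS q n s) u = u := by
  classical
  have h1 := eq_on_supp (∑ s ∈ Finset.range (n + 1), proj k (digS q n (s : ℤ))) LinearMap.id ?_ hu
  · rw [LinearMap.sum_apply] at h1
    exact h1
  · intro ν hν
    have hν' : ∑ i, ν i = -2 := hν
    have h2 := sum_quo_res q ν
    rw [hν'] at h2
    have h3 : 0 ≤ ∑ i, res q ν i := Finset.sum_nonneg (fun i _ => res_nonneg (by omega) ν i)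
    have h4 : ∑ i, res q ν i ≤ ∑ _i : Fin n, ((q : ℤ) - 1) :=
      Finset.sum_le_sum (fun i _ => by
        have := res_lt (q := q) (by omega) ν i
        omega)
    rw [Finset.sum_const, Finset.card_univ, Fintype.card_fin, nsmul_eq_mul] at h4
    set Q := ∑ i, quo q ν i with hQ
    have hq0 : (0 : ℤ) < q := by omega
    have h5 : 0 ≤ -Q := by
      by_contra h6
      have h7 : (q : ℤ) * 1 ≤ q * Q := mul_le_mul_of_nonneg_left (by omega) hq0.le
      omega
    have h6 : -Q < n + 1 := by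
      by_contra h7
      have h8 : (q : ℤ) * (n + 1) ≤ q * (-Q) := mul_le_mul_of_nonneg_left (by omega) hq0.le
      have h9 : (n : ℤ) * (q - 1) = q * n - n := by ring
      have h10 : (q : ℤ) * (n + 1) = q * n + q := by ring
      have h11 : (q : ℤ) * (-Q) = -(q * Q) := by ring
      omega
    rw [LinearMap.sum_apply, LinearMap.id_apply, Finset.sum_eq_single (-Q).toNat]
    · rw [proj_mo_mem]
      unfold digS
      rw [Set.mem_ofPred_eq, Int.toNat_of_nonneg h5]
      have h7 : (q : ℤ) * (-Q) = -(q * Q) := by ring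
      omega
    · intro s _ hs
      rw [proj_mo_notMem]
      intro h7
      have h8 : ∑ i, res q ν i = q * s - 2 := h7
      rw [h8] at h2
      have h9 : (q : ℤ) * (s + Q) = 0 := by
        have : (q : ℤ) * (s + Q) = q * s + q * Q := by ring
        omega
      rcases mul_eq_zero.mp h9 with h10 | h10
      · omega
      · apply hs
        omega
    · intro h7
      exfalso
      apply h7
      rw [Finset.mem_range]
      omega

/-- The local splitting. -/
theorem localSplit [CharP k p] (h2 : (2 : k) ≠ 0) {e : ℕ} {S : Set (Fin n)} (c : Fin n)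
    (hc : c ∈ S) {K : Lau k (Fin n) →ₗ[k] Lau k (Fin n)} (hK : Op (p ^ e) 2 S K) :
    ∃ B E : Lau k (Fin n) →ₗ[k] Lau k (Fin n), Op (p ^ (e + 1)) 0 S B ∧ Op (p ^ (e + 1)) 0 S E ∧
      ∀ u, K u = B (qF k n * u) + qF k n * E u := by
  have hq0 : 0 < p ^ e := pow_pos hp.out.pos e
  have hqc : ((p ^ e - 1 : ℕ) : ℤ) = ((p ^ e : ℕ) : ℤ) - 1 := by
    rw [Nat.cast_sub hq0, Nat.cast_one]
  set Y : Lau k (Fin n) →ₗ[k] Lau k (Fin n) := (2⁻¹ : k) •
    (LinearMap.mulLeft k (mo k (-((p ^ e) • Pi.single c 1))) ∘ₗ dX k (p ^ e) c) with hY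
  have hYop : Op (p ^ (e + 1)) (-((p ^ e : ℕ) : ℤ) + -((p ^ e : ℕ) : ℤ)) S Y := by
    apply Op.smul
    apply Op.comp
    · apply Op.mulL
      · apply mo_mem
        intro i hi
        by_cases hic : i = c
        · rw [hic]
          exact hc
        · rw [Pi.neg_apply, smul_ap, Pi.single_eq_of_ne hic] at hi
          simp at hi
      · apply mo_mem
        simp only [Set.mem_ofPred_eq, Pi.neg_apply, smul_ap, Finset.sum_neg_distrib,
          ← Finset.mul_sum, Finset.sum_pi_single', Finset.mem_univ, if_true]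
        ring
    · have := dX_op (k := k) p (p ^ e) hq0 c
      rw [← pow_succ] at this
      exact this.mono (Set.empty_subset S)
  have hYf : ∀ u, Y (qF k n ^ p ^ e * u) = qF k n ^ p ^ e * Y u + u := by
    intro u
    rw [hY]
    simp only [LinearMap.smul_apply, LinearMap.comp_apply, LinearMap.mulLeft_apply]
    rw [dX_comm, mul_add, smul_add]
    congr 1
    · rw [mul_smul_comm]
      congr 1
      ring
    · rw [mul_smul_comm, smul_smul, inv_mul_cancel₀ h2, one_smul, ← mul_assoc, ← mo_add,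
        neg_add_cancel, mo_zero, one_mul]
  have hK' : Op (p ^ (e + 1)) 2 S K := hK.levelp (Nat.le_succ e)
  refine ⟨K ∘ₗ Y ∘ₗ LinearMap.mulLeft k (qF k n ^ (p ^ e - 1)),
    -(LinearMap.mulLeft k (qF k n ^ (p ^ e - 1)) ∘ₗ K ∘ₗ Y), ?_, ?_, ?_⟩
  · exact (hK'.comp (hYop.comp (Op.mulFpow _ (p ^ e - 1) S))).deg (by rw [hqc]; ring)
  · apply Op.neg
    exact ((Op.mulFpow _ (p ^ e - 1) S).comp (hK'.comp hYop)).deg (by rw [hqc]; ring)
  · intro u
    simp only [LinearMap.comp_apply, LinearMap.mulLeft_apply, LinearMap.neg_apply]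
    rw [← mul_assoc, ← pow_succ, Nat.sub_add_cancel hq0, hYf, map_add, hK.ql.frob, mul_neg,
      ← mul_assoc, ← pow_succ', Nat.sub_add_cancel hq0]
    ring

/-- The global splitting. -/
theorem globalSplit {r : ℤ} [CharP k p] (hr : (p : ℤ) = 2 * r + 1) (hr0 : 0 < r) (hn : Odd n)
    (hn3 : 3 ≤ n) {e : ℕ} (he : 1 ≤ e) {K : Lau k (Fin n) →ₗ[k] Lau k (Fin n)}
    (hK : ∀ a, Op (p ^ e) 2 {a} K) :
    ∃ (e' : ℕ) (B E : Lau k (Fin n) →ₗ[k] Lau k (Fin n)), (∀ a, Op (p ^ e') 0 {a} B) ∧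
      (∀ a, Op (p ^ e') 0 {a} E) ∧
      ∀ u ∈ hd k n (-2), K u = B (qF k n * u) + qF k n * E u := by
  classical
  have hq0 : 0 < p ^ e := pow_pos hp.out.pos e
  have hq3 : 3 ≤ p ^ e := by
    have h3 : 3 ≤ p := by omega
    calc 3 ≤ p := h3
      _ = p ^ 1 := (pow_one p).symm
      _ ≤ p ^ e := Nat.pow_le_pow_right hp.out.pos he
  have hqc : ((p ^ e - 1 : ℕ) : ℤ) = ((p ^ e : ℕ) : ℤ) - 1 := by
    rw [Nat.cast_sub hq0, Nat.cast_one]
  have hSS : ∀ s : ℕ, SS k p n (-(s : ℤ)) := fun s => SS_all hr hr0 hn _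
  choose es α β hα hβ h using hSS
  set EE := (Finset.range (n + 1)).sup es with hEE
  have hle : ∀ s ∈ Finset.range (n + 1), es s ≤ EE := fun s hs => Finset.le_sup hs
  have hfX : ∀ s ∈ Finset.range (n + 1), ∀ T : Lau k (Fin n) →ₗ[k] Lau k (Fin n),
      Op (p ^ es s) (-2) ∅ T → ∀ a, Op (p ^ (e + EE)) (((p ^ e : ℕ) : ℤ) * -2) {a}
        (frobX (p ^ e) T) := by
    intro s hs T hT a
    have h3 := frobX_op hq0 hT
    rw [← pow_add] at h3
    exact (h3.levelp (by have := hle s hs; omega)).mono (Set.empty_subset _)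
  have hP : ∀ (s : ℕ) (a : Fin n), Op (p ^ (e + EE)) 0 {a} (proj k (digS (p ^ e) n (s : ℤ))) := by
    intro s a
    exact ((Op.proj (k := k) (digS_inv (n := n) (p ^ e) s)).levelp (by omega)).mono
      (Set.empty_subset _)
  have hK' : ∀ a, Op (p ^ (e + EE)) 2 {a} K := fun a => (hK a).levelp (by omega)
  refine ⟨e + EE, ∑ s ∈ Finset.range (n + 1), K ∘ₗ frobX (p ^ e) (β s) ∘ₗ
    proj k (digS (p ^ e) n (s : ℤ)) ∘ₗ LinearMap.mulLeft k (qF k n ^ (p ^ e - 1)),
    ∑ s ∈ Finset.range (n + 1), LinearMap.mulLeft k (qF k n ^ (p ^ e - 1)) ∘ₗ K ∘ₗ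
      frobX (p ^ e) (α s) ∘ₗ proj k (digS (p ^ e) n (s : ℤ)), ?_, ?_, ?_⟩
  · intro a
    apply Op.sum
    intro s hs
    exact ((hK' a).comp ((hfX s hs _ (hβ s) a).comp ((hP s a).comp
      (Op.mulFpow _ (p ^ e - 1) _)))).deg (by rw [hqc]; ring)
  · intro a
    apply Op.sum
    intro s hs
    exact ((Op.mulFpow _ (p ^ e - 1) _).comp ((hK' a).comp ((hfX s hs _ (hα s) a).comp
      (hP s a)))).deg (by rw [hqc]; ring)
  · intro u hu
    have hKql : QLin (p ^ e) K := (hK ⟨0, by omega⟩).ql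
    have h3 : ∀ s : ℕ, K (proj k (digS (p ^ e) n (s : ℤ)) u) =
        qF k n ^ p ^ e * K (frobX (p ^ e) (α s) (proj k (digS (p ^ e) n (s : ℤ)) u)) +
        K (frobX (p ^ e) (β s) (proj k (digS (p ^ e) n (s : ℤ)) (qF k n ^ p ^ e * u))) := by
      intro s
      have h4 : proj k (digS (p ^ e) n (s : ℤ)) u ∈
          supp k {ν | ∑ i, quo (p ^ e) ν i = -(s : ℤ)} := by
        refine map_supp _ _ ?_ hu
        intro ν hν
        by_cases hmem : ν ∈ digS (p ^ e) n (s : ℤ)
        · rw [proj_mo_mem hmem]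
          apply mo_mem
          have h5 : ∑ i, res (p ^ e) ν i = ((p ^ e : ℕ) : ℤ) * s - 2 := hmem
          have h6 := sum_quo_res (p ^ e) ν
          have h7 : ∑ i, ν i = -2 := hν
          rw [h5, h7] at h6
          have h8 : ((p ^ e : ℕ) : ℤ) * (∑ i, quo (p ^ e) ν i + s) = 0 := by
            have h9 : ((p ^ e : ℕ) : ℤ) * (∑ i, quo (p ^ e) ν i + s) =
                ((p ^ e : ℕ) : ℤ) * ∑ i, quo (p ^ e) ν i + ((p ^ e : ℕ) : ℤ) * s := by ring
            omega
          simp only [Set.mem_ofPred_eq]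
          rcases mul_eq_zero.mp h8 with h10 | h10
          · exfalso
            have : ((p ^ e : ℕ) : ℤ) ≠ 0 := by exact_mod_cast hq0.ne'
            exact this h10
          · omega
        · rw [proj_mo_notMem hmem]
          exact zero_mem _
      have h5 := frobX_id (k := k) p e (h s) h4
      have h6 : QLin (p ^ e) (proj k (digS (p ^ e) n (s : ℤ))) :=
        (Op.proj (k := k) (digS_inv (n := n) (p ^ e) s)).ql
      conv_lhs => rw [← h5]
      rw [map_add, hKql.frob, h6.frob]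
    have h4 : K u = ∑ s ∈ Finset.range (n + 1), K (proj k (digS (p ^ e) n (s : ℤ)) u) := by
      rw [← map_sum, digS_sum hq3 hn3 hu]
    rw [h4]
    simp only [h3, Finset.sum_add_distrib]
    rw [LinearMap.sum_apply, LinearMap.sum_apply, Finset.mul_sum, add_comm]
    simp only [LinearMap.comp_apply, LinearMap.mulLeft_apply]
    congr 1
    · apply Finset.sum_congr rfl
      intro s _
      rw [← mul_assoc, ← pow_succ, Nat.sub_add_cancel hq0]
    · apply Finset.sum_congr rfl
      intro s _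
      rw [← mul_assoc, ← pow_succ', Nat.sub_add_cancel hq0]

end split

end Pool.Agent.TH141
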