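import Pool.Agent.TH141.QuadF

/-!
# Čech complexes of operators
-/

namespace Pool.Agent.TH141

section dd

variable {A σ : Type*} [AddCommGroup A]

/-- the Čech differential -/
def dd (i : ℕ) (f : (Fin (i + 1) → σ) → A) (s : Fin (i + 2) → σ) : A :=
  ∑ j : Fin (i + 2), (-1 : ℤ) ^ (j : ℕ) • f (s ∘ j.succAbove)

theorem dd_dd (i : ℕ) (f : (Fin (i + 1) → σ) → A) (s : Fin (i + 3) → σ) :
    dd (i + 1) (dd i f) s = 0 := by
  unfold dd
  simp only [Finset.smul_sum, smul_smul, ← pow_add]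
  rw [← Finset.sum_product']
  apply Finset.sum_involution (fun x _ => (x.1.succAbove x.2, x.2.predAbove x.1))
  · rintro ⟨j, l⟩ _
    have h1 : ((s ∘ (j.succAbove l).succAbove) ∘ (l.predAbove j).succAbove : Fin (i + 1) → σ) =
        (s ∘ j.succAbove) ∘ l.succAbove := by
      funext x
      simp only [Function.comp_apply]
      rw [Fin.succAbove_succAbove_succAbove_predAbove]
    simp only [h1]
    rw [Fin.neg_one_pow_succAbove_add_predAbove, neg_smul, add_neg_cancel]
  · rintro ⟨j, l⟩ _ _ h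
    have h1 := congrArg Prod.fst h
    exact Fin.succAbove_ne j l h1
  · rintro ⟨j, l⟩ _
    simp only [Prod.mk.injEq]
    exact ⟨Fin.succAbove_succAbove_predAbove j l, Fin.predAbove_predAbove_succAbove j l⟩
  · rintro ⟨j, l⟩ _
    exact Finset.mem_product.mpr ⟨Finset.mem_univ _, Finset.mem_univ _⟩

theorem dd_sub (i : ℕ) (f g : (Fin (i + 1) → σ) → A) (s : Fin (i + 2) → σ) :
    dd i (fun t => f t - g t) s = dd i f s - dd i g s := by
  unfold dd
  rw [← Finset.sum_sub_distrib]
  apply Finset.sum_congr rfl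
  intro j _
  rw [smul_sub]

theorem dd_map {B : Type*} [AddCommGroup B] (φ : A →+ B) (i : ℕ) (f : (Fin (i + 1) → σ) → A)
    (s : Fin (i + 2) → σ) : dd i (fun t => φ (f t)) s = φ (dd i f s) := by
  unfold dd
  rw [map_sum]
  apply Finset.sum_congr rfl
  intro j _
  rw [map_zsmul]

/-- the Čech homotopy -/
theorem dd_homotopy [Fintype σ] (P : σ → A →+ A) (i : ℕ) (f : (Fin (i + 2) → σ) → A)
    (hf : ∀ s, ∑ a, P a (f s) = f s) (hd : ∀ s, dd (i + 1) f s = 0) (s : Fin (i + 2) → σ) :
    dd i (fun t => ∑ a, P a (f (Fin.cons a t : Fin (i + 2) → σ))) s = f s := by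
  have h1 : ∀ a, ∑ j : Fin (i + 2), (-1 : ℤ) ^ (j : ℕ) •
      f (Fin.cons a (s ∘ j.succAbove) : Fin (i + 2) → σ) = f s := by
    intro a
    have h2 := hd (Fin.cons a s)
    unfold dd at h2
    rw [Fin.sum_univ_succ] at h2
    have h3 : (Fin.cons a s : Fin (i + 3) → σ) ∘ (0 : Fin (i + 3)).succAbove = s := by
      funext l
      simp
    have h4 : ∀ j : Fin (i + 2), (Fin.cons a s : Fin (i + 3) → σ) ∘ j.succ.succAbove =
        Fin.cons a (s ∘ j.succAbove) := by
      intro j
      funext l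
      refine Fin.cases ?_ (fun l => ?_) l
      · simp
      · simp
    rw [h3] at h2
    simp only [h4, Fin.val_zero, pow_zero, one_smul, Fin.val_succ, pow_succ, mul_neg, mul_one,
      neg_smul, Finset.sum_neg_distrib] at h2
    rw [add_neg_eq_zero] at h2
    exact h2.symm
  unfold dd
  have h2 : ∀ j : Fin (i + 2), (-1 : ℤ) ^ (j : ℕ) •
      (∑ a, P a (f (Fin.cons a (s ∘ j.succAbove) : Fin (i + 2) → σ))) =
      ∑ a, P a ((-1 : ℤ) ^ (j : ℕ) • f (Fin.cons a (s ∘ j.succAbove) : Fin (i + 2) → σ)) := by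
    intro j
    rw [Finset.smul_sum]
    apply Finset.sum_congr rfl
    intro a _
    rw [map_zsmul]
  simp only [h2]
  rw [Finset.sum_comm]
  rw [← hf s]
  apply Finset.sum_congr rfl
  intro a _
  rw [← map_sum, h1]

end dd

section proj

variable {k : Type*} [Field k] {n : ℕ} [NeZero n]

open Classical in
/-- an index at which the function is nonnegative -/
noncomputable def pk (w : Fin n → ℤ) : Fin n := if h : ∃ a, 0 ≤ w a then h.choose else 0

theorem pk_spec (w : Fin n → ℤ) (h : ∃ a, 0 ≤ w a) : 0 ≤ w (pk w) := by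
  unfold pk
  rw [dif_pos h]
  exact h.choose_spec

/-- the component `a` of an operator -/
noncomputable def Pa (q : ℕ) (a : Fin n) :
    (Lau k (Fin n) →ₗ[k] Lau k (Fin n)) →+ (Lau k (Fin n) →ₗ[k] Lau k (Fin n)) where
  toFun T := ofMo (fun ν => proj k {μ | pk (quo q μ - quo q ν) = a} (T (mo k ν)))
  map_zero' := by
    apply lin_ext
    intro ν
    rw [ofMo_mo, LinearMap.zero_apply, map_zero]
  map_add' T U := by
    apply lin_ext
    intro ν
    rw [ofMo_mo, LinearMap.add_apply, LinearMap.add_apply, ofMo_mo, ofMo_mo, map_add]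

theorem Pa_mo (q : ℕ) (a : Fin n) (T : Lau k (Fin n) →ₗ[k] Lau k (Fin n)) (ν : Fin n → ℤ) :
    Pa q a T (mo k ν) = proj k {μ | pk (quo q μ - quo q ν) = a} (T (mo k ν)) := ofMo_mo _ ν

theorem Pa_sum (q : ℕ) (T : Lau k (Fin n) →ₗ[k] Lau k (Fin n)) : ∑ a, Pa q a T = T := by
  classical
  apply lin_ext
  intro ν
  rw [LinearMap.sum_apply]
  simp only [Pa_mo]
  have h : ∑ a : Fin n, proj k {μ | pk (quo q μ - quo q ν) = a} = LinearMap.id := by
    apply lin_ext
    intro μ
    rw [LinearMap.sum_apply, LinearMap.id_apply, Finset.sum_eq_single (pk (quo q μ - quo q ν))]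
    · rw [proj_mo_mem]
      rfl
    · intro b _ hb
      rw [proj_mo_notMem]
      exact fun h => hb h.symm
    · simp
  have h2 := LinearMap.congr_fun h (T (mo k ν))
  rw [LinearMap.sum_apply, LinearMap.id_apply] at h2
  exact h2

theorem exists_quo {q : ℕ} (hq : 0 < q) {d : ℤ} (hdn : -(n : ℤ) < d) (ν μ : Fin n → ℤ)
    (h : ∑ i, μ i = ∑ i, ν i + d) : ∃ a, 0 ≤ (quo q μ - quo q ν) a := by
  by_contra hcon
  push Not at hcon
  have h1 : ∀ a, μ a + 1 ≤ ν a := by
    intro a
    have h2 := hcon a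
    rw [Pi.sub_apply] at h2
    unfold quo at h2
    have hq' : (0 : ℤ) < q := by exact_mod_cast hq
    have h4 := Int.emod_lt_of_pos (μ a) hq'
    have h3 := Int.emod_nonneg (ν a) hq'.ne'
    have h5 := Int.mul_ediv_add_emod (ν a) q
    have h6 := Int.mul_ediv_add_emod (μ a) q
    have h7 : μ a / q + 1 ≤ ν a / q := by omega
    have h8 := mul_le_mul_of_nonneg_left h7 hq'.le
    rw [mul_add, mul_one] at h8
    linarith
  have h2 : ∑ a, (μ a + 1) ≤ ∑ a, ν a := Finset.sum_le_sum (fun a _ => h1 a)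
  rw [Finset.sum_add_distrib] at h2
  simp only [Finset.sum_const, Finset.card_univ, Fintype.card_fin, nsmul_eq_mul, mul_one] at h2
  omega

theorem Pa_op {q : ℕ} (hq : 0 < q) {d : ℤ} (hdn : -(n : ℤ) < d) {S : Set (Fin n)} {a : Fin n}
    {T : Lau k (Fin n) →ₗ[k] Lau k (Fin n)} (hT : Op q d (insert a S) T) :
    Op q d S (Pa q a T) := by
  apply Op.of
  · intro w ν
    rw [Pa_mo, Pa_mo, mo_add, hT.ql]
    have h1 : (proj k {μ | pk (quo q μ - quo q (q • w + ν)) = a} : Lau k (Fin n) →ₗ[k] _) ∘ₗ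
        LinearMap.mulLeft k (mo k (q • w)) = LinearMap.mulLeft k (mo k (q • w)) ∘ₗ
        proj k {μ | pk (quo q μ - quo q ν) = a} := by
      apply lin_ext
      intro μ
      rw [LinearMap.comp_apply, LinearMap.comp_apply, LinearMap.mulLeft_apply,
        LinearMap.mulLeft_apply, ← mo_add]
      have h2 : quo q (q • w + μ) - quo q (q • w + ν) = quo q μ - quo q ν := by
        rw [quo_add hq, quo_add hq]
        abel
      by_cases h : pk (quo q μ - quo q ν) = a
      · rw [proj_mo_mem, proj_mo_mem, mo_add]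
        · exact h
        · rw [Set.mem_ofPred_eq, h2]
          exact h
      · rw [proj_mo_notMem, proj_mo_notMem, mul_zero]
        · exact h
        · rw [Set.mem_ofPred_eq, h2]
          exact h
    exact LinearMap.congr_fun h1 (T (mo k ν))
  · intro U hU ν hν
    rw [Pa_mo]
    have h1 : T (mo k ν) ∈ pol k (insert a U) :=
      hT.po _ (Set.insert_subset_insert hU) _ (mo_mem (fun i hi => Set.mem_insert_of_mem _ (hν i hi)))
    have h2 : T (mo k ν) ∈ hd k n (∑ i, ν i + d) := hT.ho _ _ (mo_hd ν)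
    have h3 : T (mo k ν) ∈ supp k (NegAt (insert a U) ∩ {μ | ∑ i, μ i = ∑ i, ν i + d}) :=
      supp_inter.mpr ⟨h1, h2⟩
    refine map_supp (pol k U) _ ?_ h3
    rintro μ ⟨hμ1, hμ2⟩
    by_cases h : pk (quo q μ - quo q ν) = a
    · rw [proj_mo_mem (show μ ∈ {μ | pk (quo q μ - quo q ν) = a} from h)]
      apply mo_mem
      intro i hi
      by_contra hiU
      have hia : i = a := by
        rcases hμ1 i hi with h4 | h4
        · exact h4
        · exact absurd h4 hiU
      have h5 := pk_spec _ (exists_quo hq hdn ν μ hμ2)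
      rw [h, ← hia, Pi.sub_apply] at h5
      have h6 : 0 ≤ ν i := by
        by_contra h7
        exact hiU (hν i (not_le.mp h7))
      have h7 : 0 ≤ quo q ν i := Int.ediv_nonneg h6 (Int.natCast_nonneg q)
      have h8 : 0 ≤ μ i / (q : ℤ) := by
        have h9 : quo q μ i = μ i / (q : ℤ) := rfl
        rw [← h9]
        omega
      have h9 := Int.mul_ediv_add_emod (μ i) q
      have h10 := Int.emod_nonneg (μ i) (show (q : ℤ) ≠ 0 by exact_mod_cast hq.ne')
      have h11 := mul_nonneg (Int.natCast_nonneg q) h8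
      omega
    · rw [proj_mo_notMem (show μ ∉ {μ | pk (quo q μ - quo q ν) = a} from h)]
      exact zero_mem _
  · intro ν
    rw [Pa_mo]
    refine map_supp (hd k n (∑ i, ν i + d)) _ ?_ (hT.ho _ _ (mo_hd ν))
    intro μ hμ
    by_cases h : pk (quo q μ - quo q ν) = a
    · rw [proj_mo_mem (show μ ∈ {μ | pk (quo q μ - quo q ν) = a} from h)]
      exact mo_mem hμ
    · rw [proj_mo_notMem (show μ ∉ {μ | pk (quo q μ - quo q ν) = a} from h)]
      exact zero_mem _

/-- the Čech complexes of operators are acyclic in positive degrees -/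
theorem acyc {q : ℕ} (hq : 0 < q) {d : ℤ} (hdn : -(n : ℤ) < d) (i : ℕ)
    (T : (Fin (i + 2) → Fin n) → (Lau k (Fin n) →ₗ[k] Lau k (Fin n)))
    (hT : ∀ s, Op q d (Set.range s) (T s)) (hdT : ∀ s, dd (i + 1) T s = 0) :
    ∃ G : (Fin (i + 1) → Fin n) → (Lau k (Fin n) →ₗ[k] Lau k (Fin n)),
      (∀ s, Op q d (Set.range s) (G s)) ∧ ∀ s, dd i G s = T s := by
  refine ⟨fun t => ∑ a, Pa q a (T (Fin.cons a t : Fin (i + 2) → Fin n)), ?_, ?_⟩
  · intro s
    apply Op.sum
    intro a _
    apply Pa_op hq hdn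
    have := hT (Fin.cons a s : Fin (i + 2) → Fin n)
    rwa [Fin.range_cons] at this
  · intro s
    exact dd_homotopy (Pa q) i T (fun s => Pa_sum q (T s)) hdT s

end proj

section div

variable {k : Type*} [Field k] {n : ℕ}

theorem noVar_qF (hn : 2 ≤ n) : NoVar (qF k n) := by
  classical
  refine ⟨qF_pol ∅, ?_⟩
  intro v
  obtain ⟨j, hj⟩ : ∃ j : Fin n, j ≠ v := by
    have : Nontrivial (Fin n) := Fin.nontrivial_iff_two_le.mpr hn
    exact exists_ne v
  refine ⟨Pi.single j 2, ?_, Pi.single_eq_of_ne hj.symm _⟩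
  unfold qF
  rw [AddMonoidAlgebra.coeff_sum, Finsupp.finsetSum_apply, Finset.sum_eq_single j]
  · rw [coeff_mo, if_pos rfl]
    exact one_ne_zero
  · intro i _ hi
    rw [coeff_mo, if_neg]
    intro h
    have := congrFun h i
    rw [Pi.single_eq_same, Pi.single_eq_of_ne hi] at this
    omega
  · simp

theorem qF_ne (hn : 2 ≤ n) : qF k n ≠ 0 := by
  obtain ⟨ν, hν, _⟩ := (noVar_qF (k := k) hn).2 ⟨0, by omega⟩
  intro h
  rw [h] at hν
  exact hν rfl

theorem hd_eq (d : ℤ) : hd k n d = hom k (fun _ : Fin n => ()) (fun _ => d) := by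
  unfold hd hom
  congr 1
  ext ν
  simp only [Set.mem_ofPred_eq]
  constructor
  · intro h
    funext r
    rw [dg_apply]
    simpa using h
  · intro h
    have := congrFun h ()
    rw [dg_apply] at this
    simpa using this

theorem exists_div (T : Lau k (Fin n) →ₗ[k] Lau k (Fin n))
    (h : ∀ ν, ∃ z, T (mo k ν) = qF k n * z) :
    ∃ A : Lau k (Fin n) →ₗ[k] Lau k (Fin n), ∀ u, T u = qF k n * A u := by
  choose z hz using h
  refine ⟨ofMo z, ?_⟩
  intro u
  have : T = LinearMap.mulLeft k (qF k n) ∘ₗ ofMo z := by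
    apply lin_ext
    intro ν
    rw [LinearMap.comp_apply, LinearMap.mulLeft_apply, ofMo_mo, hz]
  exact LinearMap.congr_fun this u

theorem div_op (hn : 2 ≤ n) {q : ℕ} {d : ℤ} {S : Set (Fin n)}
    {T A : Lau k (Fin n) →ₗ[k] Lau k (Fin n)} (hT : Op q (d + 2) S T)
    (h : ∀ u, T u = qF k n * A u) : Op q d S A := by
  refine ⟨?_, ?_, ?_⟩
  · intro w u
    apply mul_left_cancel₀ (qF_ne (k := k) hn)
    rw [← h, hT.ql, h]
    ring
  · intro U hU w hw
    apply pol_div (noVar_qF hn)
    rw [← h]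
    exact hT.po U hU w hw
  · intro e w hw
    rw [hd_eq]
    have h1 : qF k n ∈ hom k (fun _ : Fin n => ()) (fun _ => 2) := by
      rw [← hd_eq]
      exact qF_hd
    apply hom_div h1 (qF_ne hn)
    have h2 := hT.ho e w hw
    rw [h, hd_eq] at h2
    have h3 : ((fun _ => 2 : Unit → ℤ) + fun _ => e + d) = fun _ => e + (d + 2) := by
      funext r
      simp only [Pi.add_apply]
      ring
    rw [h3]
    exact h2

end div

end Pool.Agent.TH141
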