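import Pool.Agent.TH141.QuadG
import Pool.Agent.TH141.Model

/-!
# The vanishing of the Čech cohomology of the differential operators
-/

namespace Pool.Agent.TH141

open Pool.Agent.H824

section lifts

variable {k ι τ σ R : Type*} [Field k] [Fintype σ] [DecidableEq R] {V : ProjVariety k ι}
  {c : τ → ι} {blk : σ → R} (M : Model V c blk)

theorem lifts_add {Γ Γ' : Lau k σ →ₗ[k] Lau k σ} {γ γ' : RR V c →+ RR V c}
    (h : M.Lifts Γ γ) (h' : M.Lifts Γ' γ') : M.Lifts (Γ + Γ') (γ + γ') := by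
  intro w hw u hu
  rw [LinearMap.add_apply, map_add, ← h w hw u hu, ← h' w hw u hu, AddMonoidHom.add_apply]
  rfl

theorem lifts_zero : M.Lifts 0 0 := by
  intro w _ u _
  rw [LinearMap.zero_apply, map_zero, AddMonoidHom.zero_apply]
  rfl

theorem lifts_neg {Γ : Lau k σ →ₗ[k] Lau k σ} {γ : RR V c →+ RR V c}
    (h : M.Lifts Γ γ) : M.Lifts (-Γ) (-γ) := by
  intro w hw u hu
  rw [LinearMap.neg_apply, map_neg, ← h w hw u hu, AddMonoidHom.neg_apply]
  rfl

theorem lifts_zsmul {Γ : Lau k σ →ₗ[k] Lau k σ} {γ : RR V c →+ RR V c}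
    (h : M.Lifts Γ γ) (m : ℤ) : M.Lifts (m • Γ) (m • γ) := by
  have hn : ∀ m : ℕ, M.Lifts (m • Γ) (m • γ) := by
    intro m
    induction m with
    | zero =>
      rw [zero_smul, zero_smul]
      exact lifts_zero M
    | succ m ih =>
      rw [succ_nsmul, succ_nsmul]
      exact lifts_add M ih h
  rcases Int.eq_nat_or_neg m with ⟨a, rfl | rfl⟩
  · rw [natCast_zsmul, natCast_zsmul]
    exact hn a
  · rw [neg_smul, neg_smul, natCast_zsmul, natCast_zsmul]
    exact lifts_neg M (hn a)

theorem lifts_dd {A : Type*} (i : ℕ) (T : (Fin (i + 1) → A) → (Lau k σ →ₗ[k] Lau k σ))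
    (F : (Fin (i + 1) → A) → (RR V c →+ RR V c)) (h : ∀ s, M.Lifts (T s) (F s))
    (s : Fin (i + 2) → A) : M.Lifts (dd i T s) (dd i F s) := by
  unfold dd
  have h1 : ∀ t : Finset (Fin (i + 2)),
      M.Lifts (∑ j ∈ t, (-1 : ℤ) ^ (j : ℕ) • T (s ∘ j.succAbove))
        (∑ j ∈ t, (-1 : ℤ) ^ (j : ℕ) • F (s ∘ j.succAbove)) := by
    intro t
    induction t using Finset.induction_on with
    | empty =>
      rw [Finset.sum_empty, Finset.sum_empty]
      exact lifts_zero M
    | insert a t ha ih =>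
      rw [Finset.sum_insert ha, Finset.sum_insert ha]
      exact lifts_add M (lifts_zsmul M (h _) _) ih
  exact h1 Finset.univ

end lifts

section quad

variable {k : Type*} [Field k] {n : ℕ}

theorem dd_op {q : ℕ} {d : ℤ} (i : ℕ)
    (T : (Fin (i + 1) → Fin n) → (Lau k (Fin n) →ₗ[k] Lau k (Fin n)))
    (h : ∀ s, Op q d (Set.range s) (T s)) (s : Fin (i + 2) → Fin n) :
    Op q d (Set.range s) (dd i T s) := by
  unfold dd
  apply Op.sum
  intro j _
  apply Op.zsmul
  exact (h _).mono (Set.range_comp_subset_range _ _)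

theorem shift_exp [NeZero n] {q : ℕ} (t : ℤ) (ν : Fin n → ℤ) (h : (q : ℤ) ∣ ∑ i, ν i + t) :
    ∃ w ν' : Fin n → ℤ, ν = q • w + ν' ∧ ∑ i, ν' i = -t := by
  obtain ⟨m, hm⟩ := h
  refine ⟨Pi.single 0 m, ν - q • Pi.single 0 m, by abel, ?_⟩
  simp only [Pi.sub_apply, smul_ap, Finset.sum_sub_distrib, ← Finset.mul_sum,
    Finset.sum_pi_single', Finset.mem_univ, if_true]
  omega

/-- left multiplication of operators, as an additive map -/
noncomputable def lmul (f : Lau k (Fin n)) :
    (Lau k (Fin n) →ₗ[k] Lau k (Fin n)) →+ (Lau k (Fin n) →ₗ[k] Lau k (Fin n)) where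
  toFun T := LinearMap.mulLeft k f ∘ₗ T
  map_zero' := by rw [LinearMap.comp_zero]
  map_add' T U := by rw [LinearMap.comp_add]

/-- right multiplication of operators, as an additive map -/
noncomputable def rmul (f : Lau k (Fin n)) :
    (Lau k (Fin n) →ₗ[k] Lau k (Fin n)) →+ (Lau k (Fin n) →ₗ[k] Lau k (Fin n)) where
  toFun T := T ∘ₗ LinearMap.mulLeft k f
  map_zero' := by rw [LinearMap.zero_comp]
  map_add' T U := by rw [LinearMap.add_comp]

theorem lmul_apply (f : Lau k (Fin n)) (T : Lau k (Fin n) →ₗ[k] Lau k (Fin n))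
    (u : Lau k (Fin n)) : lmul f T u = f * T u := rfl

theorem rmul_apply (f : Lau k (Fin n)) (T : Lau k (Fin n) →ₗ[k] Lau k (Fin n))
    (u : Lau k (Fin n)) : rmul f T u = T (f * u) := rfl

theorem lmul_cancel (hn : 2 ≤ n) {T U : Lau k (Fin n) →ₗ[k] Lau k (Fin n)}
    (h : lmul (qF k n) T = lmul (qF k n) U) : T = U := by
  apply LinearMap.ext
  intro u
  apply mul_left_cancel₀ (qF_ne (k := k) hn)
  exact LinearMap.congr_fun h u

/-- The correction of the cochain `G`: in positive degrees locally, in degree zero globally. -/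
theorem exists_correction [NeZero n] {p : ℕ} [hp : Fact p.Prime] [CharP k p] {r : ℤ}
    (hr : (p : ℤ) = 2 * r + 1) (hr0 : 0 < r) (hn : Odd n) (hn3 : 3 ≤ n) (i E : ℕ) (hE : 1 ≤ E)
    (G H : (Fin (i + 1) → Fin n) → (Lau k (Fin n) →ₗ[k] Lau k (Fin n)))
    (hG : ∀ s, Op (p ^ E) 0 (Set.range s) (G s)) (hH : ∀ s, Op (p ^ E) 0 (Set.range s) (H s))
    (hK : ∀ s, rmul (qF k n) (dd i G s) = lmul (qF k n) (dd i H s)) :
    ∃ (e : ℕ) (G' : (Fin (i + 1) → Fin n) → (Lau k (Fin n) →ₗ[k] Lau k (Fin n))),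
      (∀ s, Op (p ^ e) 0 (Set.range s) (G' s)) ∧
      (∀ s, ∀ z ∈ hd k n (-2), ∃ z', G' s (qF k n * z) = qF k n * z') ∧
      ∀ s, dd i G' s = dd i G s := by
  have hq0 : 0 < p ^ E := pow_pos hp.out.pos E
  have h2 : (2 : k) ≠ 0 := by
    intro h2
    have h3 : ((2 : ℕ) : k) = 0 := by exact_mod_cast h2
    rw [CharP.cast_eq_zero_iff k p] at h3
    have := Nat.le_of_dvd (by norm_num) h3
    omega
  let K : (Fin (i + 1) → Fin n) → (Lau k (Fin n) →ₗ[k] Lau k (Fin n)) :=
    fun s => rmul (qF k n) (G s) - lmul (qF k n) (H s)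
  have hKop : ∀ s, Op (p ^ E) 2 (Set.range s) (K s) := by
    intro s
    apply Op.sub
    · exact ((hG s).comp (Op.mulF _ _)).deg (by ring)
    · exact ((Op.mulF _ _).comp (hH s)).deg (by ring)
  have hKd : ∀ s, dd i K s = 0 := by
    intro s
    change dd i (fun t => rmul (qF k n) (G t) - lmul (qF k n) (H t)) s = 0
    rw [dd_sub i (fun t => rmul (qF k n) (G t)) (fun t => lmul (qF k n) (H t)),
      dd_map (rmul (qF k n)) i G s, dd_map (lmul (qF k n)) i H s, hK, sub_self]
  cases i with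
  | zero =>
    have hconst : ∀ s, K s = K (fun _ => 0) := by
      intro s
      have h3 := hKd ![0, s 0]
      unfold dd at h3
      rw [Fin.sum_univ_two] at h3
      have e0 : (![0, s 0] : Fin 2 → Fin n) ∘ (0 : Fin 2).succAbove = s := by
        funext x
        fin_cases x
        rfl
      have e1 : (![0, s 0] : Fin 2 → Fin n) ∘ (1 : Fin 2).succAbove = fun _ => 0 := by
        funext x
        fin_cases x
        rfl
      rw [e0, e1] at h3
      simp only [Fin.val_zero, Fin.val_one, pow_zero, pow_one, one_smul, neg_smul] at h3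
      rw [← sub_eq_add_neg, sub_eq_zero] at h3
      exact h3
    obtain ⟨e, B, E', hB, hE', hBE⟩ := globalSplit (k := k) hr hr0 hn hn3 hE
      (K := K (fun _ => 0)) (fun a => by
        have h3 := hKop (fun _ => a)
        rw [hconst, Set.range_const] at h3
        exact h3)
    refine ⟨max e E, fun s => G s - B, ?_, ?_, ?_⟩
    · intro s
      apply Op.sub
      · exact (hG s).levelp (le_max_right _ _)
      · refine ((hB (s 0)).levelp (le_max_left _ _)).mono ?_
        rintro _ rfl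
        exact ⟨0, rfl⟩
    · intro s z hz
      refine ⟨E' z + H s z, ?_⟩
      have h3 := hBE z hz
      rw [← hconst s] at h3
      have h4 : K s z = G s (qF k n * z) - qF k n * H s z := rfl
      rw [h4] at h3
      rw [LinearMap.sub_apply, mul_add]
      have h5 : ∀ a b c d : Lau k (Fin n), a - b = c + d → a - c = d + b := by
        intro a b c d hh
        have : a = c + d + b := by rw [← hh]; ring
        rw [this]
        ring
      exact h5 _ _ _ _ h3
    · intro s
      have h3 := dd_sub 0 G (fun _ => B) s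
      rw [h3]
      have h4 : dd 0 (fun _ : Fin (0 + 1) → Fin n => B) s = 0 := by
        unfold dd
        rw [Fin.sum_univ_two]
        simp
      rw [h4, sub_zero]
  | succ i =>
    obtain ⟨M, hM, hMd⟩ := acyc hq0 (d := 2) (by omega) i K hKop hKd
    have hsp : ∀ s, ∃ B E' : Lau k (Fin n) →ₗ[k] Lau k (Fin n),
        Op (p ^ (E + 1)) 0 (Set.range s) B ∧ Op (p ^ (E + 1)) 0 (Set.range s) E' ∧
        ∀ u, M s u = B (qF k n * u) + qF k n * E' u :=
      fun s => localSplit h2 (s 0) (Set.mem_range_self 0) (hM s)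
    choose B E' hB hE' hBE using hsp
    refine ⟨E + 1, fun s => G s - dd i B s, ?_, ?_, ?_⟩
    · intro s
      apply Op.sub
      · exact (hG s).levelp (Nat.le_succ _)
      · exact dd_op i B hB s
    · intro s z _
      refine ⟨H s z + dd i E' s z, ?_⟩
      have h3 : M = fun t => rmul (qF k n) (B t) - lmul (qF k n) (-(E' t)) := by
        funext t
        apply LinearMap.ext
        intro u
        rw [hBE t u, LinearMap.sub_apply, rmul_apply, lmul_apply, LinearMap.neg_apply]
        ring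
      have h4 : dd i M s = rmul (qF k n) (dd i B s) - lmul (qF k n) (-(dd i E' s)) := by
        have h5 : dd i (fun t => -(E' t)) s = -(dd i E' s) := by
          unfold dd
          rw [← Finset.sum_neg_distrib]
          apply Finset.sum_congr rfl
          intro j _
          rw [smul_neg]
        rw [h3, dd_sub i (fun t => rmul (qF k n) (B t)) (fun t => lmul (qF k n) (-(E' t))),
          dd_map (rmul (qF k n)) i B s, dd_map (lmul (qF k n)) i (fun t => -(E' t)) s, h5]
      rw [hMd s] at h4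
      have h5 := LinearMap.congr_fun h4 z
      have h6 : K s z = G s (qF k n * z) - qF k n * H s z := rfl
      rw [h6, LinearMap.sub_apply, rmul_apply, lmul_apply, LinearMap.neg_apply] at h5
      rw [LinearMap.sub_apply, mul_add]
      have h7 : ∀ a b c d : Lau k (Fin n), a - b = c - d → a - c = b - d := by
        intro a b c d hh
        have : a = c - d + b := by rw [← hh]; ring
        rw [this]
        ring
      rw [h7 _ _ _ _ h5]
      ring
    · intro s
      have h3 := dd_sub (i + 1) G (dd i B) s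
      rw [h3, dd_dd, sub_zero]

theorem lin_monop {R : Type*} [CommRing R] (p : ℕ) (δ : R →+ R) (e e' : ℕ) (h : e ≤ e')
    (hδ : ∀ f g, δ (f ^ p ^ e * g) = f ^ p ^ e * δ g) (f g : R) :
    δ (f ^ p ^ e' * g) = f ^ p ^ e' * δ g := by
  obtain ⟨d, rfl⟩ := Nat.exists_eq_add_of_le h
  have : f ^ p ^ (e + d) = (f ^ p ^ d) ^ p ^ e := by
    rw [← pow_mul, ← pow_add, add_comm]
  rw [this, hδ]

/-- The vanishing. -/
theorem quad_vanish [NeZero n] [IsAlgClosed k] {p : ℕ} [hp : Fact p.Prime] [CharP k p] {r : ℤ}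
    (hr : (p : ℤ) = 2 * r + 1) (hr0 : 0 < r) (hn : Odd n) (hn3 : 3 ≤ n) {ι : Type*}
    {V : ProjVariety k ι} {c : Fin n → ι} (M : Model V c (fun _ : Fin n => ()))
    (hMf : M.f = qF k n) (hMd : M.df = fun _ => 2) (hMv : M.vars = fun a => {a}) (i : ℕ) :
    V.DiffVanishing c p i := by
  classical
  intro f hf hfd
  let F : (Fin (i + 2) → Fin n) → (RR V c →+ RR V c) := f
  have hvars : ∀ S : Set (Fin n), varsOn M.vars S = S := by
    intro S
    rw [hMv]
    ext v
    constructor
    · rintro ⟨a, ha, rfl⟩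
      exact ha
    · intro hv
      exact ⟨v, hv, rfl⟩
  have he : ∀ s, ∃ e : ℕ, ∀ x y : RR V c, F s (x ^ p ^ e * y) = x ^ p ^ e * F s y := fun s =>
    (hf s).1
  choose e he using he
  set E := Finset.univ.sup e + 1 with hE
  have hlin : ∀ s (x y : RR V c), F s (x ^ p ^ E * y) = x ^ p ^ E * F s y := fun s =>
    lin_monop p (F s) (e s) E ((Finset.le_sup (Finset.mem_univ s)).trans (Nat.le_succ _)) (he s)
  set q := p ^ E with hqdef
  have hq0 : 0 < q := pow_pos hp.out.pos E
  have hn2 : 2 ≤ n := by omega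
  have hlift : ∀ s, ∃ Γ : Lau k (Fin n) →ₗ[k] Lau k (Fin n), QLin (p ^ E) Γ ∧
      (∀ T, varsOn M.vars (Set.range s) ⊆ T → ∀ w ∈ pol k T, Γ w ∈ pol k T) ∧
      (∀ d, ∀ w ∈ hom k (fun _ : Fin n => ()) d, Γ w ∈ hom k (fun _ : Fin n => ()) d) ∧
      M.Lifts Γ (F s) :=
    fun s => M.lift (p := p) (e := E) (Set.range s) (Set.range_nonempty s) (F s) (hlin s)
      (fun u hu => (hf s).2 u hu)
  choose Γ hΓq hΓp hΓh hΓL using hlift
  -- restriction to the degrees divisible by `q`
  let Dv : Set (Fin n → ℤ) := {ν | (q : ℤ) ∣ ∑ i, ν i}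
  have hDv : ∀ w ν : Fin n → ℤ, q • w + ν ∈ Dv ↔ ν ∈ Dv := by
    intro w ν
    simp only [Dv, Set.mem_ofPred_eq, Pi.add_apply, smul_ap, Finset.sum_add_distrib,
      ← Finset.mul_sum]
    exact (Int.dvd_add_right (Dvd.intro _ rfl))
  let T : (Fin (i + 2) → Fin n) → (Lau k (Fin n) →ₗ[k] Lau k (Fin n)) :=
    fun s => Γ s ∘ₗ proj k Dv
  have hΓop : ∀ s, Op q 0 (Set.range s) (Γ s) := by
    intro s
    refine ⟨hΓq s, ?_, ?_⟩
    · intro U hU
      exact hΓp s U (by rw [hvars]; exact hU)
    · intro d w hw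
      rw [add_zero, hd_eq]
      rw [hd_eq] at hw
      exact hΓh s _ w hw
  have hT : ∀ s, Op q 0 (Set.range s) (T s) := by
    intro s
    exact ((hΓop s).comp ((Op.proj (k := k) hDv).mono (Set.empty_subset _))).deg (by ring)
  have hTL : ∀ s, M.Lifts (T s) (F s) := by
    intro s w hw u hu
    rw [hΓL s w hw u hu]
    have h1 : proj k Dv w = w := by
      apply proj_eq_self
      intro ν hν
      have h2 : dg (fun _ : Fin n => ()) ν = 0 := hw ν hν
      have h3 := congrFun h2 ()
      rw [dg_apply] at h3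
      simp only [if_true, Pi.zero_apply] at h3
      simp only [Dv, Set.mem_ofPred_eq]
      rw [h3]
      exact dvd_zero _
    simp only [T, LinearMap.comp_apply, h1]
  have hTz : ∀ s d, ¬ (q : ℤ) ∣ d → ∀ w ∈ hd k n d, T s w = 0 := by
    intro s d hd w hw
    have h1 : proj k Dv w = 0 := by
      apply proj_eq_zero
      intro ν hν h2
      apply hd
      have h3 : ∑ i, ν i = d := hw ν hν
      rw [← h3]
      exact h2
    simp only [T, LinearMap.comp_apply, h1, map_zero]
  have hh0 : hom k (fun _ : Fin n => ()) (0 : Unit → ℤ) = hd k n 0 := by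
    rw [hd_eq]
    rfl
  -- a general divisibility criterion
  have hker : ∀ (U : Lau k (Fin n) →ₗ[k] Lau k (Fin n)) (γ : RR V c →+ RR V c),
      M.Lifts U γ → (∀ e, ∀ w ∈ hd k n e, U w ∈ hd k n (e + 0)) → ∀ w ∈ hd k n 0,
      (∀ u : RR V c, (u : V.ConeField) = M.ρ w → (γ u : V.ConeField) = 0) →
      ∃ z, U w = qF k n * z := by
    intro U γ hU hUh w hw h1
    have hw' : w ∈ hom k (fun _ : Fin n => ()) (0 : Unit → ℤ) := by rwa [hh0]
    have h2 : M.ρ (U w) = 0 := by
      rw [← hU w hw' ⟨_, M.mem_RR hw'⟩ rfl]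
      exact h1 _ rfl
    have h3 : U w ∈ hom k (fun _ : Fin n => ()) (0 : Unit → ℤ) := by
      rw [hh0]
      exact hUh 0 w hw
    obtain ⟨z, _, hz⟩ := M.ker' h3 h2
    rw [hMf] at hz
    exact ⟨z, hz⟩
  have hFd : ∀ s, dd (i + 1) F s = 0 := fun s => congrFun hfd s
  -- step A
  have hA : ∀ s ν, ∃ z, dd (i + 1) T s (mo k ν) = qF k n * z := by
    intro s ν
    have hop := dd_op (i + 1) T hT s
    by_cases hdv : (q : ℤ) ∣ ∑ j, ν j + 0
    · obtain ⟨w, ν', rfl, hν'⟩ := shift_exp 0 ν hdv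
      obtain ⟨z, hz⟩ := hker (dd (i + 1) T s) (dd (i + 1) F s) (lifts_dd M (i + 1) T F hTL s)
        hop.ho (mo k ν') (by
          have := mo_hd (k := k) ν'
          rwa [hν', neg_zero] at this) (by
          intro u _
          rw [hFd s]
          rfl)
      refine ⟨mo k (q • w) * z, ?_⟩
      rw [mo_add, hop.ql, hz]
      ring
    · refine ⟨0, ?_⟩
      rw [mul_zero]
      unfold dd
      rw [LinearMap.sum_apply]
      apply Finset.sum_eq_zero
      intro j _
      rw [LinearMap.smul_apply, hTz _ _ hdv _ (by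
        have := mo_hd (k := k) ν
        rwa [← add_zero (∑ i, ν i)] at this), smul_zero]
  have hA1 : ∀ s, ∃ A : Lau k (Fin n) →ₗ[k] Lau k (Fin n), ∀ u,
      dd (i + 1) T s u = qF k n * A u := fun s => exists_div _ (hA s)
  choose A' hA' using hA1
  have hA'op : ∀ s, Op q (-2) (Set.range s) (A' s) := by
    intro s
    exact div_op hn2 ((dd_op (i + 1) T hT s).deg (by ring)) (hA' s)
  have hA'l : ∀ s, lmul (qF k n) (A' s) = dd (i + 1) T s := by
    intro s
    apply LinearMap.ext
    intro u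
    rw [lmul_apply, hA']
  have hA'd : ∀ s, dd (i + 2) A' s = 0 := by
    intro s
    apply lmul_cancel hn2
    rw [← dd_map (lmul (qF k n)) (i + 2) A' s, map_zero]
    have h1 : (fun t => lmul (qF k n) (A' t)) = dd (i + 1) T := funext hA'l
    rw [h1, dd_dd]
  obtain ⟨A'', hA''op, hA''d⟩ := acyc hq0 (d := -2) (by omega) (i + 1) A' hA'op hA'd
  -- step D
  let T' : (Fin (i + 2) → Fin n) → (Lau k (Fin n) →ₗ[k] Lau k (Fin n)) :=
    fun s => T s - lmul (qF k n) (A'' s)
  have hT' : ∀ s, Op q 0 (Set.range s) (T' s) := by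
    intro s
    apply (hT s).sub
    exact ((Op.mulF _ _).comp (hA''op s)).deg (by ring)
  have hT'd : ∀ s, dd (i + 1) T' s = 0 := by
    intro s
    rw [dd_sub (i + 1) T (fun t => lmul (qF k n) (A'' t)) s,
      dd_map (lmul (qF k n)) (i + 1) A'' s, hA''d, hA'l, sub_self]
  have hT'L : ∀ s, M.Lifts (T' s) (F s) := by
    intro s w hw u hu
    rw [hTL s w hw u hu]
    have h1 : T' s w = T s w - M.f * A'' s w := by
      rw [hMf]
      rfl
    rw [h1, map_sub, M.ρ_mul_f, sub_zero]
  obtain ⟨G, hG, hGd⟩ := acyc hq0 (d := 0) (by omega) i T' hT' hT'd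
  -- step E
  have hC : ∀ s ν, ∃ z, rmul (qF k n) (T' s) (mo k ν) = qF k n * z := by
    intro s ν
    rw [rmul_apply]
    by_cases hdv : (q : ℤ) ∣ ∑ j, ν j + 2
    · obtain ⟨w, ν', rfl, hν'⟩ := shift_exp 2 ν hdv
      have hfm : qF k n * mo k ν' ∈ hd k n 0 := by
        have h1 := hd_mul (qF_hd (k := k) (n := n)) (mo_hd ν')
        rw [hν'] at h1
        simpa using h1
      obtain ⟨z, hz⟩ := hker (T' s) (F s) (hT'L s) (hT' s).ho (qF k n * mo k ν') hfm (by
        intro u hu
        have h1 : M.ρ (qF k n * mo k ν') = 0 := by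
          rw [← hMf]
          exact M.ρ_mul_f _
        rw [h1] at hu
        have h2 : u = 0 := Subtype.ext hu
        rw [h2, map_zero]
        rfl)
      refine ⟨mo k (q • w) * z, ?_⟩
      have h1 : qF k n * mo k (q • w + ν') = mo k (q • w) * (qF k n * mo k ν') := by
        rw [mo_add]
        ring
      rw [h1, (hT' s).ql, hz]
      ring
    · refine ⟨-(A'' s (qF k n * mo k ν)), ?_⟩
      have h1 : T s (qF k n * mo k ν) = 0 := by
        apply hTz s _ hdv
        have := hd_mul (qF_hd (k := k) (n := n)) (mo_hd ν)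
        rwa [add_comm] at this
      have h2 : T' s (qF k n * mo k ν) = T s (qF k n * mo k ν) -
          qF k n * A'' s (qF k n * mo k ν) := rfl
      rw [h2, h1]
      ring
  have hC1 : ∀ s, ∃ C : Lau k (Fin n) →ₗ[k] Lau k (Fin n), ∀ u,
      rmul (qF k n) (T' s) u = qF k n * C u := fun s => exists_div _ (hC s)
  choose C' hC' using hC1
  have hC'op : ∀ s, Op q 0 (Set.range s) (C' s) := by
    intro s
    exact div_op hn2 (((hT' s).comp (Op.mulF _ _)).deg (by ring)) (hC' s)
  have hC'l : ∀ s, lmul (qF k n) (C' s) = rmul (qF k n) (T' s) := by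
    intro s
    apply LinearMap.ext
    intro u
    rw [lmul_apply, hC']
  have hC'd : ∀ s, dd (i + 1) C' s = 0 := by
    intro s
    apply lmul_cancel hn2
    rw [← dd_map (lmul (qF k n)) (i + 1) C' s, map_zero]
    have h1 : (fun t => lmul (qF k n) (C' t)) = fun t => rmul (qF k n) (T' t) := funext hC'l
    rw [h1, dd_map (rmul (qF k n)) (i + 1) T' s, hT'd, map_zero]
  obtain ⟨H, hH, hHd⟩ := acyc hq0 (d := 0) (by omega) i C' hC'op hC'd
  -- step F
  obtain ⟨e2, G', hG', hG'f, hG'd⟩ := exists_correction hr hr0 hn hn3 i E (by omega) G H hG hH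
    (fun s => by rw [hGd, hHd, hC'l])
  have hdesc : ∀ s, ∃ γ : RR V c →+ RR V c, M.Lifts (G' s) γ ∧
      (∀ x y, γ (x ^ p ^ e2 * y) = x ^ p ^ e2 * γ y) ∧
      ∀ S : Set (Fin n), S.Nonempty →
        (∀ w ∈ pol k (varsOn M.vars S), w ∈ hom k (fun _ : Fin n => ()) 0 →
          G' s w ∈ pol k (varsOn M.vars S)) →
        ∀ u : RR V c, (u : V.ConeField) ∈ V.regularOn c S →
          (γ u : V.ConeField) ∈ V.regularOn c S := by
    intro s
    apply M.descend (hG' s).ql
    · intro w hw
      rw [hh0] at hw ⊢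
      have := (hG' s).ho 0 w hw
      rwa [add_zero] at this
    · intro z hz
      rw [hMf]
      apply hG'f s z
      rw [hMd] at hz
      rw [hd_eq]
      exact hz
  choose g hgL hgq hgp using hdesc
  refine ⟨g, ?_, ?_⟩
  · intro s
    refine ⟨⟨e2, hgq s⟩, ?_⟩
    apply hgp s (Set.range s) (Set.range_nonempty s)
    intro w hw _
    rw [hvars] at hw ⊢
    exact (hG' s).po _ (subset_refl _) w hw
  · funext s
    have h1 : M.Lifts (dd i G' s) (dd i g s) := lifts_dd M i G' g hgL s
    rw [hG'd, hGd] at h1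
    have h2 : dd i g s = F s := by
      apply M.lifts_unique h1 (hT'L s)
      intro w _
      exact ⟨0, by rw [sub_self, mul_zero]⟩
    exact h2

end quad

end Pool.Agent.TH141
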