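import Pool.Agent.TH141.QuadH
import Pool.Agent.TH141.Eval
import Pool.Agent.H824.AmpB

/-!
# The geometry of the quadric `∑ x_i² = 0`
-/

namespace Pool.Agent.TH141

open MvPolynomial Pool.Agent.H824

section form

variable {k : Type*} [Field k]

/-- the sum of the squares of the coordinates -/
noncomputable def sqF (k : Type*) [Field k] (n : ℕ) : MvPolynomial (Fin n) k := ∑ i, X i ^ 2

theorem sqF_homog (n : ℕ) : (sqF k n).IsHomogeneous 2 := by
  unfold sqF
  apply IsHomogeneous.sum
  intro i _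
  have := (isHomogeneous_X k i).pow 2
  simpa using this

theorem fse_sqF (n : ℕ) : finSuccEquiv k n (sqF k (n + 1)) =
    Polynomial.X ^ 2 + Polynomial.C (sqF k n) := by
  unfold sqF
  rw [Fin.sum_univ_succ, map_add, map_pow, finSuccEquiv_X_zero, map_sum, map_sum]
  congr 1
  apply Finset.sum_congr rfl
  intro i _
  rw [map_pow, finSuccEquiv_X_succ, map_pow]

theorem not_sq [IsAlgClosed k] (h2 : (2 : k) ≠ 0) (n : ℕ) (G : MvPolynomial (Fin (n + 2)) k) :
    G ^ 2 + sqF k (n + 2) ≠ 0 := by
  intro h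
  obtain ⟨ii, hii⟩ := IsAlgClosed.exists_pow_nat_eq (-1 : k) (n := 2) (by norm_num)
  let g : MvPolynomial (Fin (n + 2)) k →ₐ[k] Polynomial k :=
    aeval (Fin.cons Polynomial.X (Fin.cons 1 (fun _ => 0)))
  have h1 := congrArg g h
  rw [map_add, map_pow, map_zero] at h1
  have h3 : g (sqF k (n + 2)) = Polynomial.X ^ 2 + 1 := by
    unfold sqF
    rw [map_sum, Fin.sum_univ_succ, Fin.sum_univ_succ]
    simp [g]
  rw [h3] at h1
  have h4 : Polynomial.eval ii (g G) = 0 := by
    have h5 := congrArg (Polynomial.eval ii) h1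
    rw [Polynomial.eval_add, Polynomial.eval_add, Polynomial.eval_pow, Polynomial.eval_pow,
      Polynomial.eval_X, Polynomial.eval_one, Polynomial.eval_zero, hii] at h5
    have h6 : Polynomial.eval ii (g G) ^ 2 = 0 := by linear_combination h5
    exact pow_eq_zero_iff (two_ne_zero) |>.mp h6
  have h5 := congrArg (fun P => Polynomial.eval ii (Polynomial.derivative P)) h1
  simp only [Polynomial.derivative_add, Polynomial.derivative_pow, Polynomial.derivative_X,
    Polynomial.derivative_one, Polynomial.derivative_zero, Polynomial.eval_add,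
    Polynomial.eval_mul, Polynomial.eval_zero, h4, Polynomial.eval_pow, Polynomial.eval_X,
    Polynomial.eval_C, Polynomial.eval_one] at h5
  have h6 : (2 : k) * ii = 0 := by
    simpa using h5
  rcases mul_eq_zero.mp h6 with h7 | h7
  · exact h2 h7
  · rw [h7] at hii
    simp at hii

theorem sqF_irred [IsAlgClosed k] (h2 : (2 : k) ≠ 0) (n : ℕ) : Irreducible (sqF k (n + 3)) := by
  have h : Irreducible (finSuccEquiv k (n + 2) (sqF k (n + 3))) := by
    rw [fse_sqF]
    have hm : (Polynomial.X ^ 2 + Polynomial.C (sqF k (n + 2)) :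
        Polynomial (MvPolynomial (Fin (n + 2)) k)).Monic :=
      Polynomial.monic_X_pow_add_C _ two_ne_zero
    rw [hm.irreducible_iff_roots_eq_zero_of_degree_le_three
      (by rw [Polynomial.natDegree_X_pow_add_C]) (by rw [Polynomial.natDegree_X_pow_add_C]; norm_num)]
    rw [Multiset.eq_zero_iff_forall_notMem]
    intro G hG
    rw [Polynomial.mem_roots hm.ne_zero, Polynomial.IsRoot.def] at hG
    simp only [Polynomial.eval_add, Polynomial.eval_pow, Polynomial.eval_X,
      Polynomial.eval_C] at hG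
    exact not_sq h2 n G hG
  exact (MulEquiv.irreducible_iff (finSuccEquiv k (n + 2))).mp h

theorem hc_dvd {σ : Type*} {Q : MvPolynomial σ k} {m : ℕ} (hQ : Q.IsHomogeneous m)
    (G : MvPolynomial σ k) (d : ℕ) : Q ∣ homogeneousComponent d (Q * G) := by
  classical
  have h : homogeneousComponent d (Q * G) =
      ∑ e ∈ Finset.range (G.totalDegree + 1),
        homogeneousComponent d (Q * homogeneousComponent e G) := by
    conv_lhs => rw [← sum_homogeneousComponent G]
    rw [Finset.mul_sum, map_sum]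
  rw [h]
  apply Finset.dvd_sum
  intro e _
  rw [homogeneousComponent_of_mem (hQ.mul (homogeneousComponent_isHomogeneous e G))]
  split_ifs
  · exact dvd_mul_right _ _
  · exact dvd_zero _

theorem exists_zero [IsAlgClosed k] {n : ℕ} (i : Fin (n + 3)) :
    ∃ z : Fin (n + 3) → k, z i = 1 ∧ eval z (sqF k (n + 3)) = 0 := by
  classical
  obtain ⟨ii, hii⟩ := IsAlgClosed.exists_pow_nat_eq (-1 : k) (n := 2) (by norm_num)
  obtain ⟨j, hj⟩ := exists_ne i
  refine ⟨fun l => (if l = i then 1 else 0) + (if l = j then ii else 0), ?_, ?_⟩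
  · simp [hj.symm]
  · unfold sqF
    rw [map_sum]
    have h : ∀ l : Fin (n + 3), eval (fun l => (if l = i then (1 : k) else 0) +
        (if l = j then ii else 0)) (X l ^ 2) = (if l = i then 1 else 0) +
        (if l = j then -1 else 0) := by
      intro l
      rw [map_pow, eval_X]
      by_cases h1 : l = i
      · subst h1
        simp [hj.symm]
      · by_cases h2 : l = j
        · subst h2
          simp [hj, hii]
        · simp [h1, h2]
    simp only [h]
    rw [Finset.sum_add_distrib, Finset.sum_ite_eq', Finset.sum_ite_eq']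
    simp

theorem X_notMem [IsAlgClosed k] {n : ℕ} (i : Fin (n + 3)) :
    (X i : MvPolynomial (Fin (n + 3)) k) ∉ Ideal.span {sqF k (n + 3)} := by
  intro h
  obtain ⟨z, hz1, hz2⟩ := exists_zero (k := k) i
  obtain ⟨G, hG⟩ := Ideal.mem_span_singleton.mp h
  have := congrArg (eval z) hG
  rw [map_mul, hz2, zero_mul, eval_X, hz1] at this
  exact one_ne_zero this

/-- the quadric -/
noncomputable def quadV (k : Type*) [Field k] [IsAlgClosed k] (h2 : (2 : k) ≠ 0) (n : ℕ) :
    ProjVariety k (Fin (n + 3)) where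
  ideal := Ideal.span {sqF k (n + 3)}
  prime := (Ideal.span_singleton_prime (sqF_irred h2 n).ne_zero).mpr (sqF_irred h2 n).prime
  homogeneous := by
    intro F hF d
    rw [Ideal.mem_span_singleton] at hF ⊢
    obtain ⟨G, rfl⟩ := hF
    exact hc_dvd (sqF_homog _) G d
  relevant := ⟨0, X_notMem 0⟩

variable [IsAlgClosed k] (h2 : (2 : k) ≠ 0) (n : ℕ)

theorem quadV_el_sqF : (quadV k h2 n).el (sqF k (n + 3)) = 0 := by
  rw [elH_eq_zero]
  exact Ideal.subset_span rfl

theorem quadV_el_X (i : Fin (n + 3)) : (quadV k h2 n).el (X i) ≠ 0 := by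
  rw [Ne, elH_eq_zero]
  exact X_notMem i

end form

section dim

variable {k : Type*} [Field k] [IsAlgClosed k] (h2 : (2 : k) ≠ 0) (n : ℕ)

/-- coordinates that are algebraically independent on the quadric -/
noncomputable def fP (ii : k) : Fin (n + 2) → MvPolynomial (Fin (n + 3)) k :=
  Fin.cons (X 0 - C ii * X 1) (fun j => X j.succ.succ)

theorem psi_aux1 {K : Type*} [Field K] (h : (2 : K) ≠ 0) {I : K} (hI : I ^ 2 = -1) (u t : K) :
    ((u + t) / 2) ^ 2 + ((u - t) / (2 * I)) ^ 2 = u * t := by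
  have hI0 : I ≠ 0 := by
    intro h
    rw [h] at hI
    simp at hI
  field_simp
  rw [hI]
  ring

theorem psi_aux2 {K : Type*} [Field K] (h : (2 : K) ≠ 0) {I : K} (hI : I ^ 2 = -1) (u t : K) :
    (u + t) / 2 - I * ((u - t) / (2 * I)) = t := by
  have hI0 : I ≠ 0 := by
    intro h
    rw [h] at hI
    simp at hI
  field_simp
  ring

include h2 in
theorem exists_psi {ii : k} (hii : ii ^ 2 = -1) :
    ∃ ψ : MvPolynomial (Fin (n + 3)) k →ₐ[k] FractionRing (MvPolynomial (Fin (n + 2)) k),
      ψ (sqF k (n + 3)) = 0 ∧ ∀ i, ψ (fP n ii i) =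
        algebraMap (MvPolynomial (Fin (n + 2)) k) (FractionRing (MvPolynomial (Fin (n + 2)) k))
          (X i) := by
  classical
  let K := FractionRing (MvPolynomial (Fin (n + 2)) k)
  have h2K : (2 : K) ≠ 0 := by
    have : (2 : K) = algebraMap k K 2 := by rw [map_ofNat]
    rw [this, Ne, map_eq_zero_iff _ (algebraMap k K).injective]
    exact h2
  let T : Fin (n + 2) → K := fun i => algebraMap _ _ (X i : MvPolynomial (Fin (n + 2)) k)
  have hT0 : T 0 ≠ 0 := by
    simp only [T]
    rw [Ne, map_eq_zero_iff _ (IsFractionRing.injective (MvPolynomial (Fin (n + 2)) k) K)]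
    exact X_ne_zero 0
  let I : K := algebraMap k K ii
  have hI : I ^ 2 = -1 := by
    simp only [I]
    rw [← map_pow, hii, map_neg, map_one]
  have hI0 : I ≠ 0 := by
    intro h
    rw [h] at hI
    simp at hI
  let u : K := -(∑ j : Fin (n + 1), T j.succ ^ 2) / T 0
  have hu : u * T 0 = -(∑ j : Fin (n + 1), T j.succ ^ 2) := by
    exact div_mul_cancel₀ _ hT0
  refine ⟨aeval (Fin.cons ((u + T 0) / 2) (Fin.cons ((u - T 0) / (2 * I))
    (fun j : Fin (n + 1) => T j.succ))), ?_, ?_⟩
  · unfold sqF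
    rw [map_sum, Fin.sum_univ_succ, Fin.sum_univ_succ]
    simp only [map_pow, aeval_X, Fin.cons_zero, Fin.cons_succ]
    have h6 := psi_aux1 h2K hI u (T 0)
    linear_combination h6 + hu
  · intro i
    unfold fP
    refine Fin.cases ?_ (fun j => ?_) i
    · rw [Fin.cons_zero, map_sub, map_mul, aeval_X, aeval_X, Fin.cons_zero]
      have h7 : (Fin.cons ((u + T 0) / 2) (Fin.cons ((u - T 0) / (2 * I))
        (fun j : Fin (n + 1) => T j.succ)) : Fin (n + 3) → K) 1 = (u - T 0) / (2 * I) := rfl
      rw [h7]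
      have h8 : (aeval (Fin.cons ((u + T 0) / 2) (Fin.cons ((u - T 0) / (2 * I))
        (fun j : Fin (n + 1) => T j.succ)) : Fin (n + 3) → K)) (C ii : MvPolynomial _ k) = I := by
        rw [aeval_C]
      rw [h8]
      exact psi_aux2 h2K hI u (T 0)
    · rw [Fin.cons_succ, aeval_X, Fin.cons_succ, Fin.cons_succ]

theorem fP_indep {ii : k} (hii : ii ^ 2 = -1) :
    AlgebraicIndependent k (fun i => (quadV k h2 n).el (fP n ii i)) := by
  classical
  rw [algebraicIndependent_iff]
  intro P hP
  obtain ⟨ψ, hψ, hψ'⟩ := exists_psi h2 n hii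
  have h1 : (quadV k h2 n).el (aeval (fP n ii) P) = 0 := by
    rw [← hP, ← elH_apply]
    have : (elH (quadV k h2 n)).comp (aeval (fP n ii)) =
        aeval (fun i => (quadV k h2 n).el (fP n ii i)) := by
      apply MvPolynomial.algHom_ext
      intro i
      rw [AlgHom.comp_apply, aeval_X, aeval_X]
      rfl
    rw [← this]
    rfl
  rw [elH_eq_zero] at h1
  obtain ⟨G, hG⟩ := Ideal.mem_span_singleton.mp h1
  have h3 : ψ (aeval (fP n ii) P) = 0 := by rw [hG, map_mul, hψ, zero_mul]
  have h4 : ψ (aeval (fP n ii) P) = algebraMap _ (FractionRing (MvPolynomial (Fin (n + 2)) k)) P := by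
    have : ψ.comp (aeval (fP n ii)) = IsScalarTower.toAlgHom k (MvPolynomial (Fin (n + 2)) k)
        (FractionRing (MvPolynomial (Fin (n + 2)) k)) := by
      apply MvPolynomial.algHom_ext
      intro i
      rw [AlgHom.comp_apply, aeval_X, hψ']
      rfl
    have h5 := congrArg (fun f => f P) this
    exact h5
  rw [h4, map_eq_zero_iff _ (IsFractionRing.injective _ _)] at h3
  exact h3

theorem quadV_dim : (quadV k h2 n).dim = n + 1 := by
  classical
  obtain ⟨ii, hii⟩ := IsAlgClosed.exists_pow_nat_eq (-1 : k) (n := 2) (by norm_num)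
  set V := quadV k h2 n with hV
  let Ω := V.ConeField
  let F : Fin (n + 1 + 1) → V.ConeField := fun i => V.el (fP n ii i)
  have hF : AlgebraicIndependent k F := fP_indep h2 n hii
  have hs := ratio_indep' F hF
  set s : Fin (n + 1) → V.ConeField := fun i => F i.succ / F 0 with hsdef
  have hF0 : F 0 ≠ 0 := hF.ne_zero 0
  have h2Ω : (2 : V.ConeField) ≠ 0 := by
    have : (2 : V.ConeField) = algebraMap k V.ConeField 2 := by rw [map_ofNat]
    rw [this, Ne, map_eq_zero_iff _ (algebraMap k V.ConeField).injective]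
    exact h2
  let I : V.ConeField := algebraMap k V.ConeField ii
  have hI : I ^ 2 = -1 := by
    simp only [I]
    rw [← map_pow, hii, map_neg, map_one]
  have hI0 : I ≠ 0 := by
    intro h
    rw [h] at hI
    simp at hI
  let x : Fin (n + 3) → V.ConeField := fun i => V.el (X i)
  have hF0' : F 0 = x 0 - I * x 1 := by
    simp only [F, fP, Fin.cons_zero]
    rw [← elH_apply, map_sub, map_mul, elH_apply, elH_apply]
    congr 2
  have hFs : ∀ j : Fin (n + 1), F j.succ = x j.succ.succ := fun j => rfl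
  have hrel : x 0 ^ 2 + (x 1 ^ 2 + ∑ j : Fin (n + 1), x j.succ.succ ^ 2) = 0 := by
    have h3 := quadV_el_sqF h2 n
    rw [← elH_apply] at h3
    unfold sqF at h3
    rw [map_sum, Fin.sum_univ_succ, Fin.sum_univ_succ] at h3
    simp only [map_pow, elH_apply] at h3
    exact h3
  set A := IntermediateField.adjoin k (Set.range s) with hA
  have hsA : ∀ j, s j ∈ A := fun j => IntermediateField.subset_adjoin _ _ ⟨j, rfl⟩
  have h2A : (2 : V.ConeField) ∈ A := by
    have := A.algebraMap_mem (2 : k)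
    rwa [map_ofNat] at this
  have hIA : I ∈ A := A.algebraMap_mem ii
  have huA : (x 0 + I * x 1) / F 0 ∈ A := by
    have h3 : (x 0 + I * x 1) / F 0 = -∑ j, s j ^ 2 := by
      have h4 : ∀ j, s j ^ 2 = x j.succ.succ ^ 2 / F 0 ^ 2 := by
        intro j
        simp only [hsdef, hFs, div_pow]
      simp only [h4]
      rw [← Finset.sum_div]
      have h5 : (x 0 + I * x 1) * F 0 = -∑ j : Fin (n + 1), x j.succ.succ ^ 2 := by
        rw [hF0']
        linear_combination hrel - x 1 ^ 2 * hI
      rw [div_eq_iff hF0, neg_mul, div_mul_eq_mul_div, pow_two (F 0), mul_div_mul_right _ _ hF0,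
        eq_comm, ← neg_div, div_eq_iff hF0, h5]
    rw [h3]
    exact neg_mem (sum_mem fun j _ => pow_mem (hsA j) 2)
  have hxA : ∀ i, x i / F 0 ∈ A := by
    intro i
    refine Fin.cases ?_ (fun j => ?_) i
    · have h3 : x 0 / F 0 = ((x 0 + I * x 1) / F 0 + 1) / 2 := by
        rw [eq_div_iff h2Ω, div_add_one hF0, div_mul_eq_mul_div]
        congr 1
        rw [hF0']
        ring
      rw [h3]
      exact div_mem (add_mem huA (one_mem _)) h2A
    · refine Fin.cases ?_ (fun j => ?_) j
      · have h3 : x 1 / F 0 = ((x 0 + I * x 1) / F 0 - 1) / (2 * I) := by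
          rw [eq_div_iff (mul_ne_zero h2Ω hI0), div_sub_one hF0, div_mul_eq_mul_div]
          congr 1
          rw [hF0']
          ring
        have h4 : x (Fin.succ 0) = x 1 := rfl
        rw [h4, h3]
        exact div_mem (sub_mem huA (one_mem _)) (mul_mem h2A hIA)
      · exact hsA j
  have hle : V.functionField ≤ A := by
    unfold ProjVariety.functionField ratioField
    rw [IntermediateField.adjoin_le_iff]
    rintro u ⟨i, j, rfl⟩
    change x i / x j ∈ A
    have : x i / x j = (x i / F 0) / (x j / F 0) := by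
      rw [div_div_div_cancel_right₀ hF0]
    rw [this]
    exact div_mem (hxA i) (hxA j)
  have hx0 : x 0 ≠ 0 := quadV_el_X h2 n 0
  have hsV : ∀ j, s j ∈ V.functionField := by
    intro j
    have h3 : s j = (x j.succ.succ / x 0) / (1 - I * (x 1 / x 0)) := by
      have h4 : 1 - I * (x 1 / x 0) = F 0 / x 0 := by
        rw [hF0']
        field_simp
      rw [h4, div_div_div_cancel_right₀ hx0]
      rfl
    rw [h3]
    have h5 : ∀ i, x i / x 0 ∈ V.functionField := fun i => V.coord_ratio_mem _ _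
    exact div_mem (h5 _) (sub_mem (one_mem _)
      (mul_mem (V.functionField.algebraMap_mem ii) (h5 _)))
  have h := trdeg_of_pow V.functionField s hsV hs 1 (by norm_num)
    (fun u hu => by rw [pow_one]; exact hle hu)
  unfold ProjVariety.dim fieldDim
  rw [h]
  exact Cardinal.toNat_natCast _

theorem quadV_smooth : (quadV k h2 n).IsSmooth := by
  classical
  intro z hz
  have hq : sqF k (n + 3) ∈ (quadV k h2 n).ideal := Ideal.subset_span rfl
  have hd : ∀ i, eval z (pderiv i (sqF k (n + 3))) = 2 * z i := by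
    intro i
    unfold sqF
    rw [map_sum, map_sum, Finset.sum_eq_single i]
    · simp [Derivation.leibniz_pow]
    · intro b _ hb
      simp [Derivation.leibniz_pow, pderiv_X, hb]
    · simp
  have h1 := finrank_ker_functional (fun i => eval z (pderiv i (sqF k (n + 3)))) (by
    intro h
    apply hz.1
    funext i
    have := congrFun h i
    simp only [hd, Pi.zero_apply] at this
    exact (mul_eq_zero.mp this).resolve_left h2) ((quadV k h2 n).coneTangent z)
    (fun v hv => hv _ hq)
  rw [quadV_dim]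
  rw [Fintype.card_fin] at h1
  omega

end dim

section model

variable {k : Type*} [Field k] [IsAlgClosed k] (h2 : (2 : k) ≠ 0) (n : ℕ)

/-- the evaluation of the Laurent polynomials on the quadric -/
noncomputable def rhoQ : Lau k (Fin (n + 3)) →ₐ[k] (quadV k h2 n).ConeField :=
  evalL (fun i => (quadV k h2 n).el (X i)) (quadV_el_X h2 n)

theorem toL_sqF : toL k (Fin (n + 3)) (sqF k (n + 3)) = qF k (n + 3) := by
  unfold sqF qF toL
  rw [map_sum]
  apply Finset.sum_congr rfl
  intro i _
  rw [map_pow, aeval_X, ← mo_nsmul]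
  congr 1
  rw [← Pi.single_smul]
  simp

theorem rhoQ_toL (F : MvPolynomial (Fin (n + 3)) k) :
    rhoQ h2 n (toL k _ F) = (quadV k h2 n).el F := by
  unfold rhoQ
  rw [evalL_toL, el_aeval]

theorem rhoQ_f : rhoQ h2 n (qF k (n + 3)) = 0 := by
  rw [← toL_sqF, rhoQ_toL, quadV_el_sqF]

theorem rhoQ_ker (w : Lau k (Fin (n + 3))) (h : rhoQ h2 n w = 0) :
    ∃ z, w = qF k (n + 3) * z := by
  obtain ⟨N, hN⟩ := exists_clear w
  obtain ⟨G, hG⟩ := exists_toL hN
  have h3 : (quadV k h2 n).el G = 0 := by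
    rw [← rhoQ_toL, hG, map_mul, h, mul_zero]
  rw [elH_eq_zero] at h3
  obtain ⟨H, hH⟩ := Ideal.mem_span_singleton.mp h3
  refine ⟨mo k (-(fun _ : Fin (n + 3) => (N : ℤ))) * toL k _ H, ?_⟩
  rw [← mo_mul_neg (fun _ : Fin (n + 3) => (N : ℤ)) w, ← hG, hH, map_mul, toL_sqF]
  ring

theorem rhoQ_mo (ν : Fin (n + 3) → ℤ) :
    rhoQ h2 n (mo k ν) = ∏ i, (quadV k h2 n).el (X i) ^ ν i := by
  unfold rhoQ
  rw [evalL_mo]

theorem rhoQ_single (v : Fin (n + 3)) (e : ℤ) :
    rhoQ h2 n (mo k (Pi.single v e)) = (quadV k h2 n).el (X v) ^ e := by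
  rw [rhoQ_mo, Finset.prod_eq_single v]
  · rw [Pi.single_eq_same]
  · intro b _ hb
    rw [Pi.single_eq_of_ne hb, zpow_zero]
  · simp

theorem zpow_memQ {K : Type*} [Field K] [Algebra k K] (A : Subalgebra k K) (u : K) (e : ℤ)
    (h1 : 0 ≤ e → u ∈ A) (h3 : e < 0 → u⁻¹ ∈ A) : u ^ e ∈ A := by
  rcases le_or_gt 0 e with h | h
  · obtain ⟨m, hm⟩ := Int.eq_ofNat_of_zero_le h
    rw [hm, zpow_natCast]
    exact pow_mem (h1 h) m
  · obtain ⟨m, hm⟩ := Int.eq_ofNat_of_zero_le (a := -e) (by omega)
    have h4 : e = -(m : ℤ) := by omega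
    rw [h4, zpow_neg, zpow_natCast, ← inv_pow]
    exact pow_mem (h3 h) m

theorem prod_zpow_constQ {K I : Type*} [Field K] (x : K) (hx : x ≠ 0) (s : Finset I) (v : I → ℤ) :
    ∏ a ∈ s, x ^ v a = x ^ (∑ a ∈ s, v a) := by
  classical
  induction s using Finset.induction_on with
  | empty => simp
  | insert a s ha ih => rw [Finset.prod_insert ha, Finset.sum_insert ha, ih, zpow_add₀ hx]

theorem rhoQ_mem (S : Set (Fin (n + 3))) (hS : S.Nonempty) (ν : Fin (n + 3) → ℤ)
    (h1 : ν ∈ NegAt (varsOn (fun a : Fin (n + 3) => {a}) S)) (h3 : ∑ i, ν i = 0) :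
    rhoQ h2 n (mo k ν) ∈ (quadV k h2 n).regularOn id S := by
  obtain ⟨a, ha⟩ := hS
  have e0 : ∏ i, (quadV k h2 n).el (X i) ^ ν i =
      ∏ i, ((quadV k h2 n).el (X i) / (quadV k h2 n).el (X a)) ^ ν i := by
    simp only [div_zpow]
    rw [Finset.prod_div_distrib, prod_zpow_constQ _ (quadV_el_X h2 n a), h3, zpow_zero, div_one]
  rw [rhoQ_mo, e0]
  apply prod_mem
  intro i _
  apply zpow_memQ
  · intro _
    exact Algebra.subset_adjoin ⟨i, a, ha, rfl⟩
  · intro hneg
    obtain ⟨b, hb, hv⟩ := h1 i hneg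
    have hib : i = b := hv
    subst hib
    rw [inv_div]
    exact Algebra.subset_adjoin ⟨a, i, hb, rfl⟩

theorem dg_unit (ν : Fin (n + 3) → ℤ) :
    dg (fun _ : Fin (n + 3) => ()) ν = 0 ↔ ∑ i, ν i = 0 := by
  constructor
  · intro h
    have h3 := congrFun h ()
    rw [dg_apply] at h3
    simpa using h3
  · intro h
    funext r
    rw [dg_apply]
    simpa using h

theorem rhoQ_reg (S : Set (Fin (n + 3))) (hS : S.Nonempty) (u : (quadV k h2 n).ConeField) :
    u ∈ (quadV k h2 n).regularOn id S ↔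
      ∃ w, w ∈ pol k (varsOn (fun a : Fin (n + 3) => {a}) S) ∧
      w ∈ hom k (fun _ : Fin (n + 3) => ()) 0 ∧ rhoQ h2 n w = u := by
  constructor
  · intro hu
    unfold ProjVariety.regularOn at hu
    induction hu using Algebra.adjoin_induction with
    | mem x hx =>
      obtain ⟨i, a, ha, rfl⟩ := hx
      refine ⟨mo k (Pi.single i 1 + Pi.single a (-1)), ?_, ?_, ?_⟩
      · apply mo_mem
        intro v hv
        by_contra hvS
        have h1 : v ≠ a := fun h => hvS ⟨a, ha, h⟩
        simp only [Pi.add_apply, Pi.single_apply, h1, if_false] at hv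
        split_ifs at hv <;> omega
      · apply mo_mem
        simp only [Set.mem_ofPred_eq]
        rw [dg_unit]
        simp [Finset.sum_add_distrib]
      · rw [mo_add, map_mul, rhoQ_single, rhoQ_single, zpow_one, zpow_neg_one, ← div_eq_mul_inv]
        rfl
    | algebraMap a =>
      refine ⟨algebraMap k _ a, ?_, ?_, AlgHom.commutes _ _⟩
      · rw [Algebra.algebraMap_eq_smul_one]
        exact Submodule.smul_mem _ _ (one_mem_pol _)
      · rw [Algebra.algebraMap_eq_smul_one, ← mo_zero]
        apply Submodule.smul_mem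
        apply mo_mem
        simp only [Set.mem_ofPred_eq, map_zero]
    | add x y _ _ hx hy =>
      obtain ⟨w, hw1, hw2, rfl⟩ := hx
      obtain ⟨w', hw1', hw2', rfl⟩ := hy
      exact ⟨w + w', add_mem hw1 hw1', add_mem hw2 hw2', map_add _ _ _⟩
    | mul x y _ _ hx hy =>
      obtain ⟨w, hw1, hw2, rfl⟩ := hx
      obtain ⟨w', hw1', hw2', rfl⟩ := hy
      refine ⟨w * w', pol_mul hw1 hw1', ?_, map_mul _ _ _⟩
      have := hom_mul hw2 hw2'
      rwa [add_zero] at this
  · rintro ⟨w, hw1, hw2, rfl⟩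
    have h : w ∈ supp k (NegAt (varsOn (fun a : Fin (n + 3) => {a}) S) ∩
        {ν | dg (fun _ : Fin (n + 3) => ()) ν = 0}) := supp_inter.mpr ⟨hw1, hw2⟩
    refine supp_induction
      (P := fun w => rhoQ h2 n w ∈ (quadV k h2 n).regularOn id S) ?_ ?_ ?_ ?_ h
    · rw [map_zero]
      exact zero_mem _
    · intro x y hx hy
      rw [map_add]
      exact add_mem hx hy
    · intro c x hx
      rw [map_smul]
      exact Subalgebra.smul_mem _ hx c
    · intro ν hν
      exact rhoQ_mem h2 n S hS ν hν.1 ((dg_unit n ν).mp hν.2)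

/-- the model of the quadric -/
noncomputable def quadModel :
    Model (quadV k h2 n) (id : Fin (n + 3) → Fin (n + 3)) (fun _ : Fin (n + 3) => ()) where
  ρ := rhoQ h2 n
  f := qF k (n + 3)
  df := fun _ => 2
  vars := fun a => {a}
  noVar := noVar_qF (by omega)
  f_ne := qF_ne (by omega)
  f_hom := by
    rw [← hd_eq]
    exact qF_hd
  ρf := rhoQ_f h2 n
  base := by
    intro a
    exact ⟨fun _ => a, fun r => ⟨rfl, rfl⟩⟩
  full := by
    intro v
    exact ⟨v, rfl⟩
  reg := rhoQ_reg h2 n
  ker := fun w _ h => rhoQ_ker h2 n w h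

end model

/-- The higher cohomology of the sheaf of differential operators vanishes on the odd-dimensional
quadrics over a field of odd characteristic. -/
theorem quadV_vanish {k : Type*} [Field k] [IsAlgClosed k] {p : ℕ} [hp : Fact p.Prime]
    [CharP k p] (h2 : (2 : k) ≠ 0) (hp2 : p ≠ 2) (m i : ℕ) :
    (quadV k h2 (2 * m)).DiffVanishing id p i := by
  obtain ⟨r, hr⟩ := hp.out.odd_of_ne_two hp2
  have hp3 : 3 ≤ p := by
    have := hp.out.two_le
    omega
  exact quad_vanish (k := k) (p := p) (r := (r : ℤ)) (by rw [hr]; push_cast; ring)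
    (by omega) (n := 2 * m + 3) ⟨m + 1, by ring⟩ (by omega) (quadModel h2 (2 * m)) rfl rfl rfl i

end Pool.Agent.TH141
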